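import Mathlib

/-!
# Project GS (helper183, MP_09799c_ag): points which are not `ℓ`-Galois special. Statements.

Everything is plain linear algebra over `ℂ`.
-/

set_option autoImplicit false

namespace Pool.Agent.N183.U8

open Module

section

variable {V : Type} [AddCommGroup V] [Module ℂ V]

/-- Closed under brackets. -/
def Br (L : Submodule ℂ (End ℂ V)) : Prop := ∀ A ∈ L, ∀ B ∈ L, A * B - B * A ∈ L

/-- Stable subspaces. -/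
def Stb (L : Submodule ℂ (End ℂ V)) (U : Submodule ℂ V) : Prop := ∀ A ∈ L, ∀ u ∈ U, A u ∈ U

/-- Complete reducibility. -/
def CR (L : Submodule ℂ (End ℂ V)) : Prop := ∀ U, Stb L U → ∃ U', Stb L U' ∧ IsCompl U U'

/-- Skew endomorphisms. -/
def Skw (β : V →ₗ[ℂ] V →ₗ[ℂ] ℂ) (A : End ℂ V) : Prop := ∀ u v, β (A u) v + β u (A v) = 0

end

/-- (A) A completely reducible linear Lie algebra `L` is reductive: for a stable subspace `U` there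
is an ideal `I` of `L` on which the restriction to `U` is injective, and which has the same
restrictions to `U` as `[L, L]`. -/
def S_A : Prop := ∀ (V : Type) [AddCommGroup V] [Module ℂ V] [FiniteDimensional ℂ V]
  (L : Submodule ℂ (End ℂ V)), Br L → CR L → ∀ U : Submodule ℂ V, Stb L U →
  ∃ I : Submodule ℂ (End ℂ V), I ≤ L ∧ (∀ A ∈ L, ∀ C ∈ I, A * C - C * A ∈ I) ∧
    (∀ C ∈ I, (∀ u ∈ U, C u = 0) → C = 0) ∧
    (∀ A ∈ L, ∀ B ∈ L, ∃ C ∈ I, ∀ u ∈ U, C u = (A * B - B * A) u)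

/-- (B) An irreducible linear Lie algebra with an invariant form, which contains a set of
involutions with the same stable subspaces and an element of rank one, is the symplectic Lie
algebra. -/
def S_B : Prop := ∀ (U : Type) [AddCommGroup U] [Module ℂ U] [FiniteDimensional ℂ U]
  (S : Set (End ℂ U)) (L : Submodule ℂ (End ℂ U)) (β : U →ₗ[ℂ] U →ₗ[ℂ] ℂ) (N : End ℂ U),
  (∀ D ∈ S, D * D = 1) → (∀ D ∈ S, D ∈ L) → Br L →
  (∀ W : Submodule ℂ U, (∀ D ∈ S, ∀ w ∈ W, D w ∈ W) → W = ⊥ ∨ W = ⊤) →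
  β ≠ 0 → (∀ A ∈ L, Skw β A) → N ∈ L → finrank ℂ (LinearMap.range N) = 1 →
  (∀ u, β u u = 0) ∧ (∀ u, (∀ v, β u v = 0) → u = 0) ∧ ∀ A : End ℂ U, Skw β A → A ∈ L

/-- (Bsl) The same without an invariant form: `L` contains the special linear Lie algebra. -/
def S_Bsl : Prop := ∀ (U : Type) [AddCommGroup U] [Module ℂ U] [FiniteDimensional ℂ U]
  (S : Set (End ℂ U)) (L : Submodule ℂ (End ℂ U)) (N : End ℂ U),
  (∀ D ∈ S, D * D = 1) → (∀ D ∈ S, D ∈ L) → Br L →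
  (∀ W : Submodule ℂ U, (∀ D ∈ S, ∀ w ∈ W, D w ∈ W) → W = ⊥ ∨ W = ⊤) →
  (∀ (β : U →ₗ[ℂ] U →ₗ[ℂ] ℂ) (c : End ℂ U → ℂ),
    (∀ A ∈ L, ∀ u v, β (A u) v + β u (A v) = c A * β u v) → β = 0) →
  N ∈ L → N * N = 0 → finrank ℂ (LinearMap.range N) = 1 →
  ∀ A : End ℂ U, LinearMap.trace ℂ U A = 0 → A ∈ L

/-- (C) A representation `ρ` of the symplectic Lie algebra of `U` on `R`, equivariant for pairs of
involutions: if there is no equivariant map from `U` to `R` then `ρ` is zero. -/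
def S_C : Prop := ∀ (U R : Type) [AddCommGroup U] [Module ℂ U] [FiniteDimensional ℂ U]
  [AddCommGroup R] [Module ℂ R] [FiniteDimensional ℂ R]
  (β : U →ₗ[ℂ] U →ₗ[ℂ] ℂ) (ρ : End ℂ U →ₗ[ℂ] End ℂ R) (T : Set (End ℂ U × End ℂ R)),
  (∀ u, β u u = 0) → (∀ u, (∀ v, β u v = 0) → u = 0) →
  (∀ A B, Skw β A → Skw β B → ρ (A * B - B * A) = ρ A * ρ B - ρ B * ρ A) →
  T.Nonempty →
  (∀ p ∈ T, p.1 * p.1 = 1 ∧ p.2 * p.2 = 1 ∧ Skw β p.1 ∧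
    ∀ A, Skw β A → p.2 * ρ A - ρ A * p.2 = ρ (p.1 * A - A * p.1)) →
  (∀ f : U →ₗ[ℂ] R, (∀ p ∈ T, ∀ u, f (p.1 u) = p.2 (f u)) → f = 0) →
  ∀ A, Skw β A → ρ A = 0

/-- (Csl) The same for the special linear Lie algebra. -/
def S_Csl : Prop := ∀ (U R : Type) [AddCommGroup U] [Module ℂ U] [FiniteDimensional ℂ U]
  [AddCommGroup R] [Module ℂ R] [FiniteDimensional ℂ R]
  (ρ : End ℂ U →ₗ[ℂ] End ℂ R) (T : Set (End ℂ U × End ℂ R)),
  3 ≤ finrank ℂ U →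
  (∀ A B, LinearMap.trace ℂ U A = 0 → LinearMap.trace ℂ U B = 0 →
    ρ (A * B - B * A) = ρ A * ρ B - ρ B * ρ A) →
  T.Nonempty →
  (∀ p ∈ T, p.1 * p.1 = 1 ∧ p.2 * p.2 = 1 ∧ p.1 ≠ 1 ∧ p.1 ≠ -1 ∧
    ∀ A, LinearMap.trace ℂ U A = 0 → p.2 * ρ A - ρ A * p.2 = ρ (p.1 * A - A * p.1)) →
  (finrank ℂ U = 3 ∨ ∃ p ∈ T, 2 ≤ finrank ℂ (LinearMap.ker (p.1 - 1)) ∧
    2 ≤ finrank ℂ (LinearMap.ker (p.1 + 1))) →
  (∀ f : U →ₗ[ℂ] R, (∀ p ∈ T, ∀ u, f (p.1 u) = p.2 (f u)) → f = 0) →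
  (∀ f : Dual ℂ U →ₗ[ℂ] R, (∀ p ∈ T, ∀ φ : Dual ℂ U, f (φ.comp p.1) = -p.2 (f φ)) → f = 0) →
  ∀ A, LinearMap.trace ℂ U A = 0 → ρ A = 0

end Pool.Agent.N183.U8
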