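import Mathlib
import Pool.Agent.N183.U8.Stm

/-!
# Elements of an ideal which are zero on the other constituents
-/

set_option autoImplicit false

namespace Pool.Agent.N183.U8

open Module

section nab

variable {U : Type} [AddCommGroup U] [Module ℂ U] (β : U →ₗ[ℂ] U →ₗ[ℂ] ℂ)

/-- The skew endomorphisms of rank at most two. -/
noncomputable def nn (a b : U) : End ℂ U := (β a).smulRight b + (β b).smulRight a

theorem nn_apply (a b v : U) : nn β a b v = β a v • b + β b v • a := rfl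

variable {β}

theorem alt_swap (h1 : ∀ u, β u u = 0) (u v : U) : β u v = -β v u := by
  have h := h1 (u + v)
  rw [map_add, map_add, LinearMap.add_apply, LinearMap.add_apply, h1, h1] at h
  linear_combination h

theorem nn_skw (h1 : ∀ u, β u u = 0) (a b : U) : Skw β (nn β a b) := by
  intro u v
  rw [nn_apply, nn_apply, map_add, map_add, map_smul, map_smul, map_smul, map_smul,
    LinearMap.add_apply, LinearMap.smul_apply, LinearMap.smul_apply, smul_eq_mul, smul_eq_mul,
    smul_eq_mul, smul_eq_mul, alt_swap h1 u b, alt_swap h1 u a]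
  ring

theorem skw_nn [FiniteDimensional ℂ U] (h1 : ∀ u, β u u = 0)
    (h2 : ∀ u, (∀ v, β u v = 0) → u = 0) {P : Submodule ℂ (End ℂ U)} (hP : ∀ a b, nn β a b ∈ P)
    {A : End ℂ U} (hA : Skw β A) : A ∈ P := by
  classical
  have hnd : LinearMap.BilinForm.Nondegenerate β := by
    refine ⟨fun u hu => h2 u hu, fun u hu => h2 u fun v => ?_⟩
    rw [alt_swap h1, hu v, neg_zero]
  let e := Module.finBasis ℂ U
  let e' := LinearMap.BilinForm.dualBasis β hnd e
  have hd : ∀ i j, β (e' i) (e j) = if j = i then 1 else 0 := fun i j =>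
    LinearMap.BilinForm.apply_dualBasis_left hnd e i j
  have hv : ∀ v, ∑ i, β (e' i) v • e i = v := by
    intro v
    conv_rhs => rw [← e.sum_repr v]
    refine Finset.sum_congr rfl fun i _ => ?_
    congr 1
    conv_lhs => rw [← e.sum_repr v]
    rw [map_sum]
    simp_rw [map_smul, hd, smul_eq_mul, mul_ite, mul_one, mul_zero]
    simp
  have hw : ∀ w, ∑ i, β w (e i) • e' i = w := by
    intro w
    rw [← sub_eq_zero]
    refine h2 _ fun v => ?_
    rw [map_sub, LinearMap.sub_apply, map_sum, LinearMap.sum_apply, sub_eq_zero]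
    conv_rhs => rw [← hv v, map_sum]
    refine Finset.sum_congr rfl fun i _ => ?_
    rw [map_smul, map_smul, LinearMap.smul_apply, smul_eq_mul, smul_eq_mul, mul_comm]
  have h3 : (2 : ℂ) • A = ∑ i, nn β (e' i) (A (e i)) := by
    refine LinearMap.ext fun v => ?_
    rw [LinearMap.sum_apply]
    simp_rw [nn_apply]
    rw [Finset.sum_add_distrib]
    have h4 : ∑ i, β (e' i) v • A (e i) = A v := by
      conv_rhs => rw [← hv v, map_sum]
      exact Finset.sum_congr rfl fun i _ => (map_smul _ _ _).symm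
    have h5 : ∑ i, β (A (e i)) v • e' i = A v := by
      conv_rhs => rw [← hw (A v)]
      refine Finset.sum_congr rfl fun i _ => ?_
      congr 1
      rw [alt_swap h1 (A v)]
      linear_combination hA (e i) v
    rw [h4, h5, LinearMap.smul_apply, two_smul]
  have h6 : A = (2 : ℂ)⁻¹ • ((2 : ℂ) • A) := by
    rw [smul_smul, inv_mul_cancel₀ two_ne_zero, one_smul]
  rw [h6, h3]
  exact Submodule.smul_mem _ _ (Submodule.sum_mem _ fun i _ => hP _ _)

/-- The symplectic Lie algebra is perfect. -/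
theorem skw_perfect [FiniteDimensional ℂ U] (h1 : ∀ u, β u u = 0)
    (h2 : ∀ u, (∀ v, β u v = 0) → u = 0) {P : Submodule ℂ (End ℂ U)}
    (hP : ∀ A B, Skw β A → Skw β B → A * B - B * A ∈ P) {A : End ℂ U} (hA : Skw β A) : A ∈ P := by
  have hxx : ∀ x, nn β x x ∈ P := by
    intro x
    by_cases hx : x = 0
    · have h3 : nn β x x = 0 := by
        refine LinearMap.ext fun v => ?_
        rw [nn_apply, hx]
        simp
      rw [h3]
      exact Submodule.zero_mem _
    · obtain ⟨z, hz⟩ : ∃ z, β x z ≠ 0 := by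
        by_contra hcon
        push Not at hcon
        exact hx (h2 x hcon)
      have h3 := hP _ _ (nn_skw h1 x x) (nn_skw h1 x z)
      have h4 : nn β x x * nn β x z - nn β x z * nn β x x = (2 * β x z) • nn β x x := by
        refine LinearMap.ext fun v => ?_
        rw [LinearMap.sub_apply, End.mul_apply, End.mul_apply, LinearMap.smul_apply]
        simp only [nn_apply, map_add, map_smul, h1]
        rw [alt_swap h1 z x]
        module
      rw [h4] at h3
      have h5 := Submodule.smul_mem P (2 * β x z)⁻¹ h3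
      rwa [smul_smul, inv_mul_cancel₀ (mul_ne_zero two_ne_zero hz), one_smul] at h5
  refine skw_nn h1 h2 (fun a b => ?_) hA
  have h3 : nn β a b = (2 : ℂ)⁻¹ • (nn β (a + b) (a + b) - nn β a a - nn β b b) := by
    refine LinearMap.ext fun v => ?_
    simp only [nn_apply, LinearMap.smul_apply, LinearMap.sub_apply, map_add, LinearMap.add_apply]
    module
  rw [h3]
  exact Submodule.smul_mem _ _ (Submodule.sub_mem _ (Submodule.sub_mem _ (hxx _) (hxx _)) (hxx _))

end nab

section main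

variable {V : Type} [AddCommGroup V] [Module ℂ V]

/-- The restrictions. -/
def rs (L : Submodule ℂ (End ℂ V)) (U : Submodule ℂ V) : Submodule ℂ (End ℂ U) where
  carrier := {B | ∃ A ∈ L, ∀ u : U, ((B u : U) : V) = A u}
  add_mem' := by
    rintro B B' ⟨A, hA, h⟩ ⟨A', hA', h'⟩
    refine ⟨A + A', L.add_mem hA hA', fun u => ?_⟩
    rw [LinearMap.add_apply, Submodule.coe_add, h, h', LinearMap.add_apply]
  zero_mem' := ⟨0, L.zero_mem, fun u => rfl⟩
  smul_mem' := by
    rintro c B ⟨A, hA, h⟩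
    refine ⟨c • A, L.smul_mem c hA, fun u => ?_⟩
    rw [LinearMap.smul_apply, Submodule.coe_smul, h, LinearMap.smul_apply]

theorem exists_elt' (hA : S_A) (hB : S_B) (hC : S_C) [FiniteDimensional ℂ V]
    {S : Set (End ℂ V)} {L : Submodule ℂ (End ℂ V)}
    (hsq : ∀ D ∈ S, D * D = 1) (hSL : ∀ D ∈ S, D ∈ L) (hbr : Br L)
    (hgen : ∀ L' : Submodule ℂ (End ℂ V), (∀ D ∈ S, D ∈ L') → Br L' → L ≤ L')
    (hcr : CR L) {U : Submodule ℂ V} (hUst : Stb L U)
    (hUirr : ∀ W ≤ U, Stb L W → W = ⊥ ∨ W = U)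
    {b : V →ₗ[ℂ] V →ₗ[ℂ] ℂ} (hb : ∀ A ∈ L, ∀ u ∈ U, ∀ v ∈ U, b (A u) v + b u (A v) = 0)
    (hb0 : ∃ u ∈ U, ∃ v ∈ U, b u v ≠ 0) {N : End ℂ V} (hN : N ∈ L)
    (hN1 : finrank ℂ (U.map N) = 1) {R : Submodule ℂ V} (hR : Stb L R)
    (hUR : ∀ f : V →ₗ[ℂ] V, (∀ D ∈ S, ∀ u ∈ U, f (D u) = D (f u)) → (∀ u ∈ U, f u ∈ R) →
      ∀ u ∈ U, f u = 0) :
    (∀ u ∈ U, b u u = 0) ∧ (∀ u ∈ U, (∀ v ∈ U, b u v = 0) → u = 0) ∧
    ∀ A : End ℂ V, (∀ u ∈ U, A u ∈ U) → (∀ u ∈ U, ∀ v ∈ U, b (A u) v + b u (A v) = 0) →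
    ∃ C ∈ L, (∀ u ∈ U, C u = A u) ∧ ∀ r ∈ R, C r = 0 := by
  classical
  -- the involutions on `U`
  let SU : Set (End ℂ U) := {B | ∃ D ∈ S, ∀ u : U, ((B u : U) : V) = D u}
  let β : U →ₗ[ℂ] U →ₗ[ℂ] ℂ := b.domRestrict₁₂ U U
  have hβ : ∀ u v : U, β u v = b u v := fun u v => rfl
  let NU : End ℂ U := N.restrict (hUst N hN)
  have hNU : ∀ u : U, ((NU u : U) : V) = N u := fun u => rfl
  have hirr : ∀ W : Submodule ℂ U, (∀ D ∈ SU, ∀ w ∈ W, D w ∈ W) → W = ⊥ ∨ W = ⊤ := by
    intro W hW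
    have h1 : Stb L (W.map U.subtype) := by
      let L' : Submodule ℂ (End ℂ V) :=
        { carrier := {A | ∀ w ∈ W.map U.subtype, A w ∈ W.map U.subtype}
          add_mem' := fun {x y} hx hy w hw => Submodule.add_mem _ (hx w hw) (hy w hw)
          zero_mem' := fun w hw => Submodule.zero_mem _
          smul_mem' := fun c x hx w hw => Submodule.smul_mem _ c (hx w hw) }
      have h2 : L ≤ L' := by
        refine hgen L' (fun D hD => ?_) (fun A hA B hB w hw => ?_)
        · rintro _ ⟨w, hw, rfl⟩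
          refine ⟨D.restrict (hUst D (hSL D hD)) w, hW _ ⟨D, hD, fun u => rfl⟩ w hw, rfl⟩
        · exact Submodule.sub_mem _ (hA _ (hB w hw)) (hB _ (hA w hw))
      exact fun A hA w hw => h2 hA w hw
    rcases hUirr (W.map U.subtype) (Submodule.map_subtype_le U W) h1 with h2 | h2
    · left
      refine Submodule.map_injective_of_injective (f := U.subtype) U.injective_subtype ?_
      rw [h2, Submodule.map_bot]
    · right
      refine eq_top_iff.2 fun u _ => ?_
      have h3 : (u : V) ∈ W.map U.subtype := by rw [h2]; exact u.2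
      obtain ⟨w, hw, hwu⟩ := h3
      have h4 : w = u := Subtype.ext hwu
      rwa [h4] at hw
  obtain ⟨h1, h2, h3⟩ := hB U SU (rs L U) β NU
    (by
      rintro D ⟨D', hD', h⟩
      refine LinearMap.ext fun u => Subtype.ext ?_
      rw [End.mul_apply, h, h, ← End.mul_apply, hsq D' hD']
      rfl)
    (by
      rintro D ⟨D', hD', h⟩
      exact ⟨D', hSL D' hD', h⟩)
    (by
      rintro A ⟨A', hA', h⟩ B ⟨B', hB', h'⟩
      refine ⟨A' * B' - B' * A', hbr A' hA' B' hB', fun u => ?_⟩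
      rw [LinearMap.sub_apply, Submodule.coe_sub, End.mul_apply, End.mul_apply, h, h', h', h]
      rfl)
    hirr
    (by
      intro h
      obtain ⟨u, hu, v, hv, huv⟩ := hb0
      exact huv (LinearMap.congr_fun (LinearMap.congr_fun h ⟨u, hu⟩) ⟨v, hv⟩))
    (by
      rintro A ⟨A', hA', h⟩ u v
      rw [hβ, hβ, h, h]
      exact hb A' hA' u u.2 v v.2)
    ⟨N, hN, hNU⟩
    (by
      have h5 : (LinearMap.range NU).map U.subtype = U.map N := by
        ext x
        simp only [Submodule.mem_map, LinearMap.mem_range]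
        constructor
        · rintro ⟨_, ⟨u, rfl⟩, rfl⟩
          exact ⟨u, u.2, rfl⟩
        · rintro ⟨u, hu, rfl⟩
          exact ⟨_, ⟨⟨u, hu⟩, rfl⟩, rfl⟩
      rw [← hN1, ← h5]
      exact (Submodule.finrank_map_subtype_eq U (LinearMap.range NU)).symm)
  obtain ⟨I, hIL, hIi, hIj, hIr⟩ := hA V L hbr hcr U hUst
  -- restrictions of the ideal
  let r : I →ₗ[ℂ] End ℂ U :=
    { toFun := fun C => (C : End ℂ V).restrict (hUst C (hIL C.2))
      map_add' := fun C C' => rfl
      map_smul' := fun c C => rfl }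
  let q : I →ₗ[ℂ] End ℂ R :=
    { toFun := fun C => (C : End ℂ V).restrict (hR C (hIL C.2))
      map_add' := fun C C' => rfl
      map_smul' := fun c C => rfl }
  have hr : ∀ (C : I) (u : U), ((r C u : U) : V) = (C : End ℂ V) u := fun C u => rfl
  have hq : ∀ (C : I) (u : R), ((q C u : R) : V) = (C : End ℂ V) u := fun C u => rfl
  have hrinj : LinearMap.ker r = ⊥ := by
    rw [eq_bot_iff]
    intro C hC
    rw [LinearMap.mem_ker] at hC
    rw [Submodule.mem_bot]
    apply Subtype.ext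
    refine hIj C C.2 fun u hu => ?_
    have h4 := congrArg Subtype.val (LinearMap.congr_fun hC ⟨u, hu⟩)
    exact h4
  obtain ⟨g, hg⟩ := r.exists_leftInverse_of_injective hrinj
  have hg' : ∀ C, g (r C) = C := fun C => LinearMap.congr_fun hg C
  -- each skew endomorphism is the restriction of an element of the ideal
  have key : ∀ B : End ℂ U, Skw β B → ∃ C : I, r C = B := by
    intro B hB
    have h4 : B ∈ LinearMap.range r := by
      refine skw_perfect h1 h2 (fun A B hA hB => ?_) hB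
      obtain ⟨A', hA', hAA⟩ := h3 A hA
      obtain ⟨B', hB', hBB⟩ := h3 B hB
      obtain ⟨C, hC, hCC⟩ := hIr A' hA' B' hB'
      refine ⟨⟨C, hC⟩, LinearMap.ext fun u => Subtype.ext ?_⟩
      rw [hr, LinearMap.sub_apply, Submodule.coe_sub, End.mul_apply, End.mul_apply, hAA, hBB, hBB,
        hAA]
      exact hCC u u.2
    exact h4
  let ρ : End ℂ U →ₗ[ℂ] End ℂ R := q.comp g
  have hρ : ∀ C : I, ρ (r C) = q C := fun C => by
    change q (g (r C)) = _
    rw [hg']
  let T : Set (End ℂ U × End ℂ R) :=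
    {p | ∃ D ∈ S, (∀ u : U, ((p.1 u : U) : V) = D u) ∧ ∀ u : R, ((p.2 u : R) : V) = D u}
  have hT0 : S.Nonempty := by
    by_contra hcon
    rw [Set.not_nonempty_iff_eq_empty] at hcon
    have h4 : L ≤ ⊥ := by
      refine hgen ⊥ (fun D hD => ?_) (fun A hA B hB => ?_)
      · rw [hcon] at hD
        exact absurd hD (Set.notMem_empty D)
      · rw [Submodule.mem_bot] at hA hB ⊢
        rw [hA, hB, mul_zero, sub_zero]
    have h5 : N = 0 := (Submodule.mem_bot ℂ).1 (h4 hN)
    rw [h5, Submodule.map_zero, finrank_bot] at hN1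
    exact zero_ne_one hN1
  have hzero := hC U R β ρ T h1 h2
    (by
      intro A B hA hB
      obtain ⟨C, rfl⟩ := key A hA
      obtain ⟨C', rfl⟩ := key B hB
      have h4 : r C * r C' - r C' * r C =
          r ⟨(C : End ℂ V) * C' - C' * C, hIi C (hIL C.2) C' C'.2⟩ := rfl
      rw [h4, hρ, hρ, hρ]
      rfl)
    (by
      obtain ⟨D, hD⟩ := hT0
      exact ⟨(D.restrict (hUst D (hSL D hD)), D.restrict (hR D (hSL D hD))), D, hD,
        fun u => rfl, fun u => rfl⟩)
    (by
      rintro ⟨p, p'⟩ ⟨D, hD, hp, hp'⟩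
      have hp : ∀ u : U, ((p u : U) : V) = D u := hp
      have hp' : ∀ u : R, ((p' u : R) : V) = D u := hp'
      refine ⟨LinearMap.ext fun u => Subtype.ext ?_, LinearMap.ext fun u => Subtype.ext ?_,
        fun u v => ?_, fun A hA => ?_⟩
      · rw [End.mul_apply, hp, hp, ← End.mul_apply, hsq D hD]
        rfl
      · rw [End.mul_apply, hp', hp', ← End.mul_apply, hsq D hD]
        rfl
      · rw [hβ, hβ, hp, hp]
        exact hb D (hSL D hD) u u.2 v v.2
      · obtain ⟨C, rfl⟩ := key A hA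
        have h4 : p * r C - r C * p = r ⟨D * C - C * D, hIi D (hSL D hD) C C.2⟩ := by
          refine LinearMap.ext fun u => Subtype.ext ?_
          rw [LinearMap.sub_apply, Submodule.coe_sub, End.mul_apply, End.mul_apply, hp, hr, hr, hr,
            hp]
          rfl
        change p' * ρ (r C) - ρ (r C) * p' = ρ (p * r C - r C * p)
        rw [h4, hρ, hρ]
        refine LinearMap.ext fun u => Subtype.ext ?_
        rw [LinearMap.sub_apply, Submodule.coe_sub, End.mul_apply, End.mul_apply, hp', hq, hq, hq,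
          hp']
        rfl)
    (by
      intro f hf
      obtain ⟨F, hF⟩ := LinearMap.exists_extend f
      have hF' : ∀ u : U, F u = f u := fun u => LinearMap.congr_fun hF u
      have h4 := hUR (R.subtype.comp F) (fun D hD u hu => by
          have h5 := hf (D.restrict (hUst D (hSL D hD)), D.restrict (hR D (hSL D hD)))
            ⟨D, hD, fun u => rfl, fun u => rfl⟩ ⟨u, hu⟩
          have h6 := congrArg Subtype.val h5
          change ((F (D u) : R) : V) = D (F u : R)
          have h7 : F (D u) = f (D.restrict (hUst D (hSL D hD)) ⟨u, hu⟩) :=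
            hF' (D.restrict (hUst D (hSL D hD)) ⟨u, hu⟩)
          have h8 : F u = f ⟨u, hu⟩ := hF' ⟨u, hu⟩
          rw [h7, h8]
          exact h6)
        (fun u hu => (F u).2)
      refine LinearMap.ext fun u => Subtype.ext ?_
      rw [← hF']
      exact h4 u u.2)
  refine ⟨fun u hu => h1 ⟨u, hu⟩, fun u hu hv => ?_, fun A hAU hAb => ?_⟩
  · have h4 := h2 ⟨u, hu⟩ fun v => hv v v.2
    exact congrArg Subtype.val h4
  have hAs : Skw β (A.restrict hAU) := fun u v => hAb u u.2 v v.2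
  obtain ⟨C, hCA⟩ := key _ hAs
  refine ⟨C, hIL C.2, fun u hu => ?_, fun x hx => ?_⟩
  · have h4 := congrArg Subtype.val (LinearMap.congr_fun hCA ⟨u, hu⟩)
    exact h4
  · have h4 := hzero _ hAs
    rw [← hCA, hρ] at h4
    have h5 := congrArg Subtype.val (LinearMap.congr_fun h4 ⟨x, hx⟩)
    exact h5

theorem exists_elt (hA : S_A) (hB : S_B) (hC : S_C) [FiniteDimensional ℂ V]
    {S : Set (End ℂ V)} {L : Submodule ℂ (End ℂ V)}
    (hsq : ∀ D ∈ S, D * D = 1) (hSL : ∀ D ∈ S, D ∈ L) (hbr : Br L)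
    (hgen : ∀ L' : Submodule ℂ (End ℂ V), (∀ D ∈ S, D ∈ L') → Br L' → L ≤ L')
    (hcr : CR L) {U : Submodule ℂ V} (hUst : Stb L U)
    (hUirr : ∀ W ≤ U, Stb L W → W = ⊥ ∨ W = U)
    {b : V →ₗ[ℂ] V →ₗ[ℂ] ℂ} (hb : ∀ A ∈ L, ∀ u ∈ U, ∀ v ∈ U, b (A u) v + b u (A v) = 0)
    (hb0 : ∃ u ∈ U, ∃ v ∈ U, b u v ≠ 0) {N : End ℂ V} (hN : N ∈ L)
    (hN1 : finrank ℂ (U.map N) = 1) {R : Submodule ℂ V} (hR : Stb L R)
    (hUR : ∀ f : V →ₗ[ℂ] V, (∀ D ∈ S, ∀ u ∈ U, f (D u) = D (f u)) → (∀ u ∈ U, f u ∈ R) →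
      ∀ u ∈ U, f u = 0)
    {A : End ℂ V} (hAU : ∀ u ∈ U, A u ∈ U)
    (hAb : ∀ u ∈ U, ∀ v ∈ U, b (A u) v + b u (A v) = 0) :
    ∃ C ∈ L, (∀ u ∈ U, C u = A u) ∧ ∀ r ∈ R, C r = 0 :=
  (exists_elt' hA hB hC hsq hSL hbr hgen hcr hUst hUirr hb hb0 hN hN1 hR hUR).2.2 A hAU hAb

end main

end Pool.Agent.N183.U8
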