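import Mathlib
import Pool.Agent.N183.U8.D1

/-!
# Elements of the double commutant which belong to the Lie algebra
-/

set_option autoImplicit false
set_option linter.unusedSectionVars false
set_option linter.unusedVariables false

namespace Pool.Agent.N183.U8

open Module

variable {V : Type} [AddCommGroup V] [Module ℂ V]

/-- Irreducible submodules. -/
def IrE (L : Submodule ℂ (End ℂ V)) (U : Submodule ℂ V) : Prop :=
  U ≠ ⊥ ∧ Stb L U ∧ ∀ W ≤ U, Stb L W → W = ⊥ ∨ W = U

/-- There is no homomorphism. -/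
def NoHom (S : Set (End ℂ V)) (U R : Submodule ℂ V) : Prop :=
  ∀ f : V →ₗ[ℂ] V, (∀ D ∈ S, ∀ u ∈ U, f (D u) = D (f u)) → (∀ u ∈ U, f u ∈ R) → ∀ u ∈ U, f u = 0

theorem Stb.sup {L : Submodule ℂ (End ℂ V)} {U U' : Submodule ℂ V} (h : Stb L U)
    (h' : Stb L U') : Stb L (U ⊔ U') := by
  intro X hX u hu
  obtain ⟨a, ha, b, hb, rfl⟩ := Submodule.mem_sup.1 hu
  rw [map_add]
  exact Submodule.add_mem_sup (h X hX a ha) (h' X hX b hb)

theorem Stb.inf {L : Submodule ℂ (End ℂ V)} {U U' : Submodule ℂ V} (h : Stb L U)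
    (h' : Stb L U') : Stb L (U ⊓ U') := fun X hX u hu => ⟨h X hX u hu.1, h' X hX u hu.2⟩

theorem Stb.bot {L : Submodule ℂ (End ℂ V)} : Stb L (⊥ : Submodule ℂ V) := by
  intro X _ u hu
  rw [Submodule.mem_bot] at hu ⊢
  rw [hu, map_zero]

/-- Equivariant projections. -/
theorem exists_proj {L : Submodule ℂ (End ℂ V)} {U Q : Submodule ℂ V} (hU : Stb L U)
    (hQ : Stb L Q) (h : IsCompl U Q) : ∃ π : V →ₗ[ℂ] V, (∀ v, π v ∈ U) ∧ (∀ u ∈ U, π u = u) ∧
      (∀ v ∈ Q, π v = 0) ∧ ∀ X ∈ L, ∀ v, π (X v) = X (π v) := by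
  refine ⟨U.subtype.comp (U.projectionOnto Q h), fun v => Submodule.coe_mem _,
    fun u hu => ?_, fun v hv => ?_, fun X hX v => ?_⟩
  · change ((U.projectionOnto Q h u : U) : V) = u
    rw [Submodule.projectionOnto_apply_left h ⟨u, hu⟩]
  · change ((U.projectionOnto Q h v : U) : V) = 0
    rw [Submodule.projectionOnto_apply_right h ⟨v, hv⟩]
    rfl
  · have hv : v ∈ U ⊔ Q := by rw [h.sup_eq_top]; trivial
    obtain ⟨a, ha, b, hb, rfl⟩ := Submodule.mem_sup.1 hv
    change ((U.projectionOnto Q h (X (a + b)) : U) : V) =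
      X ((U.projectionOnto Q h (a + b) : U) : V)
    rw [map_add, map_add, map_add,
      Submodule.projectionOnto_apply_left h ⟨X a, hU X hX a ha⟩,
      Submodule.projectionOnto_apply_right h ⟨X b, hQ X hX b hb⟩,
      Submodule.projectionOnto_apply_left h ⟨a, ha⟩,
      Submodule.projectionOnto_apply_right h ⟨b, hb⟩, add_zero, add_zero]

/-- Each nonzero stable subspace contains an irreducible one. -/
theorem exists_irE [FiniteDimensional ℂ V] {L : Submodule ℂ (End ℂ V)} (n : ℕ) :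
    ∀ W : Submodule ℂ V, finrank ℂ W = n → W ≠ ⊥ → Stb L W → ∃ U ≤ W, IrE L U := by
  induction n using Nat.strong_induction_on with
  | _ n ih =>
    intro W hn hW hs
    by_cases h : ∀ W' ≤ W, Stb L W' → W' = ⊥ ∨ W' = W
    · exact ⟨W, le_rfl, hW, hs, h⟩
    · push Not at h
      obtain ⟨W', hle, hs', h0, h1⟩ := h
      obtain ⟨U, hU, hU'⟩ := ih (finrank ℂ W') (by
        rw [← hn]
        exact Submodule.finrank_lt_finrank_of_lt (lt_of_le_of_ne hle h1)) W' rfl h0 hs'
      exact ⟨U, hU.trans hle, hU'⟩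

section main

variable [FiniteDimensional ℂ V] {S : Set (End ℂ V)} {L : Submodule ℂ (End ℂ V)}
  (hSL : ∀ D ∈ S, D ∈ L)
  (hgen : ∀ L' : Submodule ℂ (End ℂ V), (∀ D ∈ S, D ∈ L') → Br L' → L ≤ L') (hcr : CR L)
include hSL hcr

/-- No homomorphisms to a sum. -/
theorem noHom_sup {U R W : Submodule ℂ V} (hU : Stb L U) (hR : Stb L R) (hW : IrE L W)
    (h1 : NoHom S U R) (h2 : NoHom S U W) : NoHom S U (R ⊔ W) := by
  by_cases hWR : W ≤ R
  · rwa [sup_eq_left.2 hWR]
  have hWR' : W ⊓ R = ⊥ := by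
    rcases hW.2.2 (W ⊓ R) inf_le_left (hW.2.1.inf hR) with h | h
    · exact h
    · exact absurd (h ▸ inf_le_right) hWR
  obtain ⟨Q, hQ, hQc⟩ := hcr (R ⊔ W) (hR.sup hW.2.1)
  have hd : Disjoint (R ⊔ W) Q := hQc.disjoint
  have ht : (R ⊔ W) ⊔ Q = ⊤ := hQc.sup_eq_top
  have hc1 : IsCompl R (W ⊔ Q) := by
    constructor
    · rw [Submodule.disjoint_def]
      intro x hx hx'
      obtain ⟨w, hw, q, hq, hwq⟩ := Submodule.mem_sup.1 hx'
      have h3 : q = x - w := by rw [← hwq, add_sub_cancel_left]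
      have h4 : q ∈ R ⊔ W := by
        rw [h3]
        exact Submodule.sub_mem _ (Submodule.mem_sup_left hx) (Submodule.mem_sup_right hw)
      have h5 : q = 0 := (Submodule.disjoint_def.1 hd) q h4 hq
      have h6 : x = w := by rw [← hwq, h5, add_zero]
      have h7 : x ∈ W ⊓ R := ⟨h6 ▸ hw, hx⟩
      rwa [hWR', Submodule.mem_bot] at h7
    · rw [codisjoint_iff, ← sup_assoc, ht]
  have hc2 : IsCompl W (R ⊔ Q) := by
    constructor
    · rw [Submodule.disjoint_def]
      intro x hx hx'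
      obtain ⟨w, hw, q, hq, hwq⟩ := Submodule.mem_sup.1 hx'
      have h3 : q = x - w := by rw [← hwq, add_sub_cancel_left]
      have h4 : q ∈ R ⊔ W := by
        rw [h3]
        exact Submodule.sub_mem _ (Submodule.mem_sup_right hx) (Submodule.mem_sup_left hw)
      have h5 : q = 0 := (Submodule.disjoint_def.1 hd) q h4 hq
      have h6 : x = w := by rw [← hwq, h5, add_zero]
      have h7 : x ∈ W ⊓ R := ⟨hx, h6 ▸ hw⟩
      rwa [hWR', Submodule.mem_bot] at h7
    · rw [codisjoint_iff, ← sup_assoc, sup_comm W R, ht]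
  obtain ⟨π, hπ1, hπ2, hπ3, hπ4⟩ := exists_proj hR (hW.2.1.sup hQ) hc1
  obtain ⟨π', hπ1', hπ2', hπ3', hπ4'⟩ := exists_proj hW.2.1 (hR.sup hQ) hc2
  intro f hf hfu u hu
  have e1 := h1 (π.comp f) (fun D hD u hu => by
    rw [LinearMap.comp_apply, LinearMap.comp_apply, hf D hD u hu, hπ4 D (hSL D hD)])
    (fun u _ => hπ1 _) u hu
  have e2 := h2 (π'.comp f) (fun D hD u hu => by
    rw [LinearMap.comp_apply, LinearMap.comp_apply, hf D hD u hu, hπ4' D (hSL D hD)])
    (fun u _ => hπ1' _) u hu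
  obtain ⟨r, hr, w, hw, hrw⟩ := Submodule.mem_sup.1 (hfu u hu)
  rw [LinearMap.comp_apply, ← hrw, map_add, hπ2 r hr, hπ3 w (Submodule.mem_sup_left hw),
    add_zero] at e1
  rw [LinearMap.comp_apply, ← hrw, map_add, hπ2' w hw, hπ3' r (Submodule.mem_sup_left hr),
    zero_add] at e2
  rw [← hrw, e1, e2, add_zero]

/-- The sum of the other constituents. -/
theorem exists_rest {U : Submodule ℂ V} (hU : Stb L U) : ∃ R : Submodule ℂ V, Stb L R ∧
    NoHom S U R ∧ ∀ W, IrE L W → NoHom S U W → W ≤ R := by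
  classical
  have hne : ∃ n : ℕ, ∃ R : Submodule ℂ V, Stb L R ∧ NoHom S U R ∧ finrank ℂ V - finrank ℂ R = n :=
    ⟨_, ⊥, Stb.bot, fun f _ hf u hu => by simpa using hf u hu, rfl⟩
  obtain ⟨R, hR, hUR, hn⟩ := Nat.find_spec hne
  refine ⟨R, hR, hUR, fun W hW hUW => ?_⟩
  by_contra hcon
  have h1 : R < R ⊔ W := lt_of_le_of_ne le_sup_left fun h => hcon (h ▸ le_sup_right)
  have h2 := Submodule.finrank_lt_finrank_of_lt h1
  have h3 := Submodule.finrank_le (R ⊔ W)
  have h4 := Nat.find_min' hne ⟨R ⊔ W, hR.sup hW.2.1, noHom_sup hSL hcr hU hR hW hUR hUW, rfl⟩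
  omega

omit [FiniteDimensional ℂ V] hSL hcr in
include hgen in
/-- The commutant of the generators. -/
theorem comm_L {P : End ℂ V} (hP : ∀ D ∈ S, P * D = D * P) : ∀ X ∈ L, P * X = X * P := by
  let L' : Submodule ℂ (End ℂ V) :=
    { carrier := {X | P * X = X * P}
      add_mem' := fun {x y} (hx : P * x = x * P) (hy : P * y = y * P) => by
        change P * (x + y) = (x + y) * P
        rw [mul_add, add_mul, hx, hy]
      zero_mem' := by
        change P * 0 = 0 * P
        rw [mul_zero, zero_mul]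
      smul_mem' := fun c x (hx : P * x = x * P) => by
        change P * (c • x) = (c • x) * P
        rw [mul_smul_comm, smul_mul_assoc, hx] }
  have h1 : L ≤ L' := by
    refine hgen L' hP fun X hX Y hY => ?_
    have hX : P * X = X * P := hX
    have hY : P * Y = Y * P := hY
    change P * (X * Y - Y * X) = (X * Y - Y * X) * P
    rw [mul_sub, sub_mul, ← mul_assoc, hX, mul_assoc, hY, ← mul_assoc, ← mul_assoc P Y X, hY,
      mul_assoc Y P X, hX, ← mul_assoc]
  exact fun X hX => h1 hX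

/-- Projections to stable subspaces. -/
theorem exists_pr {U : Submodule ℂ V} (hU : Stb L U) : ∃ π : V →ₗ[ℂ] V, (∀ v, π v ∈ U) ∧
    (∀ u ∈ U, π u = u) ∧ ∀ X ∈ L, ∀ v, π (X v) = X (π v) := by
  obtain ⟨Q, hQ, hQc⟩ := hcr U hU
  obtain ⟨π, h1, h2, -, h3⟩ := exists_proj hU hQ hQc
  exact ⟨π, h1, h2, h3⟩

/-- Elements of the double commutant preserve the stable subspaces. -/
theorem stab_of_comm {A : End ℂ V} (hAc : ∀ P : End ℂ V, (∀ D ∈ S, P * D = D * P) → P * A = A * P)
    {U : Submodule ℂ V} (hU : Stb L U) : ∀ u ∈ U, A u ∈ U := by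
  intro u hu
  obtain ⟨π, h1, h2, h3⟩ := exists_pr hSL hcr hU
  have h4 := hAc π fun D hD => LinearMap.ext fun v => h3 D (hSL D hD) v
  have h5 := LinearMap.congr_fun h4 u
  rw [End.mul_apply, End.mul_apply, h2 u hu] at h5
  rw [← h5]
  exact h1 _

include hgen in
/-- Elements of the double commutant and isomorphic submodules. -/
theorem iso_zero {Y : End ℂ V} (hY : ∀ P : End ℂ V, (∀ D ∈ S, P * D = D * P) → P * Y = Y * P)
    {U W : Submodule ℂ V} (hU : IrE L U) (hW : IrE L W) (hUW : ¬ NoHom S U W) :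
    ((∀ u ∈ U, Y u = 0) → ∀ w ∈ W, Y w = 0) ∧
      ((∀ w ∈ W, Y w = 0) → (∀ u ∈ U, Y u ∈ U) → ∀ u ∈ U, Y u = 0) := by
  unfold NoHom at hUW
  push Not at hUW
  obtain ⟨f, hf, hfW, u0, hu0, hfu0⟩ := hUW
  obtain ⟨π, h1, h2, h3⟩ := exists_pr hSL hcr hU.2.1
  have hfL : ∀ X ∈ L, ∀ u ∈ U, f (X u) = X (f u) := by
    let L' : Submodule ℂ (End ℂ V) :=
      { carrier := {X | ∀ u ∈ U, X u ∈ U ∧ f (X u) = X (f u)}
        add_mem' := fun {x y} hx hy u hu => ⟨U.add_mem (hx u hu).1 (hy u hu).1, by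
          rw [LinearMap.add_apply, map_add, (hx u hu).2, (hy u hu).2, LinearMap.add_apply]⟩
        zero_mem' := fun u hu => ⟨U.zero_mem, by
          rw [LinearMap.zero_apply, LinearMap.zero_apply, map_zero]⟩
        smul_mem' := fun c x hx u hu => ⟨U.smul_mem c (hx u hu).1, by
          rw [LinearMap.smul_apply, map_smul, (hx u hu).2, LinearMap.smul_apply]⟩ }
    have h4 : L ≤ L' := by
      refine hgen L' (fun D hD u hu => ⟨hU.2.1 D (hSL D hD) u hu, hf D hD u hu⟩)
        fun X hX Y hY u hu => ?_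
      have e1 := hX u hu
      have e2 := hY u hu
      have e3 := hX _ e2.1
      have e4 := hY _ e1.1
      refine ⟨U.sub_mem e3.1 e4.1, ?_⟩
      rw [LinearMap.sub_apply, map_sub, End.mul_apply, End.mul_apply, e3.2, e4.2, e1.2, e2.2]
      rfl
    exact fun X hX u hu => (h4 hX u hu).2
  have hP := hY (f.comp π) fun D hD => LinearMap.ext fun v => by
    rw [End.mul_apply, End.mul_apply, LinearMap.comp_apply, LinearMap.comp_apply,
      h3 D (hSL D hD), hf D hD _ (h1 _)]
  have hP' : ∀ u ∈ U, Y (f u) = f (π (Y u)) := fun u hu => by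
    have h5 := LinearMap.congr_fun hP u
    rw [End.mul_apply, End.mul_apply, LinearMap.comp_apply, LinearMap.comp_apply, h2 u hu] at h5
    exact h5.symm
  -- the kernel and the image
  have hinj : ∀ u ∈ U, f u = 0 → u = 0 := by
    have h4 : Stb L (U ⊓ LinearMap.ker f) := by
      intro X hX u hu
      refine ⟨hU.2.1 X hX u hu.1, ?_⟩
      change f (X u) = 0
      rw [hfL X hX u hu.1, show f u = 0 from hu.2, map_zero]
    rcases hU.2.2 _ inf_le_left h4 with h5 | h5
    · intro u hu hfu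
      have h6 : u ∈ U ⊓ LinearMap.ker f := ⟨hu, hfu⟩
      rwa [h5, Submodule.mem_bot] at h6
    · exfalso
      apply hfu0
      have h6 : u0 ∈ U ⊓ LinearMap.ker f := by rw [h5]; exact hu0
      exact h6.2
  have hsur : U.map f = W := by
    have h4 : Stb L (U.map f) := by
      rintro X hX _ ⟨u, hu, rfl⟩
      exact ⟨X u, hU.2.1 X hX u hu, hfL X hX u hu⟩
    rcases hW.2.2 (U.map f) (by rintro _ ⟨u, hu, rfl⟩; exact hfW u hu) h4 with h5 | h5
    · exfalso
      apply hfu0
      have h6 : f u0 ∈ U.map f := ⟨u0, hu0, rfl⟩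
      rwa [h5, Submodule.mem_bot] at h6
    · exact h5
  constructor
  · intro h4 w hw
    rw [← hsur] at hw
    obtain ⟨u, hu, rfl⟩ := hw
    rw [hP' u hu, h4 u hu, map_zero, map_zero]
  · intro h4 h5 u hu
    refine hinj _ (h5 u hu) ?_
    rw [← h2 (Y u) (h5 u hu), ← hP' u hu]
    exact h4 _ (hfW u hu)

include hgen in
theorem main_mem (hA : S_A) (hB : S_B) (hC : S_C) (hsq : ∀ D ∈ S, D * D = 1) (hbr : Br L)
    {A : End ℂ V} (hAc : ∀ P : End ℂ V, (∀ D ∈ S, P * D = D * P) → P * A = A * P)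
    (hgood : ∀ U, IrE L U → (∃ u ∈ U, A u ≠ 0) → ∃ b : V →ₗ[ℂ] V →ₗ[ℂ] ℂ,
      (∀ X ∈ L, ∀ u ∈ U, ∀ v ∈ U, b (X u) v + b u (X v) = 0) ∧ (∃ u ∈ U, ∃ v ∈ U, b u v ≠ 0) ∧
      (∃ N ∈ L, finrank ℂ (U.map N) = 1) ∧
      ∀ u ∈ U, ∀ v ∈ U, b (A u) v + b u (A v) = 0) : A ∈ L := by
  classical
  have hcomm := fun P hP => comm_L (L := L) hgen (P := P) hP
  have hAst := fun U hU => stab_of_comm hSL hcr hAc (U := U) hU
  have hiso := fun Y hY U W hU hW hUW => iso_zero hSL hgen hcr (Y := Y) hY (U := U) (W := W) hU hW hUW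
  -- induction
  have key : ∀ (n : ℕ) (C : End ℂ V), C ∈ L →
      (∀ W, IrE L W → (∀ w ∈ W, C w = A w) ∨ ∀ w ∈ W, C w = 0) →
      finrank ℂ V - finrank ℂ (sSup {W : Submodule ℂ V | IrE L W ∧ ∀ w ∈ W, C w = A w} :
        Submodule ℂ V) = n → A ∈ L := by
    intro n
    induction n using Nat.strong_induction_on with
    | _ n ih =>
      intro C hCL hCW hn
      set K : Submodule ℂ V := sSup {W : Submodule ℂ V | IrE L W ∧ ∀ w ∈ W, C w = A w} with hK
      have hKst : Stb L K := by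
        intro X hX
        change K ≤ K.comap X
        refine sSup_le fun W hW x hx => ?_
        exact (le_sSup hW : W ≤ K) (hW.1.2.1 X hX x hx)
      have hKA : ∀ v ∈ K, C v = A v := by
        have h1 : K ≤ LinearMap.ker (C - A) := by
          refine sSup_le fun W hW x hx => ?_
          rw [LinearMap.mem_ker, LinearMap.sub_apply, hW.2 x hx, sub_self]
        intro v hv
        have h2 := LinearMap.mem_ker.1 (h1 hv)
        rwa [LinearMap.sub_apply, sub_eq_zero] at h2
      by_cases hKt : K = ⊤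
      · have h1 : C = A := LinearMap.ext fun v => hKA v (by rw [hKt]; trivial)
        rwa [← h1]
      obtain ⟨Q, hQ, hQc⟩ := hcr K hKst
      have hQ0 : Q ≠ ⊥ := by
        rintro rfl
        apply hKt
        have h1 := hQc.sup_eq_top
        rwa [sup_bot_eq] at h1
      obtain ⟨U, hUQ, hU⟩ := exists_irE _ Q rfl hQ0 hQ
      have hUK : ¬ ∀ u ∈ U, C u = A u := by
        intro h1
        have h2 : U ≤ K := le_sSup ⟨hU, h1⟩
        apply hU.1
        rw [eq_bot_iff, ← hQc.inf_eq_bot]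
        exact le_inf h2 hUQ
      have hCU : ∀ u ∈ U, C u = 0 := (hCW U hU).resolve_left hUK
      have hAU : ∃ u ∈ U, A u ≠ 0 := by
        by_contra hcon
        push Not at hcon
        exact hUK fun u hu => by rw [hCU u hu, hcon u hu]
      obtain ⟨b, hb1, hb2, ⟨N, hN, hN1⟩, hb3⟩ := hgood U hU hAU
      obtain ⟨R, hR, hUR, hRW⟩ := exists_rest (S := S) hSL hcr hU.2.1
      obtain ⟨C', hC'L, hC'U, hC'R⟩ := exists_elt hA hB hC hsq hSL hbr hgen hcr hU.2.1 hU.2.2
        hb1 hb2 hN hN1 hR hUR (hAst U hU.2.1) hb3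
      have hYc : ∀ Y : End ℂ V, Y ∈ L → ∀ P : End ℂ V, (∀ D ∈ S, P * D = D * P) →
          P * Y = Y * P := fun Y hY P hP => hcomm P hP Y hY
      have hnew : ∀ W, IrE L W → ¬ NoHom S U W → ∀ w ∈ W, (C + C') w = A w := by
        intro W hW hUW w hw
        have h1 := (hiso (C + C' - A) (fun P hP => by
          rw [mul_sub, sub_mul, hYc _ (L.add_mem hCL hC'L) P hP, hAc P hP]) U W hU hW hUW).1
            (fun u hu => by
              rw [LinearMap.sub_apply, LinearMap.add_apply, hCU u hu, hC'U u hu, zero_add,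
                sub_self]) w hw
        rwa [LinearMap.sub_apply, sub_eq_zero] at h1
      have hold : ∀ W, IrE L W → NoHom S U W → ∀ w ∈ W, (C + C') w = C w := by
        intro W hW hUW w hw
        rw [LinearMap.add_apply, hC'R w (hRW W hW hUW hw), add_zero]
      refine ih _ ?_ (C + C') (L.add_mem hCL hC'L) (fun W hW => ?_) rfl
      · rw [← hn]
        have h1 : K < (sSup {W : Submodule ℂ V | IrE L W ∧ ∀ w ∈ W, (C + C') w = A w} :
            Submodule ℂ V) := by
          refine lt_of_le_of_ne (sSup_le fun W hW => le_sSup ⟨hW.1, fun w hw => ?_⟩) fun h2 => ?_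
          · by_cases hUW : NoHom S U W
            · rw [hold W hW.1 hUW w hw, hW.2 w hw]
            · exact hnew W hW.1 hUW w hw
          · apply hUK
            have h3 : U ≤ K := by
              rw [h2]
              refine le_sSup ⟨hU, fun u hu => ?_⟩
              rw [LinearMap.add_apply, hCU u hu, hC'U u hu, zero_add]
            exact fun u hu => hKA u (h3 hu)
        have h2 := Submodule.finrank_lt_finrank_of_lt h1
        have h3 := Submodule.finrank_le (sSup {W : Submodule ℂ V | IrE L W ∧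
          ∀ w ∈ W, (C + C') w = A w} : Submodule ℂ V)
        omega
      · by_cases hUW : NoHom S U W
        · rcases hCW W hW with h1 | h1
          · exact Or.inl fun w hw => by rw [hold W hW hUW w hw, h1 w hw]
          · exact Or.inr fun w hw => by rw [hold W hW hUW w hw, h1 w hw]
        · exact Or.inl (hnew W hW hUW)
  exact key _ 0 L.zero_mem (fun W _ => Or.inr fun w _ => rfl) rfl

end main

end Pool.Agent.N183.U8
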