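import Mathlib

/-!
# Project GS (helper183, MP_09799c_ag): the symplectic group is generated by transvections. Statement.
-/

set_option autoImplicit false

namespace Pool.Agent.N183.U8

open Module

/-- (G) The symplectic group is generated by the transvections. -/
def S_G : Prop := ∀ (U : Type) [AddCommGroup U] [Module ℂ U] [FiniteDimensional ℂ U]
  (β : U →ₗ[ℂ] U →ₗ[ℂ] ℂ), (∀ u, β u u = 0) → (∀ u, (∀ v, β u v = 0) → u = 0) →
  ∀ g : End ℂ U, (∀ u v, β (g u) (g v) = β u v) →
    g ∈ Submonoid.closure {h : End ℂ U | ∃ x : U, ∀ v, h v = v + β x v • x}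

/-- (H) A multilinear form which is killed by a square zero operator `C` is invariant under
`1 + C`. -/
def S_H : Prop := ∀ (V : Type) [AddCommGroup V] [Module ℂ V] (κ : Type) [Fintype κ]
  [DecidableEq κ] (φ : MultilinearMap ℂ (fun _ : κ => V) ℂ) (C : End ℂ V), C * C = 0 →
  (∀ v : κ → V, ∑ k, φ (Function.update v k (C (v k))) = 0) →
  ∀ v : κ → V, φ (fun k => v k + C (v k)) = φ v

end Pool.Agent.N183.U8
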