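import Mathlib
import Pool.Agent.N183.U8.D2
import Pool.Agent.N183.U8.StmG

/-!
# Elements of the double commutant which belong to the group generated by the square zero elements
-/

set_option autoImplicit false
set_option linter.unusedSectionVars false
set_option linter.unusedVariables false

namespace Pool.Agent.N183.U8

open Module

variable {V : Type} [AddCommGroup V] [Module ℂ V]

/-- The group generated by the exponentials of the square zero elements of `L`. -/
def ML (L : Submodule ℂ (End ℂ V)) : Submonoid (End ℂ V) :=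
  Submonoid.closure {h | ∃ C ∈ L, C * C = 0 ∧ h = 1 + C}

section main

variable [FiniteDimensional ℂ V] {S : Set (End ℂ V)} {L : Submodule ℂ (End ℂ V)}
  (hSL : ∀ D ∈ S, D ∈ L)
  (hgen : ∀ L' : Submodule ℂ (End ℂ V), (∀ D ∈ S, D ∈ L') → Br L' → L ≤ L') (hcr : CR L)
include hSL hcr

/-- An operator which vanishes on the irreducible submodules is zero. -/
theorem zero_of_irr {Y : End ℂ V} (hY : ∀ W, IrE L W → ∀ w ∈ W, Y w = 0) : Y = 0 := by
  set K : Submodule ℂ V := sSup {W : Submodule ℂ V | IrE L W} with hK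
  have hKst : Stb L K := by
    intro X hX
    change K ≤ K.comap X
    refine sSup_le fun W hW x hx => ?_
    exact (le_sSup hW : W ≤ K) (hW.2.1 X hX x hx)
  have hKY : K ≤ LinearMap.ker Y := sSup_le fun W hW x hx => hY W hW x hx
  have hKt : K = ⊤ := by
    by_contra hKt
    obtain ⟨Q, hQ, hQc⟩ := hcr K hKst
    have hQ0 : Q ≠ ⊥ := by
      rintro rfl
      apply hKt
      have h1 := hQc.sup_eq_top
      rwa [sup_bot_eq] at h1
    obtain ⟨U, hUQ, hU⟩ := exists_irE _ Q rfl hQ0 hQ
    apply hU.1
    rw [eq_bot_iff, ← hQc.inf_eq_bot]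
    exact le_inf (le_sSup hU) hUQ
  refine LinearMap.ext fun v => ?_
  have h1 : v ∈ K := by rw [hKt]; trivial
  exact hKY h1

include hgen

/-- Elements of the group commute with the commutant. -/
theorem comm_ML {P : End ℂ V} (hP : ∀ D ∈ S, P * D = D * P) : ∀ h ∈ ML L, P * h = h * P := by
  intro h hh
  unfold ML at hh
  induction hh using Submonoid.closure_induction with
  | mem x hx =>
    obtain ⟨C, hC, -, rfl⟩ := hx
    rw [mul_add, add_mul, mul_one, one_mul, comm_L hgen hP C hC]
  | one => rw [mul_one, one_mul]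
  | mul a b _ _ ha hb => rw [← mul_assoc, ha, mul_assoc, hb, mul_assoc]

theorem main_grp (hA : S_A) (hB : S_B) (hC : S_C) (hG : S_G) (hsq : ∀ D ∈ S, D * D = 1)
    (hbr : Br L) {g : End ℂ V}
    (hgc : ∀ P : End ℂ V, (∀ D ∈ S, P * D = D * P) → P * g = g * P)
    (hgood : ∀ U, IrE L U → (∃ u ∈ U, g u ≠ u) → ∃ b : V →ₗ[ℂ] V →ₗ[ℂ] ℂ,
      (∀ X ∈ L, ∀ u ∈ U, ∀ v ∈ U, b (X u) v + b u (X v) = 0) ∧ (∃ u ∈ U, ∃ v ∈ U, b u v ≠ 0) ∧
      (∃ N ∈ L, finrank ℂ (U.map N) = 1) ∧
      ∀ u ∈ U, ∀ v ∈ U, b (g u) (g v) = b u v) : g ∈ ML L := by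
  classical
  have hgst := fun U hU => stab_of_comm hSL hcr hgc (U := U) hU
  have hiso := fun Y hY U W hU hW hUW => iso_zero hSL hgen hcr (Y := Y) hY (U := U) (W := W) hU hW hUW
  -- one constituent
  have hone : ∀ U R, IrE L U → Stb L R → NoHom S U R → (∀ W, IrE L W → NoHom S U W → W ≤ R) →
      (∃ u ∈ U, g u ≠ u) → ∃ h ∈ ML L, (∀ u ∈ U, h u = g u) ∧ ∀ r ∈ R, h r = r := by
    intro U R hU hR hUR hRW hgU
    obtain ⟨b, hb1, hb2, ⟨N, hN, hN1⟩, hb3⟩ := hgood U hU hgU
    obtain ⟨halt, hnd, hel⟩ := exists_elt' hA hB hC hsq hSL hbr hgen hcr hU.2.1 hU.2.2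
      hb1 hb2 hN hN1 hR hUR
    -- the transvections
    have htr : ∀ x ∈ U, ∃ C ∈ L, C * C = 0 ∧ (∀ u ∈ U, C u = b x u • x) ∧ ∀ r ∈ R, C r = 0 := by
      intro x hx
      obtain ⟨C, hCL, hCU, hCR⟩ := hel ((b x).smulRight x)
        (fun u hu => by
          rw [LinearMap.smulRight_apply]
          exact U.smul_mem _ hx)
        (fun u hu v hv => by
          rw [LinearMap.smulRight_apply, LinearMap.smulRight_apply, map_smul, map_smul,
            LinearMap.smul_apply, smul_eq_mul, smul_eq_mul]
          have h1 := halt (u + x) (U.add_mem hu hx)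
          rw [map_add, map_add, LinearMap.add_apply, LinearMap.add_apply, halt u hu,
            halt x hx] at h1
          linear_combination b x v * h1)
      refine ⟨C, hCL, ?_, hCU, hCR⟩
      refine zero_of_irr hSL hcr fun W hW w hw => ?_
      by_cases hUW : NoHom S U W
      · rw [End.mul_apply, hCR w (hRW W hW hUW hw), map_zero]
      · refine (hiso (C * C) (fun P hP => ?_) U W hU hW hUW).1 (fun u hu => ?_) w hw
        · rw [← mul_assoc, comm_L hgen hP C hCL, mul_assoc, comm_L hgen hP C hCL, mul_assoc]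
        · rw [End.mul_apply, hCU u hu, LinearMap.smulRight_apply, map_smul, hCU x hx,
            LinearMap.smulRight_apply, halt x hx, zero_smul, smul_zero]
    let β : U →ₗ[ℂ] U →ₗ[ℂ] ℂ := b.domRestrict₁₂ U U
    have hβ : ∀ u v : U, β u v = b u v := fun u v => rfl
    have h1 := hG U β (fun u => halt u u.2) (fun u hu => Subtype.ext (hnd u u.2 fun v hv =>
      hu ⟨v, hv⟩)) (g.restrict (hgst U hU.2.1)) (fun u v => hb3 u u.2 v v.2)
    have h2 : ∀ q ∈ Submonoid.closure {h : End ℂ U | ∃ x : U, ∀ v, h v = v + β x v • x},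
        ∃ h ∈ ML L, (∀ u : U, h u = (q u : V)) ∧ ∀ r ∈ R, h r = r := by
      intro q hq
      induction hq using Submonoid.closure_induction with
      | mem q hq =>
        obtain ⟨x, hx⟩ := hq
        obtain ⟨C, hCL, hCC, hCU, hCR⟩ := htr x x.2
        refine ⟨1 + C, Submonoid.subset_closure ⟨C, hCL, hCC, rfl⟩, fun u => ?_, fun r hr => ?_⟩
        · rw [LinearMap.add_apply, hCU u u.2, hx]
          rfl
        · rw [LinearMap.add_apply, hCR r hr, add_zero]
          rfl
      | one => exact ⟨1, Submonoid.one_mem _, fun u => rfl, fun r _ => rfl⟩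
      | mul a c _ _ ha hc =>
        obtain ⟨h, hh, h3, h4⟩ := ha
        obtain ⟨h', hh', h3', h4'⟩ := hc
        refine ⟨h * h', Submonoid.mul_mem _ hh hh', fun u => ?_, fun r hr => ?_⟩
        · rw [End.mul_apply, h3', h3]
          rfl
        · rw [End.mul_apply, h4' r hr, h4 r hr]
    obtain ⟨h, hh, h3, h4⟩ := h2 _ h1
    exact ⟨h, hh, fun u hu => h3 ⟨u, hu⟩, h4⟩
  -- induction
  have key : ∀ (n : ℕ) (h : End ℂ V), h ∈ ML L →
      (∀ W, IrE L W → (∀ w ∈ W, h w = g w) ∨ ∀ w ∈ W, h w = w) →
      finrank ℂ V - finrank ℂ (sSup {W : Submodule ℂ V | IrE L W ∧ ∀ w ∈ W, h w = g w} :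
        Submodule ℂ V) = n → g ∈ ML L := by
    intro n
    induction n using Nat.strong_induction_on with
    | _ n ih =>
      intro h hhL hhW hn
      set K : Submodule ℂ V := sSup {W : Submodule ℂ V | IrE L W ∧ ∀ w ∈ W, h w = g w} with hK
      have hKst : Stb L K := by
        intro X hX
        change K ≤ K.comap X
        refine sSup_le fun W hW x hx => ?_
        exact (le_sSup hW : W ≤ K) (hW.1.2.1 X hX x hx)
      have hKA : ∀ v ∈ K, h v = g v := by
        have h1 : K ≤ LinearMap.ker (h - g) := by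
          refine sSup_le fun W hW x hx => ?_
          rw [LinearMap.mem_ker, LinearMap.sub_apply, hW.2 x hx, sub_self]
        intro v hv
        have h2 := LinearMap.mem_ker.1 (h1 hv)
        rwa [LinearMap.sub_apply, sub_eq_zero] at h2
      by_cases hKt : K = ⊤
      · have h1 : h = g := LinearMap.ext fun v => hKA v (by rw [hKt]; trivial)
        rwa [← h1]
      obtain ⟨Q, hQ, hQc⟩ := hcr K hKst
      have hQ0 : Q ≠ ⊥ := by
        rintro rfl
        apply hKt
        have h1 := hQc.sup_eq_top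
        rwa [sup_bot_eq] at h1
      obtain ⟨U, hUQ, hU⟩ := exists_irE _ Q rfl hQ0 hQ
      have hUK : ¬ ∀ u ∈ U, h u = g u := by
        intro h1
        have h2 : U ≤ K := le_sSup ⟨hU, h1⟩
        apply hU.1
        rw [eq_bot_iff, ← hQc.inf_eq_bot]
        exact le_inf h2 hUQ
      have hCU : ∀ u ∈ U, h u = u := (hhW U hU).resolve_left hUK
      have hAU : ∃ u ∈ U, g u ≠ u := by
        by_contra hcon
        push Not at hcon
        exact hUK fun u hu => by rw [hCU u hu, hcon u hu]
      obtain ⟨R, hR, hUR, hRW⟩ := exists_rest (S := S) hSL hcr hU.2.1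
      obtain ⟨h', hh'L, hh'U, hh'R⟩ := hone U R hU hR hUR hRW hAU
      have hprod : ∀ u ∈ U, (h * h') u = g u := fun u hu => by
        rw [End.mul_apply, hh'U u hu, hCU _ (hgst U hU.2.1 u hu)]
      have hnew : ∀ W, IrE L W → ¬ NoHom S U W → ∀ w ∈ W, (h * h') w = g w := by
        intro W hW hUW w hw
        have h1 := (hiso (h * h' - g) (fun P hP => by
          rw [mul_sub, sub_mul, comm_ML hSL hgen hcr hP _ (Submonoid.mul_mem _ hhL hh'L),
            hgc P hP]) U W hU hW hUW).1
            (fun u hu => by rw [LinearMap.sub_apply, hprod u hu, sub_self]) w hw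
        rwa [LinearMap.sub_apply, sub_eq_zero] at h1
      have hold : ∀ W, IrE L W → NoHom S U W → ∀ w ∈ W, (h * h') w = h w := by
        intro W hW hUW w hw
        rw [End.mul_apply, hh'R w (hRW W hW hUW hw)]
      refine ih _ ?_ (h * h') (Submonoid.mul_mem _ hhL hh'L) (fun W hW => ?_) rfl
      · rw [← hn]
        have h1 : K < (sSup {W : Submodule ℂ V | IrE L W ∧ ∀ w ∈ W, (h * h') w = g w} :
            Submodule ℂ V) := by
          refine lt_of_le_of_ne (sSup_le fun W hW => le_sSup ⟨hW.1, fun w hw => ?_⟩) fun h2 => ?_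
          · by_cases hUW : NoHom S U W
            · rw [hold W hW.1 hUW w hw, hW.2 w hw]
            · exact hnew W hW.1 hUW w hw
          · apply hUK
            have h3 : U ≤ K := by
              rw [h2]
              exact le_sSup ⟨hU, hprod⟩
            exact fun u hu => hKA u (h3 hu)
        have h2 := Submodule.finrank_lt_finrank_of_lt h1
        have h3 := Submodule.finrank_le (sSup {W : Submodule ℂ V | IrE L W ∧
          ∀ w ∈ W, (h * h') w = g w} : Submodule ℂ V)
        omega
      · by_cases hUW : NoHom S U W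
        · rcases hhW W hW with h1 | h1
          · exact Or.inl fun w hw => by rw [hold W hW hUW w hw, h1 w hw]
          · exact Or.inr fun w hw => by rw [hold W hW hUW w hw, h1 w hw]
        · exact Or.inl (hnew W hW hUW)
  exact key _ 1 (Submonoid.one_mem _) (fun W _ => Or.inr fun w _ => rfl) rfl

end main

end Pool.Agent.N183.U8
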