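import Mathlib
import Pool.Agent.N183.U8.D3

/-!
# The special linear case, and the general form of the assembly
-/

set_option autoImplicit false
set_option linter.unusedSectionVars false
set_option linter.unusedVariables false

namespace Pool.Agent.N183.U8

open Module

variable {V : Type} [AddCommGroup V] [Module ℂ V]

section sl

variable {U : Type} [AddCommGroup U] [Module ℂ U]

/-- Endomorphisms of trace zero are sums of brackets of such. -/
theorem tr0_perfect [FiniteDimensional ℂ U] (h3 : 3 ≤ finrank ℂ U) {P : Submodule ℂ (End ℂ U)}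
    (hP : ∀ A B, LinearMap.trace ℂ U A = 0 → LinearMap.trace ℂ U B = 0 → A * B - B * A ∈ P)
    {A : End ℂ U} (hA : LinearMap.trace ℂ U A = 0) : A ∈ P := by
  classical
  let e := Module.finBasis ℂ U
  let n := finrank ℂ U
  -- matrix units
  let m : Fin n → Fin n → End ℂ U := fun i j => (e.coord j).smulRight (e i)
  have hm : ∀ i j k, m i j (e k) = if j = k then e i else 0 := by
    intro i j k
    change (e.coord j (e k)) • e i = _
    rw [Basis.coord_apply, Basis.repr_self, Finsupp.single_apply]
    by_cases hjk : j = k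
    · rw [if_pos hjk, if_pos hjk.symm, one_smul]
    · rw [if_neg hjk, if_neg (Ne.symm hjk), zero_smul]
  have hmm : ∀ i j k l, m i j * m k l = if j = k then m i l else 0 := by
    intro i j k l
    refine e.ext fun q => ?_
    rw [End.mul_apply, hm]
    by_cases hlq : l = q
    · rw [if_pos hlq, hm]
      by_cases hjk : j = k
      · rw [if_pos hjk, if_pos hjk, hm, if_pos hlq]
      · rw [if_neg hjk, if_neg hjk, LinearMap.zero_apply]
    · rw [if_neg hlq, map_zero]
      by_cases hjk : j = k
      · rw [if_pos hjk, hm, if_neg hlq]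
      · rw [if_neg hjk, LinearMap.zero_apply]
  have htm : ∀ i j, LinearMap.trace ℂ U (m i j) = if i = j then 1 else 0 := by
    intro i j
    change LinearMap.trace ℂ U ((e.coord j).smulRight (e i)) = _
    rw [LinearMap.trace_smulRight, Basis.coord_apply, Basis.repr_self, Finsupp.single_apply]
  -- off diagonal
  have hoff : ∀ i j, i ≠ j → m i j ∈ P := by
    intro i j hij
    obtain ⟨k, hk⟩ : ∃ k : Fin n, k ∉ ({i, j} : Finset (Fin n)) := by
      by_contra hcon
      push Not at hcon
      have h4 : (Finset.univ : Finset (Fin n)) ⊆ {i, j} := fun k _ => hcon k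
      have h5 := Finset.card_le_card h4
      rw [Finset.card_univ, Fintype.card_fin, Finset.card_pair hij] at h5
      have : n = finrank ℂ U := rfl
      omega
    rw [Finset.mem_insert, Finset.mem_singleton, not_or] at hk
    have h4 := hP (m i k) (m k j) (by rw [htm, if_neg (Ne.symm hk.1)])
      (by rw [htm, if_neg hk.2])
    rw [hmm, hmm, if_pos rfl, if_neg (Ne.symm hij), sub_zero] at h4
    exact h4
  have hdiag : ∀ i j, m i i - m j j ∈ P := by
    intro i j
    by_cases hij : i = j
    · rw [hij, sub_self]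
      exact P.zero_mem
    · have h4 := hP (m i j) (m j i) (by rw [htm, if_neg hij]) (by rw [htm, if_neg (Ne.symm hij)])
      rwa [hmm, hmm, if_pos rfl, if_pos rfl] at h4
  -- expansion
  have hn : 0 < n := by
    have : n = finrank ℂ U := rfl
    omega
  let i0 : Fin n := ⟨0, hn⟩
  have hexp : A = ∑ i, ∑ j, (e.repr (A (e j)) i) • m i j := by
    refine e.ext fun k => ?_
    rw [LinearMap.sum_apply]
    have h4 : ∀ i, (∑ j, (e.repr (A (e j)) i) • m i j) (e k) = e.repr (A (e k)) i • e i := by
      intro i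
      rw [LinearMap.sum_apply, Finset.sum_eq_single k]
      · rw [LinearMap.smul_apply, hm, if_pos rfl]
      · intro j _ hj
        rw [LinearMap.smul_apply, hm, if_neg hj, smul_zero]
      · intro h
        exact absurd (Finset.mem_univ k) h
    rw [Finset.sum_congr rfl fun i _ => h4 i]
    exact (e.sum_repr (A (e k))).symm
  have htr : ∑ i, e.repr (A (e i)) i = 0 := by
    rw [← hA]
    conv_rhs => rw [hexp]
    rw [map_sum]
    refine Finset.sum_congr rfl fun i _ => ?_
    rw [map_sum, Finset.sum_eq_single i]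
    · rw [map_smul, htm, if_pos rfl, smul_eq_mul, mul_one]
    · intro j _ hj
      rw [map_smul, htm, if_neg (Ne.symm hj), smul_zero]
    · intro h
      exact absurd (Finset.mem_univ i) h
  have hexp2 : A = ∑ i, ∑ j, (e.repr (A (e j)) i) • (if i = j then m i i - m i0 i0 else m i j) := by
    have h5 : ∑ i, ∑ j, (e.repr (A (e j)) i) • (if i = j then m i0 i0 else 0) =
        (0 : End ℂ U) := by
      have h6 : ∀ i, ∑ j, (e.repr (A (e j)) i) • (if i = j then m i0 i0 else 0) =
          e.repr (A (e i)) i • m i0 i0 := by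
        intro i
        rw [Finset.sum_eq_single i]
        · rw [if_pos rfl]
        · intro j _ hj
          rw [if_neg (Ne.symm hj), smul_zero]
        · intro h
          exact absurd (Finset.mem_univ i) h
      rw [Finset.sum_congr rfl fun i _ => h6 i, ← Finset.sum_smul, htr, zero_smul]
    have h8 : (∑ i, ∑ j, (e.repr (A (e j)) i) • m i j) -
        ∑ i, ∑ j, (e.repr (A (e j)) i) • (if i = j then m i0 i0 else 0) =
        ∑ i, ∑ j, (e.repr (A (e j)) i) • (if i = j then m i i - m i0 i0 else m i j) := by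
      rw [← Finset.sum_sub_distrib]
      refine Finset.sum_congr rfl fun i _ => ?_
      rw [← Finset.sum_sub_distrib]
      refine Finset.sum_congr rfl fun j _ => ?_
      by_cases hij : i = j
      · subst hij
        rw [if_pos rfl, if_pos rfl, smul_sub]
      · rw [if_neg hij, if_neg hij, smul_zero, sub_zero]
    rw [h5, sub_zero, ← hexp] at h8
    exact h8
  rw [hexp2]
  refine Submodule.sum_mem _ fun i _ => Submodule.sum_mem _ fun j _ => Submodule.smul_mem _ _ ?_
  by_cases hij : i = j
  · rw [if_pos hij]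
    exact hdiag i i0
  · rw [if_neg hij]
    exact hoff i j hij

end sl

/-- A semi-invariant form is zero if there is no invariant form. -/
theorem no_semi {S : Set (End ℂ V)} {L : Submodule ℂ (End ℂ V)}
    (hsq : ∀ D ∈ S, D * D = 1) (hSL : ∀ D ∈ S, D ∈ L)
    (hgen : ∀ L' : Submodule ℂ (End ℂ V), (∀ D ∈ S, D ∈ L') → Br L' → L ≤ L')
    {U : Submodule ℂ V} (hUst : Stb L U) (hUirr : ∀ W ≤ U, Stb L W → W = ⊥ ∨ W = U)
    (hns : ∀ D ∈ S, ∀ c : ℂ, ∃ u ∈ U, D u ≠ c • u)
    (hnf : ∀ b : V →ₗ[ℂ] V →ₗ[ℂ] ℂ, (∀ X ∈ L, ∀ u ∈ U, ∀ v ∈ U, b (X u) v + b u (X v) = 0) →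
      ∀ u ∈ U, ∀ v ∈ U, b u v = 0)
    (β : U →ₗ[ℂ] U →ₗ[ℂ] ℂ) (c : End ℂ U → ℂ)
    (hβ : ∀ A ∈ rs L U, ∀ u v, β (A u) v + β u (A v) = c A * β u v) : β = 0 := by
  by_contra hβ0
  have hres : ∀ X, ∀ hX : X ∈ L, X.restrict (hUst X hX) ∈ rs L U := fun X hX =>
    ⟨X, hX, fun u => rfl⟩
  -- nondegenerate
  have hnd : ∀ u : U, (∀ v, β u v = 0) → u = 0 := by
    have h1 : Stb L ((LinearMap.ker β).map U.subtype) := by
      rintro X hX _ ⟨u, hu, rfl⟩
      refine ⟨X.restrict (hUst X hX) u, ?_, rfl⟩
      change X.restrict (hUst X hX) u ∈ LinearMap.ker β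
      rw [LinearMap.mem_ker]
      refine LinearMap.ext fun v => ?_
      have h2 := hβ _ (hres X hX) u v
      have h3 : β u = 0 := hu
      rw [h3, LinearMap.zero_apply, LinearMap.zero_apply, add_zero, mul_zero] at h2
      rw [h2, LinearMap.zero_apply]
    rcases hUirr _ (Submodule.map_subtype_le U _) h1 with h2 | h2
    · intro u hu
      have h3 : (u : V) ∈ (LinearMap.ker β).map U.subtype :=
        ⟨u, LinearMap.mem_ker.2 (LinearMap.ext hu), rfl⟩
      rw [h2, Submodule.mem_bot] at h3
      exact Subtype.ext h3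
    · exfalso
      apply hβ0
      refine LinearMap.ext fun u => ?_
      have h3 : (u : V) ∈ (LinearMap.ker β).map U.subtype := by rw [h2]; exact u.2
      obtain ⟨w, hw, hwu⟩ := h3
      have h4 : w = u := Subtype.ext hwu
      rw [← h4]
      exact LinearMap.mem_ker.1 hw
  -- the generators
  have hD : ∀ D, ∀ hD : D ∈ S, ∀ u v : U, β (D.restrict (hUst D (hSL D hD)) u) v +
      β u (D.restrict (hUst D (hSL D hD)) v) = 0 := by
    intro D hD
    set E := D.restrict (hUst D (hSL D hD)) with hE
    have h1 := hβ E (hres D (hSL D hD))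
    have hEE : ∀ u, E (E u) = u := fun u => Subtype.ext (by
      change D (D u) = u
      rw [← End.mul_apply, hsq D hD]
      rfl)
    by_cases hc : c E = 0
    · intro u v
      rw [h1, hc, zero_mul]
    · exfalso
      have h2 : ∀ u v, β (E u) v = β u (E v) := by
        intro u v
        have h3 := h1 (E u) v
        have h4 := h1 u (E v)
        rw [hEE] at h3 h4
        have h5 : c E * (β (E u) v - β u (E v)) = 0 := by linear_combination h4 - h3
        exact sub_eq_zero.1 ((mul_eq_zero.1 h5).resolve_left hc)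
      obtain ⟨u, hu, hu'⟩ := hns D hD (c E / 2)
      apply hu'
      have h3 : E ⟨u, hu⟩ - (c E / 2) • ⟨u, hu⟩ = 0 := by
        refine hnd _ fun v => ?_
        rw [map_sub, map_smul, LinearMap.sub_apply, LinearMap.smul_apply, smul_eq_mul]
        have h4 := h1 ⟨u, hu⟩ v
        rw [← h2] at h4
        linear_combination (1 / 2 : ℂ) * h4
      have h4 := congrArg Subtype.val (sub_eq_zero.1 h3)
      exact h4
  obtain ⟨p, hp⟩ := LinearMap.exists_leftInverse_of_injective U.subtype (Submodule.ker_subtype U)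
  have hp' : ∀ u : U, p (u : V) = u := fun u => LinearMap.congr_fun hp u
  let b : V →ₗ[ℂ] V →ₗ[ℂ] ℂ := β.compl₁₂ p p
  have hb : ∀ u v : U, b u v = β u v := fun u v => by
    change β (p u) (p v) = _
    rw [hp', hp']
  have hinv : ∀ X ∈ L, ∀ u ∈ U, ∀ v ∈ U, b (X u) v + b u (X v) = 0 := by
    let L' : Submodule ℂ (End ℂ V) :=
      { carrier := {X | ∀ u ∈ U, X u ∈ U ∧ ∀ v ∈ U, b (X u) v + b u (X v) = 0}
        add_mem' := fun {x y} hx hy u hu => ⟨U.add_mem (hx u hu).1 (hy u hu).1, fun v hv => by
          have h1 := (hx u hu).2 v hv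
          have h2 := (hy u hu).2 v hv
          rw [LinearMap.add_apply, LinearMap.add_apply, map_add, map_add, LinearMap.add_apply]
          linear_combination h1 + h2⟩
        zero_mem' := fun u hu => ⟨U.zero_mem, fun v hv => by
          rw [LinearMap.zero_apply, LinearMap.zero_apply, map_zero, map_zero,
            LinearMap.zero_apply, add_zero]⟩
        smul_mem' := fun a x hx u hu => ⟨U.smul_mem a (hx u hu).1, fun v hv => by
          have h1 := (hx u hu).2 v hv
          rw [LinearMap.smul_apply, LinearMap.smul_apply, map_smul, map_smul,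
            LinearMap.smul_apply, smul_eq_mul, smul_eq_mul]
          linear_combination a * h1⟩ }
    have h1 : L ≤ L' := by
      refine hgen L' (fun D hDS u hu => ⟨hUst D (hSL D hDS) u hu, fun v hv => ?_⟩)
        fun X hX Y hY u hu => ?_
      · have h2 := hD D hDS ⟨u, hu⟩ ⟨v, hv⟩
        rw [← hb, ← hb] at h2
        exact h2
      · have e1 := hX u hu
        have e2 := hY u hu
        refine ⟨U.sub_mem (hX _ e2.1).1 (hY _ e1.1).1, fun v hv => ?_⟩
        have e3 := hX v hv
        have e4 := hY v hv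
        have f1 := (hX _ e2.1).2 v hv
        have f2 := (hY _ e1.1).2 v hv
        have f3 := e1.2 _ e4.1
        have f4 := e2.2 _ e3.1
        rw [LinearMap.sub_apply, LinearMap.sub_apply, map_sub, map_sub, LinearMap.sub_apply,
          End.mul_apply, End.mul_apply, End.mul_apply, End.mul_apply]
        linear_combination f1 - f2 + f3 - f4
    exact fun X hX u hu => (h1 hX u hu).2
  apply hβ0
  refine LinearMap.ext fun u => LinearMap.ext fun v => ?_
  rw [← hb]
  exact hnf b hinv u u.2 v v.2

theorem exists_elt_sl (hA : S_A) (hB : S_Bsl) (hC : S_Csl) [FiniteDimensional ℂ V]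
    {S : Set (End ℂ V)} {L : Submodule ℂ (End ℂ V)}
    (hsq : ∀ D ∈ S, D * D = 1) (hSL : ∀ D ∈ S, D ∈ L) (hbr : Br L)
    (hgen : ∀ L' : Submodule ℂ (End ℂ V), (∀ D ∈ S, D ∈ L') → Br L' → L ≤ L')
    (hcr : CR L) {U U' : Submodule ℂ V} (hUst : Stb L U)
    (hUirr : ∀ W ≤ U, Stb L W → W = ⊥ ∨ W = U) (hU'st : Stb L U')
    {om : V →ₗ[ℂ] V →ₗ[ℂ] ℂ} (hom : ∀ X ∈ L, Skw om X)
    (hUU' : ∃ u ∈ U, ∃ u' ∈ U', om u u' ≠ 0) (h3 : 3 ≤ finrank ℂ U)
    (hns : ∀ D ∈ S, ∀ c : ℂ, ∃ u ∈ U, D u ≠ c • u)
    (hbig : finrank ℂ U = 3 ∨ ∃ D ∈ S,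
      2 ≤ finrank ℂ (U ⊓ LinearMap.ker (D - 1) : Submodule ℂ V) ∧
      2 ≤ finrank ℂ (U ⊓ LinearMap.ker (D + 1) : Submodule ℂ V))
    (hnf : ∀ b : V →ₗ[ℂ] V →ₗ[ℂ] ℂ, (∀ X ∈ L, ∀ u ∈ U, ∀ v ∈ U, b (X u) v + b u (X v) = 0) →
      ∀ u ∈ U, ∀ v ∈ U, b u v = 0)
    {N : End ℂ V} (hN : N ∈ L) (hN2 : N * N = 0) (hN1 : finrank ℂ (U.map N) = 1)
    {R : Submodule ℂ V} (hR : Stb L R) (hUR : NoHom S U R) (hU'R : NoHom S U' R)
    (A : End ℂ U) (htr : LinearMap.trace ℂ U A = 0) :
    ∃ C ∈ L, (∀ u : U, C u = A u) ∧ ∀ r ∈ R, C r = 0 := by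
  classical
  -- the involutions on `U`
  let SU : Set (End ℂ U) := {B | ∃ D ∈ S, ∀ u : U, ((B u : U) : V) = D u}
  let NU : End ℂ U := N.restrict (hUst N hN)
  have hNU : ∀ u : U, ((NU u : U) : V) = N u := fun u => rfl
  have hirr : ∀ W : Submodule ℂ U, (∀ D ∈ SU, ∀ w ∈ W, D w ∈ W) → W = ⊥ ∨ W = ⊤ := by
    intro W hW
    have h1 : Stb L (W.map U.subtype) := by
      let L' : Submodule ℂ (End ℂ V) :=
        { carrier := {A | ∀ w ∈ W.map U.subtype, A w ∈ W.map U.subtype}
          add_mem' := fun {x y} hx hy w hw => Submodule.add_mem _ (hx w hw) (hy w hw)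
          zero_mem' := fun w hw => Submodule.zero_mem _
          smul_mem' := fun c x hx w hw => Submodule.smul_mem _ c (hx w hw) }
      have h2 : L ≤ L' := by
        refine hgen L' (fun D hD => ?_) (fun A hA B hB w hw => ?_)
        · rintro _ ⟨w, hw, rfl⟩
          refine ⟨D.restrict (hUst D (hSL D hD)) w, hW _ ⟨D, hD, fun u => rfl⟩ w hw, rfl⟩
        · exact Submodule.sub_mem _ (hA _ (hB w hw)) (hB _ (hA w hw))
      exact fun A hA w hw => h2 hA w hw
    rcases hUirr (W.map U.subtype) (Submodule.map_subtype_le U W) h1 with h2 | h2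
    · left
      refine Submodule.map_injective_of_injective (f := U.subtype) U.injective_subtype ?_
      rw [h2, Submodule.map_bot]
    · right
      refine eq_top_iff.2 fun u _ => ?_
      have h3 : (u : V) ∈ W.map U.subtype := by rw [h2]; exact u.2
      obtain ⟨w, hw, hwu⟩ := h3
      have h4 : w = u := Subtype.ext hwu
      rwa [h4] at hw
  have hsl := hB U SU (rs L U) NU
    (by
      rintro D ⟨D', hD', h⟩
      refine LinearMap.ext fun u => Subtype.ext ?_
      rw [End.mul_apply, h, h, ← End.mul_apply, hsq D' hD']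
      rfl)
    (by
      rintro D ⟨D', hD', h⟩
      exact ⟨D', hSL D' hD', h⟩)
    (by
      rintro A ⟨A', hA', h⟩ B ⟨B', hB', h'⟩
      refine ⟨A' * B' - B' * A', hbr A' hA' B' hB', fun u => ?_⟩
      rw [LinearMap.sub_apply, Submodule.coe_sub, End.mul_apply, End.mul_apply, h, h', h', h]
      rfl)
    hirr
    (fun β c hβ => no_semi hsq hSL hgen hUst hUirr hns hnf β c hβ)
    ⟨N, hN, hNU⟩
    (by
      refine LinearMap.ext fun u => Subtype.ext ?_
      rw [End.mul_apply, hNU, hNU, ← End.mul_apply, hN2]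
      rfl)
    (by
      have h5 : (LinearMap.range NU).map U.subtype = U.map N := by
        ext x
        simp only [Submodule.mem_map, LinearMap.mem_range]
        constructor
        · rintro ⟨_, ⟨u, rfl⟩, rfl⟩
          exact ⟨u, u.2, rfl⟩
        · rintro ⟨u, hu, rfl⟩
          exact ⟨_, ⟨⟨u, hu⟩, rfl⟩, rfl⟩
      rw [← hN1, ← h5]
      exact (Submodule.finrank_map_subtype_eq U (LinearMap.range NU)).symm)
  obtain ⟨I, hIL, hIi, hIj, hIr⟩ := hA V L hbr hcr U hUst
  -- restrictions of the ideal
  let r : I →ₗ[ℂ] End ℂ U :=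
    { toFun := fun C => (C : End ℂ V).restrict (hUst C (hIL C.2))
      map_add' := fun C C' => rfl
      map_smul' := fun c C => rfl }
  let q : I →ₗ[ℂ] End ℂ R :=
    { toFun := fun C => (C : End ℂ V).restrict (hR C (hIL C.2))
      map_add' := fun C C' => rfl
      map_smul' := fun c C => rfl }
  have hr : ∀ (C : I) (u : U), ((r C u : U) : V) = (C : End ℂ V) u := fun C u => rfl
  have hq : ∀ (C : I) (u : R), ((q C u : R) : V) = (C : End ℂ V) u := fun C u => rfl
  have hrinj : LinearMap.ker r = ⊥ := by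
    rw [eq_bot_iff]
    intro C hC
    rw [LinearMap.mem_ker] at hC
    rw [Submodule.mem_bot]
    apply Subtype.ext
    refine hIj C C.2 fun u hu => ?_
    have h4 := congrArg Subtype.val (LinearMap.congr_fun hC ⟨u, hu⟩)
    exact h4
  obtain ⟨g, hg⟩ := r.exists_leftInverse_of_injective hrinj
  have hg' : ∀ C, g (r C) = C := fun C => LinearMap.congr_fun hg C
  -- each endomorphism of trace zero is the restriction of an element of the ideal
  have key : ∀ B : End ℂ U, LinearMap.trace ℂ U B = 0 → ∃ C : I, r C = B := by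
    intro B hB
    have h4 : B ∈ LinearMap.range r := by
      refine tr0_perfect h3 (fun A B hA hB => ?_) hB
      obtain ⟨A', hA', hAA⟩ := hsl A hA
      obtain ⟨B', hB', hBB⟩ := hsl B hB
      obtain ⟨C, hC, hCC⟩ := hIr A' hA' B' hB'
      refine ⟨⟨C, hC⟩, LinearMap.ext fun u => Subtype.ext ?_⟩
      rw [hr, LinearMap.sub_apply, Submodule.coe_sub, End.mul_apply, End.mul_apply, hAA, hBB, hBB,
        hAA]
      exact hCC u u.2
    exact h4
  let ρ : End ℂ U →ₗ[ℂ] End ℂ R := q.comp g
  have hρ : ∀ C : I, ρ (r C) = q C := fun C => by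
    change q (g (r C)) = _
    rw [hg']
  let T : Set (End ℂ U × End ℂ R) :=
    {p | ∃ D ∈ S, (∀ u : U, ((p.1 u : U) : V) = D u) ∧ ∀ u : R, ((p.2 u : R) : V) = D u}
  have hT0 : S.Nonempty := by
    by_contra hcon
    rw [Set.not_nonempty_iff_eq_empty] at hcon
    have h4 : L ≤ ⊥ := by
      refine hgen ⊥ (fun D hD => ?_) (fun A hA B hB => ?_)
      · rw [hcon] at hD
        exact absurd hD (Set.notMem_empty D)
      · rw [Submodule.mem_bot] at hA hB ⊢
        rw [hA, hB, mul_zero, sub_zero]
    have h5 : N = 0 := (Submodule.mem_bot ℂ).1 (h4 hN)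
    rw [h5, Submodule.map_zero, finrank_bot] at hN1
    exact zero_ne_one hN1
  have hTm : ∀ D, ∀ hD : D ∈ S, (D.restrict (hUst D (hSL D hD)), D.restrict (hR D (hSL D hD))) ∈ T :=
    fun D hD => ⟨D, hD, fun u => rfl, fun u => rfl⟩
  -- the duality
  have hdual : ∀ u : U, (∀ u' ∈ U', om u u' = 0) → u = 0 := by
    have h1 : Stb L (U ⊓ {
        carrier := {v | ∀ u' ∈ U', om v u' = 0}
        add_mem' := fun {x y} hx hy u' hu' => by
          rw [map_add, LinearMap.add_apply, hx u' hu', hy u' hu', add_zero]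
        zero_mem' := fun u' hu' => by rw [map_zero, LinearMap.zero_apply]
        smul_mem' := fun c x hx u' hu' => by
          rw [map_smul, LinearMap.smul_apply, hx u' hu', smul_zero] : Submodule ℂ V}) := by
      rintro X hX u ⟨hu, hu1⟩
      refine ⟨hUst X hX u hu, fun u' hu' => ?_⟩
      have h2 := hom X hX u u'
      have h3 : om u (X u') = 0 := hu1 _ (hU'st X hX u' hu')
      rwa [h3, add_zero] at h2
    rcases hUirr _ inf_le_left h1 with h2 | h2
    · intro u hu
      have h4 : (u : V) ∈ (⊥ : Submodule ℂ V) := by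
        rw [← h2]
        exact ⟨u.2, hu⟩
      exact Subtype.ext ((Submodule.mem_bot ℂ).1 h4)
    · exfalso
      obtain ⟨u, hu, u', hu', h4⟩ := hUU'
      apply h4
      have h5 : u ∈ U := hu
      rw [← h2] at h5
      exact h5.2 u' hu'
  let δ : U' →ₗ[ℂ] Dual ℂ U := (om.compl₁₂ U.subtype U'.subtype).flip
  have hδ : ∀ (u' : U') (u : U), δ u' u = om u u' := fun u' u => rfl
  have hδs : Function.Surjective δ := by
    rw [← LinearMap.range_eq_top]
    by_contra hcon
    obtain ⟨φ, hφ0, hφ⟩ := Submodule.exists_dual_map_eq_bot_of_lt_top (lt_top_iff_ne_top.2 hcon)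
      inferInstance
    let u : U := (Module.evalEquiv ℂ U).symm φ
    have hu : ∀ ψ : Dual ℂ U, φ ψ = ψ u := fun ψ => by
      rw [Module.apply_evalEquiv_symm_apply]
    have hu0 : u = 0 := by
      refine hdual u fun u' hu' => ?_
      have h4 : φ (δ ⟨u', hu'⟩) ∈ (⊥ : Submodule ℂ ℂ) := by
        rw [← hφ]
        exact ⟨_, ⟨_, rfl⟩, rfl⟩
      rw [hu] at h4
      exact (Submodule.mem_bot ℂ).1 h4
    apply hφ0
    refine LinearMap.ext fun ψ => ?_
    rw [hu, hu0, map_zero, LinearMap.zero_apply]
  have hzero := hC U R ρ T h3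
    (by
      intro A B hA hB
      obtain ⟨C, rfl⟩ := key A hA
      obtain ⟨C', rfl⟩ := key B hB
      have h4 : r C * r C' - r C' * r C =
          r ⟨(C : End ℂ V) * C' - C' * C, hIi C (hIL C.2) C' C'.2⟩ := rfl
      rw [h4, hρ, hρ, hρ]
      rfl)
    (by
      obtain ⟨D, hD⟩ := hT0
      exact ⟨_, hTm D hD⟩)
    (by
      rintro ⟨p, p'⟩ ⟨D, hD, hp, hp'⟩
      have hp : ∀ u : U, ((p u : U) : V) = D u := hp
      have hp' : ∀ u : R, ((p' u : R) : V) = D u := hp'
      refine ⟨LinearMap.ext fun u => Subtype.ext ?_, LinearMap.ext fun u => Subtype.ext ?_,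
        fun h4 => ?_, fun h4 => ?_, fun A hA => ?_⟩
      · rw [End.mul_apply, hp, hp, ← End.mul_apply, hsq D hD]
        rfl
      · rw [End.mul_apply, hp', hp', ← End.mul_apply, hsq D hD]
        rfl
      · obtain ⟨u, hu, h5⟩ := hns D hD 1
        apply h5
        have h6 := hp ⟨u, hu⟩
        rw [show p = 1 from h4] at h6
        rw [one_smul]
        exact h6.symm
      · obtain ⟨u, hu, h5⟩ := hns D hD (-1)
        apply h5
        have h6 := hp ⟨u, hu⟩
        rw [show p = -1 from h4] at h6
        rw [neg_one_smul]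
        exact h6.symm
      · obtain ⟨C, rfl⟩ := key A hA
        have h4 : p * r C - r C * p = r ⟨D * C - C * D, hIi D (hSL D hD) C C.2⟩ := by
          refine LinearMap.ext fun u => Subtype.ext ?_
          rw [LinearMap.sub_apply, Submodule.coe_sub, End.mul_apply, End.mul_apply, hp, hr, hr, hr,
            hp]
          rfl
        change p' * ρ (r C) - ρ (r C) * p' = ρ (p * r C - r C * p)
        rw [h4, hρ, hρ]
        refine LinearMap.ext fun u => Subtype.ext ?_
        rw [LinearMap.sub_apply, Submodule.coe_sub, End.mul_apply, End.mul_apply, hp', hq, hq, hq,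
          hp']
        rfl)
    (by
      rcases hbig with h4 | ⟨D, hD, h4, h5⟩
      · exact Or.inl h4
      · refine Or.inr ⟨_, hTm D hD, ?_, ?_⟩
        · refine h4.trans (le_of_eq ?_)
          have h6 : (LinearMap.ker (D.restrict (hUst D (hSL D hD)) - 1)).map U.subtype =
              U ⊓ LinearMap.ker (D - 1) := by
            ext x
            constructor
            · rintro ⟨u, hu, rfl⟩
              refine ⟨u.2, ?_⟩
              exact congrArg Subtype.val (LinearMap.mem_ker.1 hu)
            · rintro ⟨hx, hx1⟩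
              exact ⟨⟨x, hx⟩, LinearMap.mem_ker.2 (Subtype.ext (LinearMap.mem_ker.1 hx1)), rfl⟩
          rw [← h6]
          exact Submodule.finrank_map_subtype_eq U _
        · refine h5.trans (le_of_eq ?_)
          have h6 : (LinearMap.ker (D.restrict (hUst D (hSL D hD)) + 1)).map U.subtype =
              U ⊓ LinearMap.ker (D + 1) := by
            ext x
            constructor
            · rintro ⟨u, hu, rfl⟩
              refine ⟨u.2, ?_⟩
              exact congrArg Subtype.val (LinearMap.mem_ker.1 hu)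
            · rintro ⟨hx, hx1⟩
              exact ⟨⟨x, hx⟩, LinearMap.mem_ker.2 (Subtype.ext (LinearMap.mem_ker.1 hx1)), rfl⟩
          rw [← h6]
          exact Submodule.finrank_map_subtype_eq U _)
    (by
      intro f hf
      obtain ⟨F, hF⟩ := LinearMap.exists_extend f
      have hF' : ∀ u : U, F u = f u := fun u => LinearMap.congr_fun hF u
      have h4 := hUR (R.subtype.comp F) (fun D hD u hu => by
          have h5 := hf _ (hTm D hD) ⟨u, hu⟩
          have h6 := congrArg Subtype.val h5
          change ((F (D u) : R) : V) = D (F u : R)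
          have h7 : F (D u) = f (D.restrict (hUst D (hSL D hD)) ⟨u, hu⟩) :=
            hF' (D.restrict (hUst D (hSL D hD)) ⟨u, hu⟩)
          have h8 : F u = f ⟨u, hu⟩ := hF' ⟨u, hu⟩
          rw [h7, h8]
          exact h6)
        (fun u hu => (F u).2)
      refine LinearMap.ext fun u => Subtype.ext ?_
      rw [← hF']
      exact h4 u u.2)
    (by
      intro f hf
      obtain ⟨F, hF⟩ := LinearMap.exists_extend (f.comp δ)
      have hF' : ∀ u : U', F u = f (δ u) := fun u => LinearMap.congr_fun hF u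
      have h4 := hU'R (R.subtype.comp F) (fun D hD u hu => by
          have h5 := hf _ (hTm D hD) (δ ⟨u, hu⟩)
          have h9 : (δ ⟨u, hu⟩).comp (D.restrict (hUst D (hSL D hD))) =
              -δ (D.restrict (hU'st D (hSL D hD)) ⟨u, hu⟩) := by
            refine LinearMap.ext fun w => ?_
            rw [LinearMap.comp_apply, LinearMap.neg_apply, hδ, hδ]
            have h10 := hom D (hSL D hD) w u
            exact eq_neg_of_add_eq_zero_left h10
          change f ((δ ⟨u, hu⟩).comp (D.restrict (hUst D (hSL D hD)))) = _ at h5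
          rw [h9, map_neg, neg_inj] at h5
          have h6 := congrArg Subtype.val h5
          change ((F (D u) : R) : V) = D (F u : R)
          have h7 : F (D u) = f (δ (D.restrict (hU'st D (hSL D hD)) ⟨u, hu⟩)) :=
            hF' (D.restrict (hU'st D (hSL D hD)) ⟨u, hu⟩)
          have h8 : F u = f (δ ⟨u, hu⟩) := hF' ⟨u, hu⟩
          rw [h7, h8]
          exact h6)
        (fun u hu => (F u).2)
      refine LinearMap.ext fun φ => ?_
      obtain ⟨u', rfl⟩ := hδs φ
      rw [← hF']
      exact Subtype.ext (h4 u' u'.2))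
  obtain ⟨C, hCA⟩ := key _ htr
  refine ⟨C, hIL C.2, fun u => ?_, fun x hx => ?_⟩
  · have h4 := congrArg Subtype.val (LinearMap.congr_fun hCA u)
    exact h4
  · have h4 := hzero _ htr
    rw [← hCA, hρ] at h4
    have h5 := congrArg Subtype.val (LinearMap.congr_fun h4 ⟨x, hx⟩)
    exact h5

end Pool.Agent.N183.U8
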