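import Mathlib
import Pool.Agent.N183.U8.Stm

/-!
# Project GS (helper183, MP_09799c_ag): three further lemmas. Statements.
-/

set_option autoImplicit false

namespace Pool.Agent.N183.U8

open Module

/-- (F3) An endomorphism `A` of the double commutant which is skew for a nondegenerate invariant
form `om` of `V` is skew for all invariant forms `b` on the stable subspaces `U`. Proof: take an
equivariant projection `π` on `U` (complete reducibility) and `P` with
`om (P u) v = b (π u) (π v)`; then `P` commutes with `L`, so it commutes with `A`. -/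
def S_F3 : Prop := ∀ (V : Type) [AddCommGroup V] [Module ℂ V] [FiniteDimensional ℂ V]
  (L : Submodule ℂ (End ℂ V)) (om : V →ₗ[ℂ] V →ₗ[ℂ] ℂ), CR L →
  (∀ u, (∀ v, om u v = 0) → u = 0) → (∀ X ∈ L, Skw om X) →
  ∀ (A : End ℂ V), Skw om A → (∀ P : End ℂ V, (∀ X ∈ L, P * X = X * P) → P * A = A * P) →
  ∀ (U : Submodule ℂ V), Stb L U → ∀ b : V →ₗ[ℂ] V →ₗ[ℂ] ℂ,
  (∀ X ∈ L, ∀ u ∈ U, ∀ v ∈ U, b (X u) v + b u (X v) = 0) →
  ∀ u ∈ U, ∀ v ∈ U, b (A u) v + b u (A v) = 0

/-- (F4) A Lie algebra which is generated by involutions which are not scalar on the stable plane `U`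
has an invariant form on `U` (the determinant). -/
def S_F4 : Prop := ∀ (V : Type) [AddCommGroup V] [Module ℂ V] [FiniteDimensional ℂ V]
  (S : Set (End ℂ V)) (L : Submodule ℂ (End ℂ V)),
  (∀ D ∈ S, D * D = 1) → (∀ D ∈ S, D ∈ L) →
  (∀ L' : Submodule ℂ (End ℂ V), (∀ D ∈ S, D ∈ L') → Br L' → L ≤ L') →
  ∀ (U : Submodule ℂ V), Stb L U → finrank ℂ U = 2 →
  (∀ D ∈ S, ∀ c : ℂ, ∃ u ∈ U, D u ≠ c • u) →
  ∃ b : V →ₗ[ℂ] V →ₗ[ℂ] ℂ, (∀ X ∈ L, ∀ u ∈ U, ∀ v ∈ U, b (X u) v + b u (X v) = 0) ∧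
    ∃ u ∈ U, ∃ v ∈ U, b u v ≠ 0

/-- (R) Descent to the rational numbers: if `C` does not commute with `D` then one of the rational
matrices obtained by applying the `ℚ`-linear forms on the span of the entries of `C` to the entries
of `C` does not commute with `D`, and it satisfies the rational linear equations satisfied
by `C`. -/
def S_R : Prop := ∀ (B : Type) [Fintype B] [DecidableEq B] (C D : Matrix B B ℂ), C * D ≠ D * C →
  ∃ t : Matrix B B ℚ,
    t.map (fun x : ℚ => (x : ℂ)) * D ≠ D * t.map (fun x : ℚ => (x : ℂ)) ∧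
    (∀ R R' : Matrix B B ℚ, C * R.map (fun x : ℚ => (x : ℂ)) = R'.map (fun x : ℚ => (x : ℂ)) * C →
      t * R = R' * t) ∧
    (∀ R : Matrix B B ℚ, (C * R.map (fun x : ℚ => (x : ℂ))).trace = 0 → (t * R).trace = 0) ∧
    (∀ R R' : Matrix B B ℚ, R.map (fun x : ℚ => (x : ℂ)) * C =
      C.transpose * R'.map (fun x : ℚ => (x : ℂ)) → R * t = t.transpose * R')

end Pool.Agent.N183.U8
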