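import Mathlib
import Pool.Agent.N183.U8.D4
import Pool.Agent.N183.U8.StmF

/-!
# The general form of the assembly
-/

set_option autoImplicit false
set_option linter.unusedSectionVars false
set_option linter.unusedVariables false

namespace Pool.Agent.N183.U8

open Module

variable {V : Type} [AddCommGroup V] [Module ℂ V]

/-- The situation. -/
structure Ctx (S : Set (End ℂ V)) (L : Submodule ℂ (End ℂ V)) (om : V →ₗ[ℂ] V →ₗ[ℂ] ℂ) :
    Prop where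
  sq : ∀ D ∈ S, D * D = 1
  SL : ∀ D ∈ S, D ∈ L
  br : Br L
  gen : ∀ L' : Submodule ℂ (End ℂ V), (∀ D ∈ S, D ∈ L') → Br L' → L ≤ L'
  cr : CR L
  skw : ∀ X ∈ L, Skw om X
  nd : ∀ u, (∀ v, om u v = 0) → u = 0

/-- The local conditions. -/
structure Lc (S : Set (End ℂ V)) (L : Submodule ℂ (End ℂ V)) (U : Submodule ℂ V) : Prop where
  ns : ∀ D ∈ S, ∀ c : ℂ, ∃ u ∈ U, D u ≠ c • u
  rk : ∃ N ∈ L, N * N = 0 ∧ finrank ℂ (U.map N) = 1
  alt : (∃ b : V →ₗ[ℂ] V →ₗ[ℂ] ℂ, (∀ X ∈ L, ∀ u ∈ U, ∀ v ∈ U, b (X u) v + b u (X v) = 0) ∧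
      ∃ u ∈ U, ∃ v ∈ U, b u v ≠ 0) ∨ finrank ℂ U = 3 ∨ ∃ D ∈ S,
        2 ≤ finrank ℂ (U ⊓ LinearMap.ker (D - 1) : Submodule ℂ V) ∧
        2 ≤ finrank ℂ (U ⊓ LinearMap.ker (D + 1) : Submodule ℂ V)

/-- The double commutant. -/
def DC (S : Set (End ℂ V)) (A : End ℂ V) : Prop :=
  ∀ P : End ℂ V, (∀ D ∈ S, P * D = D * P) → P * A = A * P

/-- Orthogonal to the commutant. -/
def TF (S : Set (End ℂ V)) (A : End ℂ V) : Prop :=
  ∀ P : End ℂ V, (∀ D ∈ S, P * D = D * P) → LinearMap.trace ℂ V (A * P) = 0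

variable [FiniteDimensional ℂ V] {S : Set (End ℂ V)} {L : Submodule ℂ (End ℂ V)}
  {om : V →ₗ[ℂ] V →ₗ[ℂ] ℂ}

theorem Ctx.dc (k : Ctx S L om) {X : End ℂ V} (hX : X ∈ L) : DC S X :=
  fun P hP => comm_L k.gen hP X hX

/-- A dual submodule. -/
theorem Ctx.exists_dual (k : Ctx S L om) {U V₀ : Submodule ℂ V} (hV₀ : Stb L V₀)
    (h : ∃ u ∈ U, ∃ v ∈ V₀, om u v ≠ 0) :
    ∃ U' ≤ V₀, IrE L U' ∧ ∃ u ∈ U, ∃ v ∈ U', om u v ≠ 0 := by
  classical
  have hne : ∃ n : ℕ, ∃ W ≤ V₀, Stb L W ∧ (∃ u ∈ U, ∃ v ∈ W, om u v ≠ 0) ∧ finrank ℂ W = n :=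
    ⟨_, V₀, le_rfl, hV₀, h, rfl⟩
  obtain ⟨W, hW, hWs, hWo, hn⟩ := Nat.find_spec hne
  refine ⟨W, hW, ⟨?_, hWs, fun W' hW' hs' => ?_⟩, hWo⟩
  · rintro rfl
    obtain ⟨u, hu, v, hv, h1⟩ := hWo
    rw [Submodule.mem_bot] at hv
    exact h1 (by rw [hv, map_zero])
  · obtain ⟨Q, hQ, hQc⟩ := k.cr W' hs'
    have hsum : W ≤ W' ⊔ (W ⊓ Q) := by
      intro w hw
      have h1 : w ∈ W' ⊔ Q := by rw [hQc.sup_eq_top]; trivial
      obtain ⟨a, ha, q, hq, hwq⟩ := Submodule.mem_sup.1 h1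
      have h2 : q = w - a := by rw [← hwq, add_sub_cancel_left]
      rw [← hwq]
      refine Submodule.add_mem_sup ha ⟨?_, hq⟩
      rw [h2]
      exact W.sub_mem hw (hW' ha)
    have hmin : ∀ W'' ≤ W, Stb L W'' → (∃ u ∈ U, ∃ v ∈ W'', om u v ≠ 0) → W'' = W := by
      intro W'' h1 h2 h3
      have h4 := Nat.find_min' hne ⟨W'', h1.trans hW, h2, h3, rfl⟩
      rw [← hn] at h4
      exact Submodule.eq_of_le_of_finrank_le h1 h4
    obtain ⟨u, hu, v, hv, h1⟩ := hWo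
    obtain ⟨a, ha, q, hq, rfl⟩ := Submodule.mem_sup.1 (hsum hv)
    by_cases h2 : om u a = 0
    · left
      have h3 : om u q ≠ 0 := by
        rwa [map_add, h2, zero_add] at h1
      have h4 := hmin (W ⊓ Q) inf_le_left (hWs.inf hQ) ⟨u, hu, q, hq, h3⟩
      rw [eq_bot_iff, ← hQc.inf_eq_bot]
      refine le_inf le_rfl (hW'.trans ?_)
      rw [← h4]
      exact inf_le_right
    · right
      exact hmin W' hW' hs' ⟨u, hu, a, ha, h2⟩

/-- Duality. -/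
theorem Ctx.zero_dual (k : Ctx S L om) {U U' : Submodule ℂ V} (hU : Stb L U) (hU' : IrE L U')
    (h : ∃ u ∈ U, ∃ v ∈ U', om u v ≠ 0) {Y : End ℂ V} (hY : Skw om Y)
    (hYU' : ∀ v ∈ U', Y v ∈ U') (hYU : ∀ u ∈ U, Y u = 0) : ∀ v ∈ U', Y v = 0 := by
  have h1 : Stb L (U' ⊓ {
      carrier := {v | ∀ u ∈ U, om u v = 0}
      add_mem' := fun {x y} hx hy u' hu' => by
        rw [map_add, hx u' hu', hy u' hu', add_zero]
      zero_mem' := fun u' hu' => by rw [map_zero]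
      smul_mem' := fun c x hx u' hu' => by
        rw [map_smul, hx u' hu', smul_zero] : Submodule ℂ V}) := by
    rintro X hX v ⟨hv, hv1⟩
    refine ⟨hU'.2.1 X hX v hv, fun u hu => ?_⟩
    have h2 := k.skw X hX u v
    have h3 : om (X u) v = 0 := hv1 _ (hU X hX u hu)
    rwa [h3, zero_add] at h2
  rcases hU'.2.2 _ inf_le_left h1 with h2 | h2
  · intro v hv
    have h3 : Y v ∈ (⊥ : Submodule ℂ V) := by
      rw [← h2]
      refine ⟨hYU' v hv, fun u hu => ?_⟩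
      have h4 := hY u v
      rwa [hYU u hu, map_zero, LinearMap.zero_apply, zero_add] at h4
    exact (Submodule.mem_bot ℂ).1 h3
  · exfalso
    obtain ⟨u, hu, v, hv, h4⟩ := h
    apply h4
    rw [← h2] at hv
    exact hv.2 u hu

/-- The trace on a stable subspace. -/
theorem trace_pr {U : Submodule ℂ V} {A π : End ℂ V} (h1 : ∀ v, π v ∈ U) (h2 : ∀ u ∈ U, π u = u)
    (hA : ∀ u ∈ U, A u ∈ U) :
    LinearMap.trace ℂ V (A * π) = LinearMap.trace ℂ U (A.restrict hA) := by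
  let p : V →ₗ[ℂ] U := π.codRestrict U h1
  have e1 : A * π = U.subtype.comp ((A.restrict hA).comp p) := LinearMap.ext fun v => rfl
  have e2 : A.restrict hA = ((A.restrict hA).comp p).comp U.subtype := by
    refine LinearMap.ext fun u => Subtype.ext ?_
    change A u = A (π u)
    rw [h2 u u.2]
  rw [e1, LinearMap.trace_comp_comm', ← e2]

/-- Brackets are orthogonal to the commutant. -/
theorem Ctx.tf_br (k : Ctx S L om) {X Y : End ℂ V} (hX : X ∈ L) (hY : Y ∈ L) :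
    TF S (X * Y - Y * X) := by
  intro P hP
  have h1 := k.dc hX P hP
  rw [sub_mul, map_sub, mul_assoc Y X P, ← h1, ← mul_assoc, LinearMap.trace_mul_comm ℂ (Y * P) X,
    mul_assoc, k.dc hY P hP |>.symm, sub_self]

end Pool.Agent.N183.U8
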