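import Mathlib
import Pool.Agent.N183.U8.D5

/-!
# The local elements, and the theorem on the double commutant
-/

set_option autoImplicit false
set_option linter.unusedSectionVars false
set_option linter.unusedVariables false

namespace Pool.Agent.N183.U8

open Module

variable {V : Type} [AddCommGroup V] [Module ℂ V]

variable [FiniteDimensional ℂ V] {S : Set (End ℂ V)} {L : Submodule ℂ (End ℂ V)}
  {om : V →ₗ[ℂ] V →ₗ[ℂ] ℂ}

/-- The sum of the constituents without homomorphisms from two submodules. -/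
theorem Ctx.exists_rest2 (k : Ctx S L om) {U U' : Submodule ℂ V} (hU : Stb L U)
    (hU' : Stb L U') : ∃ R : Submodule ℂ V, Stb L R ∧ NoHom S U R ∧ NoHom S U' R ∧
      ∀ W, IrE L W → NoHom S U W → NoHom S U' W → W ≤ R := by
  classical
  have hne : ∃ n : ℕ, ∃ R : Submodule ℂ V, Stb L R ∧ NoHom S U R ∧ NoHom S U' R ∧
      finrank ℂ V - finrank ℂ R = n :=
    ⟨_, ⊥, Stb.bot, fun f _ hf u hu => by simpa using hf u hu,
      fun f _ hf u hu => by simpa using hf u hu, rfl⟩
  obtain ⟨R, hR, hUR, hUR', hn⟩ := Nat.find_spec hne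
  refine ⟨R, hR, hUR, hUR', fun W hW hUW hUW' => ?_⟩
  by_contra hcon
  have h1 : R < R ⊔ W := lt_of_le_of_ne le_sup_left fun h => hcon (h ▸ le_sup_right)
  have h2 := Submodule.finrank_lt_finrank_of_lt h1
  have h3 := Submodule.finrank_le (R ⊔ W)
  have h4 := Nat.find_min' hne ⟨R ⊔ W, hR.sup hW.2.1, noHom_sup k.SL k.cr hU hR hW hUR hUW,
    noHom_sup k.SL k.cr hU' hR hW hUR' hUW', rfl⟩
  omega

theorem Ctx.upgrade (k : Ctx S L om) {U R : Submodule ℂ V} (q : End ℂ U → Prop)
    (hq : ∀ A, q A → ∃ C ∈ L, (∀ u : U, C u = A u) ∧ ∀ r ∈ R, C r = 0)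
    (hp : ∀ P : Submodule ℂ (End ℂ U), (∀ A B, q A → q B → A * B - B * A ∈ P) →
      ∀ A, q A → A ∈ P) :
    ∀ A, q A → ∃ C ∈ L, (∀ u : U, C u = A u) ∧ (∀ r ∈ R, C r = 0) ∧ TF S C := by
  let P : Submodule ℂ (End ℂ U) :=
    { carrier := {A | ∃ C ∈ L, (∀ u : U, C u = A u) ∧ (∀ r ∈ R, C r = 0) ∧ TF S C}
      add_mem' := by
        rintro A B ⟨C, h1, h2, h3, h4⟩ ⟨C', h1', h2', h3', h4'⟩
        refine ⟨C + C', L.add_mem h1 h1', fun u => ?_, fun r hr => ?_, fun Q hQ => ?_⟩
        · rw [LinearMap.add_apply, h2, h2', LinearMap.add_apply, Submodule.coe_add]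
        · rw [LinearMap.add_apply, h3 r hr, h3' r hr, add_zero]
        · rw [add_mul, map_add, h4 Q hQ, h4' Q hQ, add_zero]
      zero_mem' := ⟨0, L.zero_mem, fun u => rfl, fun r hr => rfl, fun Q hQ => by
        rw [zero_mul, map_zero]⟩
      smul_mem' := by
        rintro c A ⟨C, h1, h2, h3, h4⟩
        refine ⟨c • C, L.smul_mem c h1, fun u => ?_, fun r hr => ?_, fun Q hQ => ?_⟩
        · rw [LinearMap.smul_apply, h2, LinearMap.smul_apply, Submodule.coe_smul]
        · rw [LinearMap.smul_apply, h3 r hr, smul_zero]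
        · rw [smul_mul_assoc, map_smul, h4 Q hQ, smul_zero] }
  intro A hA
  refine hp P (fun A B hA hB => ?_) A hA
  obtain ⟨C, h1, h2, h3⟩ := hq A hA
  obtain ⟨C', h1', h2', h3'⟩ := hq B hB
  refine ⟨C * C' - C' * C, k.br C h1 C' h1', fun u => ?_, fun r hr => ?_, k.tf_br h1 h1'⟩
  · rw [LinearMap.sub_apply, LinearMap.sub_apply, Submodule.coe_sub, End.mul_apply, End.mul_apply,
      End.mul_apply, End.mul_apply, h2', h2, h2, h2']
  · rw [LinearMap.sub_apply, End.mul_apply, End.mul_apply, h3' r hr, h3 r hr, map_zero, map_zero,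
      sub_zero]

/-- The element `C` of `L` has the restriction `A` to `U`, and it is zero on the irreducible
submodules which are not isomorphic to `U` or `U'`. -/
def Elt (S : Set (End ℂ V)) (L : Submodule ℂ (End ℂ V)) (U U' : Submodule ℂ V) (A : End ℂ U) :
    Prop :=
  ∃ C ∈ L, (∀ u : U, C u = A u) ∧ TF S C ∧
    ∀ W, IrE L W → ¬ NoHom S U W ∨ ¬ NoHom S U' W ∨ ∀ w ∈ W, C w = 0

/-- Elements of rank one which are not even. -/
theorem exists_odd {U : Type} [AddCommGroup U] [Module ℂ U] {D : End ℂ U} (h1 : D * D = 1)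
    (h2 : D ≠ 1) (h3 : D ≠ -1) : ∃ (x : U) (φ : Dual ℂ U), x ≠ 0 ∧ D x = x ∧ φ ≠ 0 ∧
      (∀ v, φ (D v) = -φ v) ∧ φ x = 0 := by
  have hDD : ∀ v, D (D v) = v := fun v => by
    rw [← End.mul_apply, h1]
    rfl
  obtain ⟨u, hu⟩ : ∃ u, D u ≠ -u := by
    by_contra hcon
    push Not at hcon
    exact h3 (LinearMap.ext hcon)
  obtain ⟨v, hv⟩ : ∃ v, D v ≠ v := by
    by_contra hcon
    push Not at hcon
    exact h2 (LinearMap.ext hcon)
  have hx : D (u + D u) = u + D u := by rw [map_add, hDD, add_comm]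
  have hx0 : u + D u ≠ 0 := fun h => hu (eq_neg_of_add_eq_zero_right h)
  have hy0 : v - D v ≠ 0 := fun h => hv (sub_eq_zero.1 h).symm
  obtain ⟨f, hf⟩ : ∃ f : Dual ℂ U, f (v - D v) ≠ 0 := by
    by_contra hcon
    push Not at hcon
    exact hy0 ((Module.forall_dual_apply_eq_zero_iff ℂ _).1 hcon)
  have hφ : ∀ w, (f - f.comp D) w = f w - f (D w) := fun w => rfl
  have h5 : ∀ w, (f - f.comp D) (D w) = -(f - f.comp D) w := fun w => by
    rw [hφ, hφ, hDD]
    ring
  refine ⟨u + D u, f - f.comp D, hx0, hx, fun h => ?_, h5, ?_⟩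
  · have h4 := LinearMap.congr_fun h v
    rw [hφ, LinearMap.zero_apply, ← map_sub] at h4
    exact hf h4
  · have h6 := h5 (u + D u)
    rw [hx] at h6
    linear_combination (1 / 2 : ℂ) * h6

/-- The local theorem. -/
theorem Ctx.core (hA : S_A) (hB : S_B) (hC : S_C) (hB' : S_Bsl) (hC' : S_Csl) (hF : S_F3)
    (k : Ctx S L om) {U U' : Submodule ℂ V} (hU : IrE L U) (hU' : IrE L U')
    (huu : ∃ u ∈ U, ∃ v ∈ U', om u v ≠ 0) (hl : Lc S L U) :
    (∀ (A : End ℂ V) (hAU : ∀ u ∈ U, A u ∈ U), Skw om A → DC S A → TF S A →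
      Elt S L U U' (A.restrict hAU)) ∧
    ∀ (D : End ℂ V) (hDU : ∀ u ∈ U, D u ∈ U), Skw om D → DC S D → D * D = 1 →
      (∀ c : ℂ, ∃ u ∈ U, D u ≠ c • u) →
        ∃ B : End ℂ U, Elt S L U U' B ∧ D.restrict hDU * B ≠ B * D.restrict hDU := by
  obtain ⟨N, hN, hN2, hN1⟩ := hl.rk
  have hFF : ∀ A : End ℂ V, Skw om A → DC S A → ∀ b : V →ₗ[ℂ] V →ₗ[ℂ] ℂ,
      (∀ X ∈ L, ∀ u ∈ U, ∀ v ∈ U, b (X u) v + b u (X v) = 0) →
      ∀ u ∈ U, ∀ v ∈ U, b (A u) v + b u (A v) = 0 := fun A h1 h2 b hb =>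
    hF V L om k.cr k.nd k.skw A h1 (fun P hP => h2 P fun D hD => hP D (k.SL D hD)) U hU.2.1 b hb
  -- involutions on `U`
  have hinv : ∀ (D : End ℂ V) (hDU : ∀ u ∈ U, D u ∈ U), D * D = 1 →
      (∀ c : ℂ, ∃ u ∈ U, D u ≠ c • u) → ∃ (x : U) (φ : Dual ℂ U), x ≠ 0 ∧
        D.restrict hDU x = x ∧ φ ≠ 0 ∧ (∀ v, φ (D.restrict hDU v) = -φ v) ∧ φ x = 0 := by
    intro D hDU hDD hns
    refine exists_odd (LinearMap.ext fun u => Subtype.ext ?_) (fun h => ?_) (fun h => ?_)
    · change D (D u) = u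
      rw [← End.mul_apply, hDD]
      rfl
    · obtain ⟨u, hu, h1⟩ := hns 1
      apply h1
      have h2 := congrArg Subtype.val (LinearMap.congr_fun h ⟨u, hu⟩)
      rw [one_smul]
      exact h2
    · obtain ⟨u, hu, h1⟩ := hns (-1)
      apply h1
      have h2 := congrArg Subtype.val (LinearMap.congr_fun h ⟨u, hu⟩)
      rw [neg_one_smul]
      exact h2
  by_cases hform : ∃ b : V →ₗ[ℂ] V →ₗ[ℂ] ℂ,
      (∀ X ∈ L, ∀ u ∈ U, ∀ v ∈ U, b (X u) v + b u (X v) = 0) ∧ ∃ u ∈ U, ∃ v ∈ U, b u v ≠ 0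
  · obtain ⟨b, hb, hb0⟩ := hform
    obtain ⟨R, hR, hUR, hRW⟩ := exists_rest (S := S) k.SL k.cr hU.2.1
    obtain ⟨h1, h2, h3⟩ := exists_elt' hA hB hC k.sq k.SL k.br k.gen k.cr hU.2.1 hU.2.2 hb hb0 hN
      hN1 hR hUR
    let β : U →ₗ[ℂ] U →ₗ[ℂ] ℂ := b.domRestrict₁₂ U U
    have hβ : ∀ u v : U, β u v = b u v := fun u v => rfl
    have h1' : ∀ u, β u u = 0 := fun u => h1 u u.2
    have h2' : ∀ u, (∀ v, β u v = 0) → u = 0 := fun u hu =>
      Subtype.ext (h2 u u.2 fun v hv => hu ⟨v, hv⟩)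
    obtain ⟨p, hp⟩ := LinearMap.exists_leftInverse_of_injective U.subtype
      (Submodule.ker_subtype U)
    have hp' : ∀ u : U, p (u : V) = u := fun u => LinearMap.congr_fun hp u
    have hup := k.upgrade (U := U) (R := R) (fun A => Skw β A) (fun A hAs => by
      have h4 : ∀ u : U, (U.subtype.comp (A.comp p)) (u : V) = A u := fun u => by
        change ((A (p u) : U) : V) = A u
        rw [hp']
      obtain ⟨C, hC1, hC2, hC3⟩ := h3 (U.subtype.comp (A.comp p)) (fun u hu => by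
        rw [h4 ⟨u, hu⟩]
        exact (A _).2) (fun u hu v hv => by
        rw [h4 ⟨u, hu⟩, h4 ⟨v, hv⟩]
        exact hAs ⟨u, hu⟩ ⟨v, hv⟩)
      exact ⟨C, hC1, fun u => by rw [hC2 u u.2, h4], hC3⟩)
      (fun P hP A hA => skw_perfect h1' h2' hP hA)
    have helt : ∀ A : End ℂ U, Skw β A → Elt S L U U' A := fun A hAs => by
      obtain ⟨C, hC1, hC2, hC3, hC4⟩ := hup A hAs
      refine ⟨C, hC1, hC2, hC4, fun W hW => ?_⟩
      by_cases hUW : NoHom S U W
      · exact Or.inr (Or.inr fun w hw => hC3 w (hRW W hW hUW hw))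
      · exact Or.inl hUW
    constructor
    · intro A hAU hAs hAc hAt
      exact helt _ fun u v => hFF A hAs hAc b hb u u.2 v v.2
    · intro D hDU hDs hDc hDD hDns
      obtain ⟨x, φ, hx0, hx, -, -, -⟩ := hinv D hDU hDD hDns
      refine ⟨nn β x x, helt _ (nn_skw h1' x x), fun hcon => ?_⟩
      have hDβ : ∀ u v, β (D.restrict hDU u) v + β u (D.restrict hDU v) = 0 := fun u v =>
        hFF D hDs hDc b hb u u.2 v v.2
      obtain ⟨v, hv⟩ : ∃ v, β x v ≠ 0 := by
        by_contra h4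
        push Not at h4
        exact hx0 (h2' x h4)
      have h4 := LinearMap.congr_fun hcon v
      rw [End.mul_apply, End.mul_apply, nn_apply, nn_apply, map_add, map_smul, hx] at h4
      have h5 : β x (D.restrict hDU v) = -β x v := by
        have h6 := hDβ x v
        rw [hx] at h6
        linear_combination h6
      rw [h5] at h4
      have h6 : (4 * β x v) • x = 0 := by
        have h7 : (β x v • x + β x v • x) - (-β x v • x + -β x v • x) = 0 := by
          rw [h4, sub_self]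
        rw [← h7]
        module
      rcases smul_eq_zero.1 h6 with h7 | h7
      · exact hv ((mul_eq_zero.1 h7).resolve_left (by norm_num))
      · exact hx0 h7
  · have hnf : ∀ b : V →ₗ[ℂ] V →ₗ[ℂ] ℂ,
        (∀ X ∈ L, ∀ u ∈ U, ∀ v ∈ U, b (X u) v + b u (X v) = 0) →
        ∀ u ∈ U, ∀ v ∈ U, b u v = 0 := by
      intro b hb u hu v hv
      by_contra hcon
      exact hform ⟨b, hb, u, hu, v, hv, hcon⟩
    have hbig := hl.alt.resolve_left hform
    have h3 : 3 ≤ finrank ℂ U := by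
      rcases hbig with h4 | ⟨D, hD, h4, h5⟩
      · exact h4.ge
      · have h6 : Disjoint (U ⊓ LinearMap.ker (D - 1)) (U ⊓ LinearMap.ker (D + 1)) := by
          rw [Submodule.disjoint_def]
          rintro x ⟨-, hx⟩ ⟨-, hx'⟩
          have h7 : D x - x = 0 := hx
          have h8 : D x + x = 0 := hx'
          have h9 : (2 : ℂ) • x = 0 := by
            have h10 : (D x + x) - (D x - x) = 0 := by rw [h7, h8, sub_self]
            rw [← h10]
            module
          exact (smul_eq_zero.1 h9).resolve_left two_ne_zero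
        have h7 := Submodule.finrank_add_finrank_le_of_disjoint h6
        have h8 : finrank ℂ ((U ⊓ LinearMap.ker (D - 1)) ⊔ (U ⊓ LinearMap.ker (D + 1)) :
            Submodule ℂ V) ≤ finrank ℂ U :=
          Submodule.finrank_mono (sup_le inf_le_left inf_le_left)
        have h9 := Submodule.finrank_sup_add_finrank_inf_eq (U ⊓ LinearMap.ker (D - 1))
          (U ⊓ LinearMap.ker (D + 1))
        rw [h6.eq_bot, finrank_bot] at h9
        omega
    obtain ⟨R, hR, hUR, hU'R, hRW⟩ := k.exists_rest2 hU.2.1 hU'.2.1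
    have hup := k.upgrade (U := U) (R := R) (fun A => LinearMap.trace ℂ U A = 0) (fun A hAt =>
      exists_elt_sl hA hB' hC' k.sq k.SL k.br k.gen k.cr hU.2.1 hU.2.2 hU'.2.1 k.skw huu h3 hl.ns
        hbig hnf hN hN2 hN1 hR hUR hU'R A hAt)
      (fun P hP A hA => tr0_perfect h3 hP hA)
    have helt : ∀ A : End ℂ U, LinearMap.trace ℂ U A = 0 → Elt S L U U' A := fun A hAt => by
      obtain ⟨C, hC1, hC2, hC3, hC4⟩ := hup A hAt
      refine ⟨C, hC1, hC2, hC4, fun W hW => ?_⟩
      by_cases hUW : NoHom S U W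
      · by_cases hUW' : NoHom S U' W
        · exact Or.inr (Or.inr fun w hw => hC3 w (hRW W hW hUW hUW' hw))
        · exact Or.inr (Or.inl hUW')
      · exact Or.inl hUW
    constructor
    · intro A hAU hAs hAc hAt
      obtain ⟨π, hπ1, hπ2, hπ3⟩ := exists_pr k.SL k.cr hU.2.1
      refine helt _ ?_
      rw [← trace_pr hπ1 hπ2 hAU]
      exact hAt π fun D hD => LinearMap.ext fun v => hπ3 D (k.SL D hD) v
    · intro D hDU hDs hDc hDD hDns
      obtain ⟨x, φ, hx0, hx, hφ0, hφ, hφx⟩ := hinv D hDU hDD hDns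
      refine ⟨φ.smulRight x, helt _ ?_, fun hcon => ?_⟩
      · rw [LinearMap.trace_smulRight, hφx]
      · apply hφ0
        refine LinearMap.ext fun v => ?_
        have h4 := LinearMap.congr_fun hcon v
        rw [End.mul_apply, End.mul_apply, LinearMap.smulRight_apply, LinearMap.smulRight_apply,
          map_smul, hx, hφ] at h4
        have h6 : (2 * φ v) • x = 0 := by
          have h7 : φ v • x - (-φ v) • x = 0 := by rw [h4, sub_self]
          rw [← h7]
          module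
        rcases smul_eq_zero.1 h6 with h7 | h7
        · exact (mul_eq_zero.1 h7).resolve_left two_ne_zero
        · exact absurd h7 hx0

/-- **The main theorem of linear algebra.** -/
theorem Ctx.main_mem (hA : S_A) (hB : S_B) (hC : S_C) (hB' : S_Bsl) (hC' : S_Csl) (hF : S_F3)
    (k : Ctx S L om) {A : End ℂ V} (hAs : Skw om A) (hAc : DC S A) (hAt : TF S A)
    (hgood : ∀ U, IrE L U → (∃ u ∈ U, A u ≠ 0) → Lc S L U) : A ∈ L := by
  classical
  have hAst := fun U hU => stab_of_comm k.SL k.cr hAc (U := U) hU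
  have hiso := fun Y hY U W hU hW hUW =>
    iso_zero k.SL k.gen k.cr (Y := Y) hY (U := U) (W := W) hU hW hUW
  -- induction
  have key : ∀ (n : ℕ) (C : End ℂ V), C ∈ L →
      (∀ W, IrE L W → (∀ w ∈ W, C w = A w) ∨ ∀ w ∈ W, C w = 0) →
      finrank ℂ V - finrank ℂ (sSup {W : Submodule ℂ V | IrE L W ∧ ∀ w ∈ W, C w = A w} :
        Submodule ℂ V) = n → A ∈ L := by
    intro n
    induction n using Nat.strong_induction_on with
    | _ n ih =>
      intro C hCL hCW hn
      set K : Submodule ℂ V := sSup {W : Submodule ℂ V | IrE L W ∧ ∀ w ∈ W, C w = A w} with hK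
      have hKst : Stb L K := by
        intro X hX
        change K ≤ K.comap X
        refine sSup_le fun W hW x hx => ?_
        exact (le_sSup hW : W ≤ K) (hW.1.2.1 X hX x hx)
      have hKA : ∀ v ∈ K, C v = A v := by
        have h1 : K ≤ LinearMap.ker (C - A) := by
          refine sSup_le fun W hW x hx => ?_
          rw [LinearMap.mem_ker, LinearMap.sub_apply, hW.2 x hx, sub_self]
        intro v hv
        have h2 := LinearMap.mem_ker.1 (h1 hv)
        rwa [LinearMap.sub_apply, sub_eq_zero] at h2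
      by_cases hKt : K = ⊤
      · have h1 : C = A := LinearMap.ext fun v => hKA v (by rw [hKt]; trivial)
        rwa [← h1]
      obtain ⟨Q, hQ, hQc⟩ := k.cr K hKst
      have hQ0 : Q ≠ ⊥ := by
        rintro rfl
        apply hKt
        have h1 := hQc.sup_eq_top
        rwa [sup_bot_eq] at h1
      obtain ⟨U, hUQ, hU⟩ := exists_irE _ Q rfl hQ0 hQ
      have hUK : ¬ ∀ u ∈ U, C u = A u := by
        intro h1
        have h2 : U ≤ K := le_sSup ⟨hU, h1⟩
        apply hU.1
        rw [eq_bot_iff, ← hQc.inf_eq_bot]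
        exact le_inf h2 hUQ
      have hCU : ∀ u ∈ U, C u = 0 := (hCW U hU).resolve_left hUK
      have hAU : ∃ u ∈ U, A u ≠ 0 := by
        by_contra hcon
        push Not at hcon
        exact hUK fun u hu => by rw [hCU u hu, hcon u hu]
      obtain ⟨U', -, hU', huu⟩ := k.exists_dual (U := U) (V₀ := ⊤) (fun X _ v _ => trivial) (by
        obtain ⟨u, hu, hu0⟩ := Submodule.exists_mem_ne_zero_of_ne_bot hU.1
        by_contra hcon
        push Not at hcon
        exact hu0 (k.nd u fun v => hcon u hu v trivial))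
      obtain ⟨C', hC'L, hC'U, -, hC'W⟩ := (k.core hA hB hC hB' hC' hF hU hU' huu
        (hgood U hU hAU)).1 A (hAst U hU.2.1) hAs hAc hAt
      have hC'U : ∀ u ∈ U, C' u = A u := fun u hu => hC'U ⟨u, hu⟩
      -- the submodules isomorphic to `U` or `U'`
      have hzd : ∀ Y : End ℂ V, Skw om Y → DC S Y → (∀ u ∈ U, Y u = 0) → ∀ W, IrE L W →
          (¬ NoHom S U W ∨ ¬ NoHom S U' W) → ∀ w ∈ W, Y w = 0 := by
        rintro Y hY hYc hYU W hW (h1 | h1)
        · exact (hiso Y hYc U W hU hW h1).1 hYU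
        · refine (hiso Y hYc U' W hU' hW h1).1 ?_
          exact k.zero_dual hU.2.1 hU' huu hY (stab_of_comm k.SL k.cr hYc hU'.2.1) hYU
      have hskw_sub : ∀ Y Y' : End ℂ V, Skw om Y → Skw om Y' → Skw om (Y - Y') := by
        intro Y Y' h1 h2 u v
        rw [LinearMap.sub_apply, LinearMap.sub_apply, map_sub, map_sub, LinearMap.sub_apply]
        linear_combination h1 u v - h2 u v
      have hdc_sub : ∀ Y Y' : End ℂ V, DC S Y → DC S Y' → DC S (Y - Y') := by
        intro Y Y' h1 h2 P hP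
        rw [mul_sub, sub_mul, h1 P hP, h2 P hP]
      have hnew : ∀ W, IrE L W → (¬ NoHom S U W ∨ ¬ NoHom S U' W) →
          ∀ w ∈ W, (C + C') w = A w := by
        intro W hW hUW w hw
        have h1 := hzd (C' - A) (hskw_sub _ _ (k.skw _ hC'L) hAs) (hdc_sub _ _ (k.dc hC'L) hAc)
          (fun u hu => by rw [LinearMap.sub_apply, hC'U u hu, sub_self]) W hW hUW w hw
        have h2 := hzd C (k.skw _ hCL) (k.dc hCL) hCU W hW hUW w hw
        rw [LinearMap.sub_apply, sub_eq_zero] at h1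
        rw [LinearMap.add_apply, h2, h1, zero_add]
      have hold : ∀ W, IrE L W → ¬ (¬ NoHom S U W ∨ ¬ NoHom S U' W) →
          ∀ w ∈ W, (C + C') w = C w := by
        intro W hW hUW w hw
        rw [not_or, not_not, not_not] at hUW
        rcases hC'W W hW with h1 | h1 | h1
        · exact absurd hUW.1 h1
        · exact absurd hUW.2 h1
        · rw [LinearMap.add_apply, h1 w hw, add_zero]
      refine ih _ ?_ (C + C') (L.add_mem hCL hC'L) (fun W hW => ?_) rfl
      · rw [← hn]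
        have h1 : K < (sSup {W : Submodule ℂ V | IrE L W ∧ ∀ w ∈ W, (C + C') w = A w} :
            Submodule ℂ V) := by
          refine lt_of_le_of_ne (sSup_le fun W hW => le_sSup ⟨hW.1, fun w hw => ?_⟩) fun h2 => ?_
          · by_cases hUW : ¬ NoHom S U W ∨ ¬ NoHom S U' W
            · exact hnew W hW.1 hUW w hw
            · rw [hold W hW.1 hUW w hw, hW.2 w hw]
          · apply hUK
            have h3 : U ≤ K := by
              rw [h2]
              refine le_sSup ⟨hU, fun u hu => ?_⟩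
              rw [LinearMap.add_apply, hCU u hu, hC'U u hu, zero_add]
            exact fun u hu => hKA u (h3 hu)
        have h2 := Submodule.finrank_lt_finrank_of_lt h1
        have h3 := Submodule.finrank_le (sSup {W : Submodule ℂ V | IrE L W ∧
          ∀ w ∈ W, (C + C') w = A w} : Submodule ℂ V)
        omega
      · by_cases hUW : ¬ NoHom S U W ∨ ¬ NoHom S U' W
        · exact Or.inl (hnew W hW hUW)
        · rcases hCW W hW with h1 | h1
          · exact Or.inl fun w hw => by rw [hold W hW hUW w hw, h1 w hw]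
          · exact Or.inr fun w hw => by rw [hold W hW hUW w hw, h1 w hw]
  exact key _ 0 L.zero_mem (fun W _ => Or.inr fun w _ => rfl) rfl

/-- **Elements which do not commute with an involution.** -/
theorem Ctx.main_odd (hA : S_A) (hB : S_B) (hC : S_C) (hB' : S_Bsl) (hC' : S_Csl) (hF : S_F3)
    (k : Ctx S L om) {U U' : Submodule ℂ V} (hU : IrE L U) (hU' : IrE L U')
    (huu : ∃ u ∈ U, ∃ v ∈ U', om u v ≠ 0) (hl : Lc S L U) {D : End ℂ V} (hDs : Skw om D)
    (hDc : DC S D) (hDD : D * D = 1) (hns : ∀ c : ℂ, ∃ u ∈ U, D u ≠ c • u) :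
    ∃ C ∈ L, C * D ≠ D * C ∧ TF S C ∧
      ∀ W, IrE L W → ¬ NoHom S U W ∨ ¬ NoHom S U' W ∨ ∀ w ∈ W, C w = 0 := by
  have hDU : ∀ u ∈ U, D u ∈ U := stab_of_comm k.SL k.cr hDc hU.2.1
  obtain ⟨B, ⟨C, h1, h2, h3, h4⟩, h5⟩ := (k.core hA hB hC hB' hC' hF hU hU' huu hl).2 D hDU hDs
    hDc hDD hns
  refine ⟨C, h1, fun h6 => h5 (LinearMap.ext fun u => Subtype.ext ?_), h3, h4⟩
  change D (B u) = B (D.restrict hDU u)
  rw [← h2, ← h2]
  exact (LinearMap.congr_fun h6 u).symm

end Pool.Agent.N183.U8
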