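import Mathlib
import Pool.Agent.N183.U8.D6
import Pool.Agent.N183.U6.Mt
import Pool.Agent.N707.GSF4

/-!
# Application to abelian varieties: the setting
-/

set_option linter.unusedSectionVars false
set_option linter.unusedVariables false

namespace Pool.Agent.N183.U8

open Matrix Module Pool.Agent.W437.HC Pool.Agent.W437.HD Pool.Agent.W548.Odd
open Pool.Agent.H204R3.SP Pool.Agent.H204R3.GP Pool.Agent.Y90 Pool.Agent.Y224.TS
open Pool.Agent.W437.HP (cK cK_mul cK_one)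
open Pool.Agent.N183.TS

noncomputable section

section one

variable {G : ℕ} {Z : Matrix (Fin G) (Fin G) ℂ}
  {S : Set (Matrix (Fin G ⊕ Fin G) (Fin G ⊕ Fin G) ℂ)}

theorem stb_iff {L : Submodule ℂ (Matrix (Fin G ⊕ Fin G) (Fin G ⊕ Fin G) ℂ)}
    {U : Submodule ℂ (Fin G ⊕ Fin G → ℂ)} : Stb (GG L) U ↔ Stab L U := stab_GG

theorem irE_iff {L : Submodule ℂ (Matrix (Fin G ⊕ Fin G) (Fin G ⊕ Fin G) ℂ)}
    {U : Submodule ℂ (Fin G ⊕ Fin G → ℂ)} : IrE (GG L) U ↔ IrS L U := by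
  unfold IrE IrS
  rw [stb_iff]
  refine and_congr Iff.rfl (and_congr Iff.rfl (forall_congr' fun W => ?_))
  rw [stb_iff]

theorem ctx_of (h : TD Z S) : Ctx (ph (Fin G ⊕ Fin G) '' S) (GG (Y224.TS.LT S)) (om G) where
  sq := by
    rintro _ ⟨D, hD, rfl⟩
    rw [← map_mul, h.sq D hD, map_one]
  SL := by
    rintro _ ⟨D, hD, rfl⟩
    exact mem_GG.2 (LT_gen hD)
  br := by
    intro A hA B hB
    obtain ⟨A, hA', rfl⟩ := exists_GG hA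
    obtain ⟨B, hB', rfl⟩ := exists_GG hB
    rw [← map_mul, ← map_mul, ← map_sub]
    exact mem_GG.2 (LT_br hA' hB')
  gen := by
    intro L' h1 h2 y hy
    obtain ⟨A, hA, rfl⟩ := exists_GG hy
    have h3 : Y224.TS.LT S ≤ L'.comap (ph (Fin G ⊕ Fin G)).toLinearMap := by
      refine LT_le (fun D hD => ?_) (fun A hA C hC => ?_)
      · exact h1 (ph _ D) ⟨D, hD, rfl⟩
      · change ph _ (A * C - C * A) ∈ L'
        rw [map_sub, map_mul, map_mul]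
        exact h2 _ hA _ hC
    exact h3 hA
  cr := by
    intro U hU
    obtain ⟨π, h1, h2, h3⟩ := h.cr U (stb_iff.1 hU)
    refine ⟨LinearMap.ker π, ?_, ?_⟩
    · intro y hy u hu
      obtain ⟨A, hA, rfl⟩ := exists_GG hy
      rw [LinearMap.mem_ker] at hu ⊢
      change π (A *ᵥ u) = 0
      rw [h1 A hA, hu, mulVec_zero]
    · have h4 := LinearMap.isCompl_of_proj (f := π.codRestrict U h2)
        fun x => Subtype.ext (h3 x x.2)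
      rwa [LinearMap.ker_codRestrict] at h4
  skw := by
    intro X hX u v
    obtain ⟨X, hX', rfl⟩ := exists_GG hX
    exact h.sp' hX' u v
  nd := fun u hu => om_nd u hu

/-- The local conditions, for matrices. -/
structure Lm (S : Set (Matrix (Fin G ⊕ Fin G) (Fin G ⊕ Fin G) ℂ))
    (U : Submodule ℂ (Fin G ⊕ Fin G → ℂ)) : Prop where
  ns : ∀ D ∈ S, ∀ c : ℂ, ∃ u ∈ U, D *ᵥ u ≠ c • u
  rk : Rk1T S U
  alt : (∃ b : (Fin G ⊕ Fin G → ℂ) →ₗ[ℂ] (Fin G ⊕ Fin G → ℂ) →ₗ[ℂ] ℂ,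
      (∀ X ∈ Y224.TS.LT S, ∀ u ∈ U, ∀ v ∈ U, b (X *ᵥ u) v + b u (X *ᵥ v) = 0) ∧
      ∃ u ∈ U, ∃ v ∈ U, b u v ≠ 0) ∨ finrank ℂ U = 3 ∨ ∃ D ∈ S,
        2 ≤ finrank ℂ (es (ph (Fin G ⊕ Fin G) D) U 1) ∧
        2 ≤ finrank ℂ (es (ph (Fin G ⊕ Fin G) D) U (-1))

theorem Lm.lc {U : Submodule ℂ (Fin G ⊕ Fin G → ℂ)} (k : Lm S U) :
    Lc (ph (Fin G ⊕ Fin G) '' S) (GG (Y224.TS.LT S)) U where
  ns := by
    rintro _ ⟨D, hD, rfl⟩ c
    exact k.ns D hD c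
  rk := by
    obtain ⟨D, hD, ε, hε, N, hN, h1, h2, h3⟩ := k.rk
    refine ⟨ph _ N, mem_GG.2 hN, ?_, h3⟩
    rw [← map_mul]
    have h4 : N * N = 0 := by
      have h3 : N * N = -(N * N) := by
        calc N * N = N * ((ε • D) * N) := by rw [h1]
          _ = -(N * N) := by rw [← mul_assoc, h2, neg_mul]
      have h4 : (2 : ℂ) • (N * N) = 0 := by
        rw [two_smul]
        nth_rewrite 1 [h3]
        rw [neg_add_cancel]
      exact (smul_eq_zero.1 h4).resolve_left two_ne_zero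
    rw [h4, map_zero]
  alt := by
    rcases k.alt with ⟨b, hb, h0⟩ | h1 | ⟨D, hD, h1, h2⟩
    · refine Or.inl ⟨b, fun X hX u hu v hv => ?_, h0⟩
      obtain ⟨X, hX', rfl⟩ := exists_GG hX
      exact hb X hX' u hu v hv
    · exact Or.inr (Or.inl h1)
    · refine Or.inr (Or.inr ⟨_, ⟨D, hD, rfl⟩, ?_, ?_⟩)
      · have h3 : es (ph (Fin G ⊕ Fin G) D) U 1 =
            U ⊓ LinearMap.ker (ph (Fin G ⊕ Fin G) D - 1) := by
          unfold es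
          rw [one_smul]
        rw [← h3]
        exact h1
      · have h3 : es (ph (Fin G ⊕ Fin G) D) U (-1) =
            U ⊓ LinearMap.ker (ph (Fin G ⊕ Fin G) D + 1) := by
          unfold es
          rw [neg_one_smul ℂ (1 : End ℂ (Fin G ⊕ Fin G → ℂ)), sub_neg_eq_add]
        rw [← h3]
        exact h2

end one

section fac

variable {G a : ℕ} {Z : Matrix (Fin G) (Fin G) ℂ} {Z' : Matrix (Fin a) (Fin a) ℂ}
  {E : Matrix (Fin G ⊕ Fin G) (Fin a ⊕ Fin a) ℚ} {F : Matrix (Fin a ⊕ Fin a) (Fin G ⊕ Fin G) ℚ}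
  {S : Set (Matrix (Fin G ⊕ Fin G) (Fin G ⊕ Fin G) ℂ)}

/-- Transport from a factor. -/
theorem Lm.of_fac (h : TD Z S) (hf : Fac Z Z' E F) (hZ : PM Z)
    {U : Submodule ℂ (Fin G ⊕ Fin G → ℂ)} (hU : IrS (LZ Z) U) (h0 : ∃ u ∈ U, ml F u ≠ 0)
    (k : Lm (SF E F S) (U.map (ml F))) : Lm S U := by
  have hinj := hf.inj hU h0
  have hU' : IrS (Y224.TS.LT S) U := (h.irS hZ).2 hU
  have hfr : finrank ℂ (U.map (ml F)) = finrank ℂ U := finrank_ml hinj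
  have hes : ∀ D ∈ S, ∀ c : ℂ,
      (es (ph (Fin G ⊕ Fin G) D) U c).map (ml F) =
        es (ph (Fin a ⊕ Fin a) (cK ℂ F * D * cK ℂ E)) (U.map (ml F)) c := by
    intro D hD c
    ext x
    constructor
    · rintro ⟨u, hu, rfl⟩
      obtain ⟨h1, h2⟩ := mem_es.1 hu
      refine mem_es.2 ⟨⟨u, h1, rfl⟩, ?_⟩
      change (cK ℂ F * D * cK ℂ E) *ᵥ ml F u = _
      rw [← actT hf h (LT_gen hD)]
      rw [show D *ᵥ u = c • u from h2, map_smul]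
    · intro hx
      obtain ⟨⟨u, hu, rfl⟩, h2⟩ := mem_es.1 hx
      refine ⟨u, mem_es.2 ⟨hu, ?_⟩, rfl⟩
      change (cK ℂ F * D * cK ℂ E) *ᵥ ml F u = _ at h2
      rw [← actT hf h (LT_gen hD), ← map_smul, ← sub_eq_zero, ← map_sub] at h2
      exact sub_eq_zero.1 (hinj _ (U.sub_mem (hU'.2.1 D (LT_gen hD) u hu) (U.smul_mem c hu)) h2)
  refine ⟨fun D hD c => ?_, k.rk.of_fac h hf hZ hU h0, ?_⟩
  · obtain ⟨_, ⟨u, hu, rfl⟩, h1⟩ := k.ns _ ⟨D, hD, rfl⟩ c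
    refine ⟨u, hu, fun h2 => h1 ?_⟩
    rw [← actT hf h (LT_gen hD), h2, map_smul]
  · rcases k.alt with ⟨b, hb, _, ⟨u, hu, rfl⟩, _, ⟨v, hv, rfl⟩, h1⟩ | h1 | ⟨_, ⟨D, hD, rfl⟩, h1, h2⟩
    · refine Or.inl ⟨b.compl₁₂ (ml F) (ml F), fun X hX u hu v hv => ?_, u, hu, v, hv, h1⟩
      rw [LinearMap.compl₁₂_apply, LinearMap.compl₁₂_apply, actT hf h hX, actT hf h hX]
      exact hb _ (compT hf h hX) _ ⟨u, hu, rfl⟩ _ ⟨v, hv, rfl⟩
    · exact Or.inr (Or.inl (by rw [← hfr, h1]))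
    · refine Or.inr (Or.inr ⟨D, hD, ?_, ?_⟩)
      · rw [← finrank_ml (F := F) (U := es (ph (Fin G ⊕ Fin G) D) U 1)
          (fun u hu => hinj u (mem_es.1 hu).1), hes D hD]
        exact h1
      · rw [← finrank_ml (F := F) (U := es (ph (Fin G ⊕ Fin G) D) U (-1))
          (fun u hu => hinj u (mem_es.1 hu).1), hes D hD]
        exact h2

end fac

section cls

variable {g : ℕ} {Z : Matrix (Fin g) (Fin g) ℂ}
  {S : Set (Matrix (Fin g ⊕ Fin g) (Fin g ⊕ Fin g) ℂ)}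

theorem two_le_of_ns {U : Submodule ℂ (Fin g ⊕ Fin g → ℂ)} (hU : IrS (LZ Z) U)
    (hns : ∀ c : ℂ, ∃ u ∈ U, DZ Z *ᵥ u ≠ c • u) : 2 ≤ finrank ℂ U := by
  by_contra hcon
  have h1 : finrank ℂ U = 1 := by
    have h2 : finrank ℂ U ≠ 0 := fun h => hU.1 (Submodule.finrank_eq_zero.1 h)
    omega
  obtain ⟨v, hv0, hv⟩ := finrank_eq_one_iff'.1 h1
  obtain ⟨c, hc⟩ := hv ⟨DZ Z *ᵥ v, hU.2.1 _ DZ_mem v v.2⟩
  obtain ⟨u, hu, h2⟩ := hns c
  apply h2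
  obtain ⟨d, hd⟩ := hv ⟨u, hu⟩
  have e1 : u = d • (v : Fin g ⊕ Fin g → ℂ) := (congrArg Subtype.val hd).symm
  have e2 : DZ Z *ᵥ (v : Fin g ⊕ Fin g → ℂ) = c • (v : Fin g ⊕ Fin g → ℂ) :=
    (congrArg Subtype.val hc).symm
  rw [e1, mulVec_smul, e2, smul_comm]

theorem DS_refl' : DS Z (RingEquiv.refl ℂ) = DZ Z := by
  ext i j
  rfl

/-- The local conditions on a simple factor. -/
theorem Lm.of_loc (hF4 : S_F4) (h : TD Z S) (hZ : PM Z) {U : Submodule ℂ (Fin g ⊕ Fin g → ℂ)}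
    (hU : IrS (LZ Z) U) (hns : ∀ (σ : ℂ ≃+* ℂ) (c : ℂ), ∃ u ∈ U, DS Z σ *ᵥ u ≠ c • u)
    (hrk : Rk1T S U) (halt : SDu Z U ∨ finrank ℂ U ≤ 3 ∨
      ∃ σ : ℂ ≃+* ℂ, 2 ≤ pd Z (cjS σ U) ∧ 2 ≤ qd Z (cjS σ U)) : Lm S U := by
  have hns' : ∀ D ∈ S, ∀ c : ℂ, ∃ u ∈ U, D *ᵥ u ≠ c • u := fun D hD c =>
    h.nonscalar hZ hD hU.2.1 hns c
  refine ⟨hns', hrk, ?_⟩
  rcases halt with ⟨b, h0, hb⟩ | h3 | ⟨σ, h1, h2⟩
  · exact Or.inl ⟨b, (h.bil_on hZ hU.2.1 hU.2.1 b).2 hb, h0⟩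
  · have h2 := two_le_of_ns hU fun c => hns (RingEquiv.refl ℂ) c
    rcases (show finrank ℂ U = 2 ∨ finrank ℂ U = 3 by omega) with h4 | h4
    · left
      have k := ctx_of h
      obtain ⟨b, hb, h0⟩ := hF4 _ _ _ k.sq k.SL k.gen U (stb_iff.2 ((h.stab hZ).2 hU.2.1)) h4 (by
        rintro _ ⟨D, hD, rfl⟩ c
        exact hns' D hD c)
      exact ⟨b, fun X hX u hu v hv => hb (ph _ X) (mem_GG.2 hX) u hu v hv, h0⟩
    · exact Or.inr (Or.inl h4)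
  · obtain ⟨D, hD, hσ⟩ := h.ex σ.symm
    obtain ⟨d1, d2⟩ := h.dims hZ hD hσ hU.2.1
    rw [RingEquiv.symm_symm] at d1 d2
    exact Or.inr (Or.inr ⟨D, hD, by rw [d1]; exact h1, by rw [d2]; exact h2⟩)

end cls

end

end Pool.Agent.N183.U8
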