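import Mathlib
import Pool.Agent.N183.U6.Stm
import Pool.Agent.N183.U5.Stm2

/-!
# Classes of simple abelian varieties without complex multiplication

See `Pool.Agent.Y90.Defs` (`AV`, `IsHom`), `Pool.Agent.R915.Stm` (`IsSimple`, `HasCMult`, `RealMax`,
`EndQuad`), `Pool.Agent.N183.TS.Stm` (`RealOdd`), `Pool.Agent.N183.U5.Stm` (`MaxField`, `CopMult`),
`Pool.Agent.N183.U5.Stm2` (`QuadThree`) and `Pool.Agent.N183.U6.Stm` (`GalMultTwo`).
-/

namespace Pool.Agent.N183.U8

open Module Pool.Agent.Y90 Pool.Agent.R915 Polynomial TensorProduct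
open Pool.Agent.N183.TS (RealOdd)
open Pool.Agent.N183.U5 (MaxField CopMult QuadThree)
open Pool.Agent.N183.U6 (GalMultTwo)

/-- `ℚ[a]` is a maximal subfield of the endomorphism algebra of `Y` and `a` acts as `Ψ` on the
tangent space. All embeddings `s` of `ℚ[a]` occur in the tangent space, and the relative dimension
`r = 2 dim(Y) / [ℚ[a] : ℚ]` is at most three, or for some `s` both `s` and its complex conjugate have
multiplicity at least two. -/
def Wide (Y : AV) : Prop :=
  ∃ (a : Module.End ℚ Y.H) (Ψ : Module.End ℂ Y.T), MaxField Y a ∧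
    (∀ v, Ψ (Y.per v) = Y.per (a v)) ∧
    (∀ s : ℂ, aeval s (minpoly ℚ a) = 0 → Ψ.eigenspace s ≠ ⊥) ∧
    (finrank ℚ Y.H ≤ 3 * (minpoly ℚ a).natDegree ∨
      ∃ s : ℂ, 2 ≤ finrank ℂ (Ψ.eigenspace s) ∧
        2 ≤ finrank ℂ (Ψ.eigenspace ((starRingEnd ℂ) s)))

variable {K : Type} [Field K] [CharZero K] [Algebra K ℂ] {Γ : Type} [Group Γ]

/-- The classes of simple abelian varieties without complex multiplication:
* the dimension is at most three;
* Albert type I or II, of relative dimension at most three or odd;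
* Albert type I or II, with elements of the Galois group as in `GalMultTwo`;
* `Wide` (type IV), with an imaginary quadratic field and multiplicities at most three, or with
  coprime multiplicities, or with elements of the Galois group as in `GalMultTwo`. -/
def GoodNC (X : AV) (ρ : Representation K Γ (K ⊗[ℚ] X.H)) (Y : AV) : Prop :=
  (finrank ℚ Y.H ≤ 6 ∧ ¬ HasCMult Y) ∨ RealOdd Y ∨ ((∃ a, RealMax Y a) ∧ GalMultTwo X ρ Y) ∨
    (Wide Y ∧ (QuadThree Y ∨ CopMult Y ∨ GalMultTwo X ρ Y))

end Pool.Agent.N183.U8
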