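import Mathlib
import Pool.Agent.N183.U8.E1
import Pool.Agent.N183.U8.StmA

/-!
# The local conditions for the classes of simple abelian varieties
-/

set_option linter.unusedSectionVars false
set_option linter.unusedVariables false

namespace Pool.Agent.N183.U8

open Matrix Module Pool.Agent.W437.HC Pool.Agent.W437.HD Pool.Agent.W548.Odd Pool.Agent.W522.U
open Pool.Agent.H204R3.SP Pool.Agent.H204R3.GP Pool.Agent.Y90 Pool.Agent.Y224.TS TensorProduct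
open Pool.Agent.W437.HP (cK cK_mul cK_one)
open Pool.Agent.R915 (VE mem_VE VE_cj VE_main VE_stab commL_of pd_sig eig_conj root_conj hom_iff
  hom_iff' CentM aeval_eig HasCMult RealMax)
open Pool.Agent.N183.TS Pool.Agent.N183.U5 Pool.Agent.N183.U6
open Polynomial

noncomputable section

variable {g : ℕ} {Z : Matrix (Fin g) (Fin g) ℂ}
  {S : Set (Matrix (Fin g ⊕ Fin g) (Fin g ⊕ Fin g) ℂ)}

/-- Transport along an isomorphism. -/
theorem Lm.of_map (h : TD Z S) (hZ : PM Z) {U : Submodule ℂ (Fin g ⊕ Fin g → ℂ)}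
    (hU : IrS (LZ Z) U) {T : (Fin g ⊕ Fin g → ℂ) →ₗ[ℂ] (Fin g ⊕ Fin g → ℂ)}
    (hT : ∀ X ∈ LZ Z, ∀ u ∈ U, T (X *ᵥ u) = X *ᵥ T u) (hi : ∀ u ∈ U, T u = 0 → u = 0)
    (k : Lm S (U.map T)) : Lm S U := by
  have hT' := (h.eqv_on hZ hU.2.1 T).2 hT
  have hU' := (h.irS hZ).2 hU
  have hfr : finrank ℂ (U.map T) = finrank ℂ U := finrank_map_of_inj hi
  have hes : ∀ D ∈ S, ∀ c : ℂ, (es (ph (Fin g ⊕ Fin g) D) U c).map T =
      es (ph (Fin g ⊕ Fin g) D) (U.map T) c := by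
    intro D hD c
    ext x
    constructor
    · rintro ⟨u, hu, rfl⟩
      obtain ⟨h1, h2⟩ := mem_es.1 hu
      refine mem_es.2 ⟨⟨u, h1, rfl⟩, ?_⟩
      change D *ᵥ T u = _
      rw [← hT' D (LT_gen hD) u h1, show D *ᵥ u = c • u from h2, map_smul]
    · intro hx
      obtain ⟨⟨u, hu, rfl⟩, h2⟩ := mem_es.1 hx
      refine ⟨u, mem_es.2 ⟨hu, ?_⟩, rfl⟩
      change D *ᵥ T u = _ at h2
      rw [← hT' D (LT_gen hD) u hu, ← map_smul, ← sub_eq_zero, ← map_sub] at h2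
      exact sub_eq_zero.1 (hi _ (U.sub_mem (hU'.2.1 D (LT_gen hD) u hu) (U.smul_mem c hu)) h2)
  refine ⟨fun D hD c => ?_, U5.Rk1T.of_map h hZ hU hT hi k.rk, ?_⟩
  · obtain ⟨_, ⟨u, hu, rfl⟩, h1⟩ := k.ns _ hD c
    refine ⟨u, hu, fun h2 => h1 ?_⟩
    rw [← hT' D (LT_gen hD) u hu, h2, map_smul]
  · rcases k.alt with ⟨b, hb, _, ⟨u, hu, rfl⟩, _, ⟨v, hv, rfl⟩, h1⟩ | h1 | ⟨D, hD, h1, h2⟩
    · refine Or.inl ⟨b.compl₁₂ T T, fun X hX u hu v hv => ?_, u, hu, v, hv, h1⟩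
      rw [LinearMap.compl₁₂_apply, LinearMap.compl₁₂_apply, hT' X hX u hu, hT' X hX v hv]
      exact hb _ hX _ ⟨u, hu, rfl⟩ _ ⟨v, hv, rfl⟩
    · exact Or.inr (Or.inl (by rw [← hfr, h1]))
    · refine Or.inr (Or.inr ⟨D, hD, ?_, ?_⟩)
      · rw [← finrank_map_of_inj (T := T) (U := es (ph (Fin g ⊕ Fin g) D) U 1)
          (fun u hu => hi u (mem_es.1 hu).1), hes D hD]
        exact h1
      · rw [← finrank_map_of_inj (T := T) (U := es (ph (Fin g ⊕ Fin g) D) U (-1))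
          (fun u hu => hi u (mem_es.1 hu).1), hes D hD]
        exact h2

/-- The irreducible submodules are not self-dual for the type IV. -/
theorem no_form (h : TD Z S) (hZ : PM Z) {U : Submodule ℂ (Fin g ⊕ Fin g → ℂ)}
    (hU : IrS (LZ Z) U) {C : Matrix (Fin g ⊕ Fin g) (Fin g ⊕ Fin g) ℚ} (hC : CentM Z C)
    (hreal : ∀ x : ℝ, aeval (x : ℂ) (minpoly ℚ C) ≠ 0)
    {b : (Fin g ⊕ Fin g → ℂ) →ₗ[ℂ] (Fin g ⊕ Fin g → ℂ) →ₗ[ℂ] ℂ}
    (hb : ∀ X ∈ Y224.TS.LT S, ∀ u ∈ U, ∀ v ∈ U, b (X *ᵥ u) v + b u (X *ᵥ v) = 0) :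
    ∀ u ∈ U, ∀ v ∈ U, b u v = 0 := by
  by_contra hcon
  push Not at hcon
  obtain ⟨u0, hu0, v0, hv0, h0⟩ := hcon
  have hnd := nd_left hU hU.2.1 ⟨u0, hu0, v0, hv0, h0⟩ ((h.bil_on hZ hU.2.1 hU.2.1 b).1 hb)
  let T0 : U →ₗ[ℂ] Dual ℂ U := b.compl₁₂ U.subtype U.subtype
  have hT0 : ∀ x y : U, T0 x y = b x y := fun _ _ => rfl
  obtain ⟨T, hT1, hT2, hT3⟩ := exists_T h hZ hU T0 (fun x hx => Subtype.ext (hnd x x.2 fun v hv => by
      have h1 := LinearMap.congr_fun hx ⟨v, hv⟩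
      exact h1)) (fun _ => 0) (fun X hX x y x' y' hx' hy' => by
      rw [hT0, hT0, hx', hy', zero_mul]
      exact hb X hX x x.2 y y.2)
  have hT4 : ∀ X ∈ Y224.TS.LT S, ∀ u ∈ U, T (X *ᵥ u) = X *ᵥ T u := fun X hX u hu => by
    rw [hT3 X hX u hu, zero_smul, add_zero]
  have hT5 := (h.eqv_on hZ hU.2.1 T).1 hT4
  obtain ⟨z, hz⟩ := cent_scalar hZ hC hU
  obtain ⟨u, hu, hu1⟩ := Submodule.exists_mem_ne_zero_of_ne_bot hU.1
  have e1 := label_iso hZ hC hU.2.1 hT5 hz u hu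
  have e2 : cjS cc U ≤ VE C (cc z) := by
    rw [← VE_cj]
    exact cjS_mono fun u hu => mem_VE.2 (hz u hu)
  have e3 := mem_VE.1 (e2 (hT1 u hu))
  rw [e1] at e3
  have e4 : (z - cc z) • T u = 0 := by rw [sub_smul, e3, sub_self]
  have e5 : cc z = z :=
    (sub_eq_zero.1 ((smul_eq_zero.1 e4).resolve_right fun h1 => hu1 (hT2 u hu h1))).symm
  obtain ⟨r, hr⟩ := Complex.conj_eq_iff_real.1 e5
  apply hreal r
  have h4 := aeval_eig (hz u hu) (minpoly ℚ C)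
  rw [minpoly.aeval] at h4
  have h5 : qm (0 : Matrix (Fin g ⊕ Fin g) (Fin g ⊕ Fin g) ℚ) = 0 := by
    ext i j
    simp [qm]
  rw [h5, zero_mulVec] at h4
  rw [← hr]
  exact (smul_eq_zero.1 h4.symm).resolve_right hu1

/-- Elements of rank one in the presence of a pseudo-reflection. -/
theorem rk1T_pseudo' (h : TD Z S) (h' : PM Z)
    {U : Submodule ℂ (Fin g ⊕ Fin g → ℂ)} (hU : IrS (LZ Z) U) (hn : 2 ≤ finrank ℂ U)
    (hns : ∀ (σ : ℂ ≃+* ℂ) (c : ℂ), ∃ u ∈ U, DS Z σ *ᵥ u ≠ c • u)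
    {s : End ℂ U} (hs : ∀ u, s u = 0 → u = 0) (hr : rk (s - 1) = 1)
    (hC : (∃ C : Matrix (Fin g ⊕ Fin g) (Fin g ⊕ Fin g) ℚ, CentM Z C ∧
      ∀ x : ℝ, aeval (x : ℂ) (minpoly ℚ C) ≠ 0) ∨ s * s ≠ 1)
    (hN : ∀ X ∈ resL (Y224.TS.LT S) U, ∀ Y : End ℂ U, Y * s = s * X →
      Y ∈ resL (Y224.TS.LT S) U) : Rk1T S U := by
  classical
  have hU' : IrS (Y224.TS.LT S) U := (h.irS h').2 hU
  let e : U ≃ₗ[ℂ] U := LinearEquiv.ofInjectiveEndo s (by
    rw [← LinearMap.ker_eq_bot, eq_bot_iff]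
    intro u hu
    exact hs u hu)
  have he : ∀ u, e u = s u := fun u => rfl
  let s' : End ℂ U := e.symm.toLinearMap
  have h1 : s * s' = 1 := LinearMap.ext fun u => e.apply_symm_apply u
  have h2 : s' * s = 1 := LinearMap.ext fun u => e.symm_apply_apply u
  have hbr : ∀ X ∈ resL (Y224.TS.LT S) U, ∀ Y ∈ resL (Y224.TS.LT S) U,
      X * Y - Y * X ∈ resL (Y224.TS.LT S) U :=
    resL_br (fun X hX Y hY => LT_br hX hY) U
  rcases rk1_of_pseudo hbr (fun W hW => res_irr h.sq hU' W fun X hX _ => hW X hX) hn h1 h2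
    (fun X hX => hN X hX _ (by rw [mul_assoc, h2, mul_one])) hr with
      ⟨x, hx, hx1⟩ | ⟨h3, T, μ, hT1, hT2⟩
  · exact rk1T_of_rk h h' hU hn hx hx1
  · exfalso
    obtain ⟨C, hC, hreal⟩ := hC.resolve_right (fun h4 => h4 h3)
    have k := ctx_of h
    have hUE : IrE (GG (Y224.TS.LT S)) U := irE_iff.2 hU'
    have h4 := no_semi k.sq k.SL k.gen hUE.2.1 hUE.2.2 (by
      rintro _ ⟨D, hD, rfl⟩ c
      exact h.nonscalar h' hD hU.2.1 hns c) (fun b hb => no_form h h' hU hC hreal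
        (fun X hX u hu v hv => hb (ph _ X) (mem_GG.2 hX) u hu v hv)) T μ (by
      rintro A ⟨X, hX, hAX⟩ u v
      obtain ⟨X, hX', rfl⟩ := exists_GG hX
      exact hT2 A ⟨X, hX', hAX⟩ u v)
    obtain ⟨u0, hu0, hu00⟩ := Submodule.exists_mem_ne_zero_of_ne_bot hU.1
    apply hu00
    have h5 := hT1 ⟨u0, hu0⟩ (by rw [h4]; rfl)
    exact congrArg Subtype.val h5

/-- The local conditions for `Wide`. -/
theorem Wide.alt (hF4 : S_F4) (h : PM Z) (hT : TD Z S) (hs : R915.IsSimple (AVZ h)) (hg : 0 < g)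
    (k : Wide (AVZ h)) (hrk : ∀ U, IrS (LZ Z) U → (∀ W, IrS (LZ Z) W →
      ∀ (σ : ℂ ≃+* ℂ) (c : ℂ), ∃ u ∈ W, DS Z σ *ᵥ u ≠ c • u) → 2 ≤ finrank ℂ U → Rk1T S U)
    {U : Submodule ℂ (Fin g ⊕ Fin g → ℂ)} (hU : IrS (LZ Z) U) : Lm S U := by
  obtain ⟨a, Ψ, k, hΨ, hpos, hor⟩ := k
  have hs' := R915.simple_AVZ h hs
  set M := LinearMap.toMatrix' a with hM
  have hMm : minpoly ℚ M = minpoly ℚ a := minpoly_mat a
  have hpd : ∀ s, pd Z (VE M s) = finrank ℂ (Ψ.eigenspace s) := fun s => pd_mult h k hΨ s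
  have hqd : ∀ s, qd Z (VE M s) = finrank ℂ (Ψ.eigenspace (cc s)) := fun s => by
    rw [← pd_cc, VE_cj, hpd]
  have hps : ∀ s : ℂ, aeval s (minpoly ℚ M) = 0 → 0 < pd Z (VE M s) := by
    intro s hs0
    rw [hpd, Nat.pos_iff_ne_zero, ne_eq, Submodule.finrank_eq_zero]
    exact hpos s (by rw [← hMm]; exact hs0)
  have hns : ∀ U, IrS (LZ Z) U → ∀ (σ : ℂ ≃+* ℂ) (c : ℂ), ∃ u ∈ U, DS Z σ *ᵥ u ≠ c • u := by
    intro U hU σ c
    refine (k.mf h).ns h hs' hg (fun s hs0 => ⟨hps s hs0, ?_⟩) hU σ c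
    rw [hqd, ← hpd]
    exact hps _ (root_conj hs0 cc)
  obtain ⟨s, T, hs0, hne, hT1, hT2, hTU⟩ := (k.mf h).proj h hs' hg hU
  have hW := (k.mf h).irr h hs' hne
  refine Lm.of_map hT h hU hT1 hT2 ?_
  rw [hTU]
  have hdim := (k.mf h).dim h hs' hg hne
  refine Lm.of_loc hF4 hT h hW (hns _ hW) (hrk _ hW hns
    (two_le_of_ns hW fun c => by
      have h1 := hns _ hW (RingEquiv.refl ℂ) c
      rwa [DS_refl'] at h1)) ?_
  rcases hor with h3 | ⟨s', h3, h4⟩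
  · right
    left
    rw [R915.finrank_AVZ, ← hMm] at h3
    have hdeg : 0 < (minpoly ℚ M).natDegree := by
      rw [Nat.pos_iff_ne_zero]
      intro h5
      rw [← hM, h5, zero_mul] at hdim
      omega
    by_contra hcon
    rw [← hM] at hdim hcon
    have h5 : (minpoly ℚ M).natDegree * 4 ≤ (minpoly ℚ M).natDegree * finrank ℂ (VE M s) :=
      Nat.mul_le_mul_left _ (by omega)
    omega
  · right
    right
    -- the embedding `s'` is conjugate to `s`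
    have h5 : VE M s' ≠ ⊥ := by
      refine ne_bot_of_pd (Z := Z) ?_
      rw [hpd]
      omega
    obtain ⟨v, hv, hv0⟩ := Submodule.exists_mem_ne_zero_of_ne_bot h5
    obtain ⟨w, hw, hw0⟩ := Submodule.exists_mem_ne_zero_of_ne_bot hne
    obtain ⟨σ, hσ⟩ := eig_conj h hs' (k.mf h).comm hw0 (mem_VE.1 hw) hv0 (mem_VE.1 hv)
    refine ⟨σ, ?_, ?_⟩
    · rw [VE_cj, hσ, hpd]
      exact h3
    · rw [VE_cj, hσ, hqd]
      exact h4

section gal

variable {K : Type} [Field K] [CharZero K] [Algebra K ℂ] {Γ : Type} [Group Γ] {X : AV}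
  {ρ : Representation K Γ (K ⊗[ℚ] X.H)} {χ : Γ →* K} {G : ℕ} {Z : Matrix (Fin G) (Fin G) ℂ}
  {b : Basis (Fin G ⊕ Fin G) ℚ X.H} {a : ℕ} {Z' : Matrix (Fin a) (Fin a) ℂ}
  {E : Matrix (Fin G ⊕ Fin G) (Fin a ⊕ Fin a) ℚ} {F : Matrix (Fin a ⊕ Fin a) (Fin G ⊕ Fin G) ℚ}

/-- Elements of the Galois group. -/
theorem GalMultTwo.cls' (h' : PM Z') (hZ : PM Z)
    (hC : Cht (X.per.comp b.equivFun.symm.toLinearMap.toAddMonoidHom) (JR Z))
    (hT : TD Z (SH X.per ρ χ b)) (hf : Fac Z Z' E F) (hs : IsSimpleAV Z')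
    (ha : 0 < a) (hi : IsHom (AVZ h') X (inc h' b E)) (k : GalMultTwo X ρ (AVZ h'))
    (hns : ∀ U, IrS (LZ Z') U → ∀ (σ : ℂ ≃+* ℂ) (c : ℂ), ∃ u ∈ U, DS Z' σ *ᵥ u ≠ c • u)
    {U : Submodule ℂ (Fin a ⊕ Fin a → ℂ)} (hU : IrS (LZ Z') U) (hn : 2 ≤ finrank ℂ U) :
    Rk1T (SF E F (SH X.per ρ χ b)) U := by
  obtain ⟨f, k, hγ⟩ := k
  obtain ⟨s0, T, hs0, hne, hT1, hT2, hTU⟩ := (k.mf h').proj h' hs ha hU
  have hTD := tdF hf hT hZ h'
  refine U5.Rk1T.of_map hTD h' hU hT1 hT2 ?_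
  have hn' : 2 ≤ finrank ℂ (VE (LinearMap.toMatrix' f) s0) := by
    rw [← hTU, finrank_map_of_inj hT2]
    exact hn
  rw [hTU]
  have hIr := (k.mf h').irr h' hs hne
  have hst : ∀ γ' : Γ, (∀ a : X.H →ₗ[ℚ] X.H, Pool.Agent.Y90.St.IsHom X.per X.per a → ∀ v,
      ρ γ' (a.baseChange K v) = a.baseChange K (ρ γ' v)) →
      ∀ u ∈ VE (LinearMap.toMatrix' f) s0, Rf b E F ρ γ' *ᵥ u ∈ VE (LinearMap.toMatrix' f) s0 := by
    intro γ' hγ' u hu
    rw [mem_VE] at hu ⊢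
    rw [mulVec_mulVec, Rf_comm hC hf hγ' (k.mf h').comm, ← mulVec_mulVec, hu, mulVec_smul]
  rcases hγ s0 (by rw [← minpoly_mat]; exact hs0) with
    ⟨s, m, γ, t, t', ⟨hp1, hp2⟩, h4, hA, c, hc⟩ |
      ⟨γ, t, hA, n, w, α, A, iA, v, c, c', h1, h3, h4, h5, h6, h7⟩
  · -- pseudo-reflections
    set U1 := VE (LinearMap.toMatrix' f) s0 with hU1
    set e := eY K (bs a) with he
    have hmem : ∀ v, v ∈ VS K (AVZ h') f s0 ↔ e v ∈ U1 := fun v => mem_VS h'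
    have hmem' : ∀ u, u ∈ U1 → e.symm u ∈ VS K (AVZ h') f s0 := fun u hu => by
      rw [hmem, e.apply_symm_apply]
      exact hu
    -- the operator in coordinates
    have hst1 : ∀ u ∈ U1, e (s (e.symm u)) ∈ U1 := fun u hu => by
      rw [← hmem]
      exact (hp1 _ (hmem' u hu)).1
    let s1 : End ℂ U1 := ((e.toLinearMap.comp s).comp e.symm.toLinearMap).restrict hst1
    have hs1 : ∀ u : U1, ((s1 u : U1) : Fin a ⊕ Fin a → ℂ) = e (s (e.symm (u : _))) := fun u => rfl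
    have hs1' : ∀ u : U1, s (e.symm (u : Fin a ⊕ Fin a → ℂ)) = e.symm (s1 u : U1) := fun u => by
      rw [hs1, e.symm_apply_apply]
    refine rk1T_pseudo' hTD h' hIr hn' (hns _ hIr) (s := s1) (fun u hu => ?_) ?_ ?_ ?_
    · have h5 := (hp1 _ (hmem' u u.2)).2 (by
        rw [hs1', hu]
        exact map_zero _)
      exact Subtype.ext ((LinearEquiv.map_eq_zero_iff _).1 h5)
    · rw [← hp2]
      have h8 : (LinearMap.range (s1 - 1)).map U1.subtype =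
          ((VS K (AVZ h') f s0).map (s - 1)).map e.toLinearMap := by
        ext x
        simp only [Submodule.mem_map]
        constructor
        · rintro ⟨_, ⟨u, rfl⟩, rfl⟩
          refine ⟨_, ⟨e.symm u, hmem' u u.2, rfl⟩, ?_⟩
          change e (s (e.symm u) - e.symm u) = ((s1 u - u : U1) : Fin a ⊕ Fin a → ℂ)
          rw [map_sub, e.apply_symm_apply, Submodule.coe_sub, hs1]
        · rintro ⟨_, ⟨w, hw, rfl⟩, rfl⟩
          refine ⟨_, ⟨⟨e w, (hmem w).1 hw⟩, rfl⟩, ?_⟩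
          change ((s1 ⟨e w, _⟩ - ⟨e w, _⟩ : U1) : Fin a ⊕ Fin a → ℂ) = e (s w - w)
          rw [map_sub, Submodule.coe_sub, hs1, e.symm_apply_apply]
      unfold rk
      rw [← Submodule.finrank_map_subtype_eq, h8]
      exact LinearEquiv.finrank_map_eq e _
    · rcases h4 with h4 | ⟨w, hw, hw1⟩
      · exact Or.inl h4.cm
      · right
        intro h5
        apply hw1
        have h6 := congrArg Subtype.val (LinearMap.congr_fun h5 ⟨e w, (hmem w).1 hw⟩)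
        change ((s1 (s1 ⟨e w, _⟩) : U1) : Fin a ⊕ Fin a → ℂ) = e w at h6
        rw [hs1, hs1, e.symm_apply_apply, e.symm_apply_apply] at h6
        exact e.injective h6
    · rintro Y ⟨Y', hY', hYY⟩ R hR
      -- the elements of the Galois group
      have hmt : ∀ i, mt (bs a) ((t i).baseChange ℂ) = Rf b E F ρ (γ i) := fun i =>
        acts_mat h' hf (hA i).1 hi
      have hmt' : ∀ i, mt (bs a) ((t' i).baseChange ℂ) = Rf b E F ρ (γ i)⁻¹ := fun i =>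
        acts_mat h' hf (hA i).2 hi
      have hU1' : Stab (Y224.TS.LT (SF E F (SH X.per ρ χ b))) U1 := (hTD.stab h').2 hIr.2.1
      refine ⟨∑ i, c i • (Rf b E F ρ (γ i) * Y' * Rf b E F ρ (γ i)⁻¹),
        Submodule.sum_mem _ fun i _ => Submodule.smul_mem _ _
          (Rf_gen hC hf (hA i).1.1 hT hY'), fun u => ?_⟩
      -- surjectivity of the operator
      have hsinj : Function.Injective s1 := by
        rw [← LinearMap.ker_eq_bot, eq_bot_iff]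
        intro u hu
        have h5 := (hp1 _ (hmem' u u.2)).2 (by
          rw [hs1', LinearMap.mem_ker.1 hu]
          exact map_zero _)
        rw [Submodule.mem_bot]
        exact Subtype.ext ((LinearEquiv.map_eq_zero_iff _).1 h5)
      obtain ⟨u1, rfl⟩ := LinearMap.injective_iff_surjective.1 hsinj u
      have h5 : R (s1 u1) = s1 (Y u1) := LinearMap.congr_fun hR u1
      rw [h5, hs1, hYY]
      have h6 := hc ((e.symm.toLinearMap.comp (mulVecLin Y')).comp e.toLinearMap) (fun w hw => by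
        rw [hmem] at hw ⊢
        change e (e.symm (Y' *ᵥ e w)) ∈ U1
        rw [e.apply_symm_apply]
        exact hU1' _ hY' _ hw) (e.symm u1) (hmem' _ u1.2)
      have h7 : ((e.symm.toLinearMap.comp (mulVecLin Y')).comp e.toLinearMap) (e.symm u1) =
          e.symm (Y' *ᵥ u1) := by
        change e.symm (Y' *ᵥ e (e.symm u1)) = _
        rw [e.apply_symm_apply]
      rw [h7] at h6
      rw [h6, map_sum, sum_mulVec]
      refine Finset.sum_congr rfl fun i _ => ?_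
      rw [map_smul, smul_mulVec, ← hmt, ← hmt', mul_assoc, ← mulVec_mulVec, ← mulVec_mulVec,
        hs1]
      congr 1
      have h8 : ∀ (q : Module.End ℂ (ℂ ⊗[K] (K ⊗[ℚ] (AVZ h').H))) (x), mt (bs a) q *ᵥ e x =
          e (q x) := fun q x => mt_mulVec _ _ _
      rw [h8]
      change e ((t i).baseChange ℂ (e.symm (Y' *ᵥ e ((t' i).baseChange ℂ (s (e.symm u1)))))) = _
      rw [← h8, e.apply_symm_apply]
  · have hg : ∀ a : X.H →ₗ[ℚ] X.H, Pool.Agent.Y90.St.IsHom X.per X.per a → ∀ v,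
        ρ γ (a.baseChange K v) = a.baseChange K (ρ γ v) := hA.1
    have hmt := acts_mat h' hf hA hi
    refine rk1T_slopes hTD h' hIr hn' (Rf_inv hC hf hg) (fun X hX => Rf_gen (X := X) hC hf hg hT hX)
      (hst γ hg) (hst γ⁻¹ (comm_inv hg)) (w.map (eVS h' f s0)) α v (fun i => ?_) h3
      h4 h5 h6 h7
    rw [Basis.map_apply, eVS_coe, ← hmt, mt_mulVec, h1, map_smul]

/-- **The local conditions.** -/
theorem GoodNC.lm (hF4 : S_F4) (h' : PM Z') (hZ : PM Z)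
    (hC : Cht (X.per.comp b.equivFun.symm.toLinearMap.toAddMonoidHom) (JR Z))
    (hT : TD Z (SH X.per ρ χ b)) (hf : Fac Z Z' E F) (hs : R915.IsSimple (AVZ h'))
    (ha : 0 < a) (hi : IsHom (AVZ h') X (inc h' b E)) (k : GoodNC X ρ (AVZ h'))
    {U : Submodule ℂ (Fin a ⊕ Fin a → ℂ)} (hU : IrS (LZ Z') U) :
    Lm (SF E F (SH X.per ρ χ b)) U := by
  have hTD := tdF hf hT hZ h'
  have hs' := R915.simple_AVZ h' hs
  have h2 : ∀ U, IrS (LZ Z') U →
      (∀ (σ : ℂ ≃+* ℂ) (c : ℂ), ∃ u ∈ U, DS Z' σ *ᵥ u ≠ c • u) → 2 ≤ finrank ℂ U := by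
    intro U hU hns
    refine two_le_of_ns hU fun c => ?_
    have h1 := hns (RingEquiv.refl ℂ) c
    rwa [DS_refl'] at h1
  rcases k with ⟨k1, k2⟩ | k | ⟨⟨a0, ha0⟩, k⟩ | ⟨k, k'⟩
  · -- dimension at most three
    have hn : 2 ≤ finrank ℂ U := by
      by_contra hcon
      have h3 : finrank ℂ U ≠ 0 := fun h => hU.1 (Submodule.finrank_eq_zero.1 h)
      exact k2 (R915.cm_AVZ h' (cm_of_one h' hs' ha hU (by omega)))
    obtain ⟨h3, h4⟩ := cls_all h' hTD hs ha (Or.inl k1) hU hn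
    refine Lm.of_loc hF4 hTD h' hU h4 h3 ?_
    rw [R915.finrank_AVZ] at k1
    by_cases h5 : finrank ℂ U ≤ 3
    · exact Or.inr (Or.inl h5)
    left
    have h6 : finrank ℂ U = 2 * a := by
      obtain ⟨q, hq⟩ := finrank_dvd h' hs' hU
      rcases Nat.lt_or_ge q 2 with h7 | h7
      · interval_cases q
        · omega
        · omega
      · exfalso
        nlinarith
    have h7 : U = ⊤ := Submodule.eq_top_of_finrank_eq (by rw [h6, finrank_V])
    rw [h7]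
    exact sdu_top h' ha
  · obtain ⟨a0, ha0, -⟩ := id k
    have hsd := (ha0.rf h').sdu h' hs' ha hU
    have hns := R915.ns_of_sdu h' hsd
    exact Lm.of_loc hF4 hTD h' hU hns
      (cls_all h' hTD hs ha (Or.inr (Or.inr (Or.inr k))) hU (h2 U hU hns)).1 (Or.inl hsd)
  · have hsd := fun U (hU : IrS (LZ Z') U) => (ha0.rf h').sdu h' hs' ha hU
    have hns := fun U (hU : IrS (LZ Z') U) => R915.ns_of_sdu h' (hsd U hU)
    exact Lm.of_loc hF4 hTD h' hU (hns U hU)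
      (GalMultTwo.cls' h' hZ hC hT hf hs' ha hi k hns hU (h2 U hU (hns U hU))) (Or.inl (hsd U hU))
  · refine Wide.alt hF4 h' hTD hs ha k (fun U hU hns hn => ?_) hU
    rcases k' with k' | k' | k'
    · exact (k'.cls h' hTD hU hn).1
    · exact k'.cls h' hTD hs' ha hU hn
    · exact GalMultTwo.cls' h' hZ hC hT hf hs' ha hi k' hns hU hn

end gal

end

end Pool.Agent.N183.U8
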