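import Mathlib
import Pool.Agent.N183.U8.E2
import Pool.Agent.N183.U8.D3
import Pool.Agent.N865.GSA
import Pool.Agent.N263.GSB
import Pool.Agent.N67.GSC
import Pool.Agent.N297.GSCsl
import Pool.Agent.N31.GSBsl
import Pool.Agent.N199.GSF3
import Pool.Agent.N767.GSR

/-!
# The Lie algebra of deformations, for matrices
-/

set_option linter.unusedSectionVars false
set_option linter.unusedVariables false

namespace Pool.Agent.N183.U8

open Matrix Module Pool.Agent.W437.HC Pool.Agent.W437.HD Pool.Agent.W548.Odd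
open Pool.Agent.H204R3.SP Pool.Agent.H204R3.GP Pool.Agent.Y90 Pool.Agent.Y224.TS
open Pool.Agent.W437.HP (cK cK_mul cK_one)
open Pool.Agent.R915 (VE mem_VE descent_gen commL_of)
open Pool.Agent.N183.TS Pool.Agent.N183.U5 Pool.Agent.N183.U6

open scoped ComplexOrder

noncomputable section

variable {G : ℕ} {Z : Matrix (Fin G) (Fin G) ℂ}
  {S : Set (Matrix (Fin G ⊕ Fin G) (Fin G ⊕ Fin G) ℂ)}

/-- The commutant. -/
theorem comm_exp (h : TD Z S) {P : End ℂ (Fin G ⊕ Fin G → ℂ)}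
    (hP : ∀ D ∈ ph (Fin G ⊕ Fin G) '' S, P * D = D * P) :
    ∃ (m : ℕ) (c : Fin m → ℂ) (C : Fin m → Matrix (Fin G ⊕ Fin G) (Fin G ⊕ Fin G) ℚ),
      (∀ j, qm (C j) * DZ Z = DZ Z * qm (C j)) ∧ P = ph _ (∑ j, c j • qm (C j)) := by
  obtain ⟨P', rfl⟩ := (ph (Fin G ⊕ Fin G)).surjective P
  have h1 := (h.comm P').1 fun D hD => by
    have h2 := hP _ ⟨D, hD, rfl⟩
    rw [← map_mul, ← map_mul] at h2
    exact (ph _).injective h2
  obtain ⟨m, c, C, hC1, -, hC3⟩ := descent_gen h1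
  exact ⟨m, c, C, hC1, by rw [← hC3]⟩

theorem dc_of (h : TD Z S) {T : Matrix (Fin G ⊕ Fin G) (Fin G ⊕ Fin G) ℂ}
    (hT : ∀ R : Matrix (Fin G ⊕ Fin G) (Fin G ⊕ Fin G) ℚ, qm R * DZ Z = DZ Z * qm R →
      T * qm R = qm R * T) : DC (ph (Fin G ⊕ Fin G) '' S) (ph _ T) := by
  intro P hP
  obtain ⟨m, c, C, hC, rfl⟩ := comm_exp h hP
  rw [← map_mul, ← map_mul]
  congr 1
  rw [Finset.sum_mul, Finset.mul_sum]
  refine Finset.sum_congr rfl fun j _ => ?_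
  rw [smul_mul_assoc, mul_smul_comm, hT _ (hC j)]

theorem trace_ph {B : Type} [Fintype B] [DecidableEq B] (M : Matrix B B ℂ) :
    LinearMap.trace ℂ (B → ℂ) (ph B M) = M.trace := Matrix.trace_toLin'_eq M

theorem tf_of (h : TD Z S) {T : Matrix (Fin G ⊕ Fin G) (Fin G ⊕ Fin G) ℂ}
    (hT : ∀ R : Matrix (Fin G ⊕ Fin G) (Fin G ⊕ Fin G) ℚ, qm R * DZ Z = DZ Z * qm R →
      (T * qm R).trace = 0) : TF (ph (Fin G ⊕ Fin G) '' S) (ph _ T) := by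
  intro P hP
  obtain ⟨m, c, C, hC, rfl⟩ := comm_exp h hP
  rw [← map_mul, trace_ph, Finset.mul_sum, Matrix.trace_sum]
  refine Finset.sum_eq_zero fun j _ => ?_
  rw [mul_smul_comm, Matrix.trace_smul, hT _ (hC j), smul_zero]

/-- A leaf: all statements. -/
theorem leafA : S_A := Pool.Agent.N865.GSA.A
theorem leafB : S_B := Pool.Agent.N263.GSB.B
theorem leafC : S_C := Pool.Agent.N67.GSC.C
theorem leafBsl : S_Bsl := Pool.Agent.N31.GSBsl.Bsl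
theorem leafCsl : S_Csl := Pool.Agent.N297.GSCsl.Csl
theorem leafF3 : S_F3 := Pool.Agent.N199.GSF3.F3
theorem leafF4 : S_F4 := Pool.Agent.N707.GSF4.F4
theorem leafR : S_R := Pool.Agent.N767.GSR.R

/-- **The first part**. -/
theorem part1_m (h : TD Z S) (hZ : PM Z) {T : Matrix (Fin G ⊕ Fin G) (Fin G ⊕ Fin G) ℂ}
    (h1 : ∀ R : Matrix (Fin G ⊕ Fin G) (Fin G ⊕ Fin G) ℚ, qm R * DZ Z = DZ Z * qm R →
      T * qm R = qm R * T)
    (h2 : ∀ u v, om G (T *ᵥ u) v + om G u (T *ᵥ v) = 0)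
    (h3 : ∀ R : Matrix (Fin G ⊕ Fin G) (Fin G ⊕ Fin G) ℚ, qm R * DZ Z = DZ Z * qm R →
      (T * qm R).trace = 0)
    (hgood : ∀ (a : ℕ) (Z' : Matrix (Fin a) (Fin a) ℂ)
      (E : Matrix (Fin G ⊕ Fin G) (Fin a ⊕ Fin a) ℚ)
      (F : Matrix (Fin a ⊕ Fin a) (Fin G ⊕ Fin G) ℚ), Fac Z Z' E F → PM Z' → IsSimpleAV Z' →
      0 < a → T * (cK ℂ E * cK ℂ F) ≠ 0 → ∀ U, IrS (LZ Z') U → Lm (SF E F S) U) :
    T ∈ Y224.TS.LT S := by
  have k := ctx_of h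
  have hdc := dc_of h h1
  rw [← mem_GG]
  refine k.main_mem leafA leafB leafC leafBsl leafCsl leafF3 (fun u v => h2 u v) hdc (tf_of h h3)
    fun U hU hU0 => Lm.lc ?_
  have hU' : IrS (LZ Z) U := (h.irS hZ).1 (irE_iff.1 hU)
  obtain ⟨u0, hu0, hTu0⟩ := hU0
  obtain ⟨a, Z', E, F, hf, h', hs', ha, h0⟩ := exists_fac hZ hU'.1
  have hinj := hf.inj hU' h0
  refine Lm.of_fac h hf hZ hU' h0 (hgood a Z' E F hf h' hs' ha (fun h4 => hTu0 ?_) _
    (hf.irr hU' h0))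
  have hTU : T *ᵥ u0 ∈ U := stab_of_comm k.SL k.cr hdc hU.2.1 u0 hu0
  refine hinj _ hTU ?_
  have hEF : qm (E * F) = cK ℂ E * cK ℂ F := by
    rw [← cK_mul]
    rfl
  have h5 : T * qm (E * F) = qm (E * F) * T := h1 _ (by
    rw [hEF, Matrix.mul_assoc, hf.fd, ← Matrix.mul_assoc, ← hf.de, Matrix.mul_assoc])
  rw [hEF, h4] at h5
  rw [ml_apply]
  calc cK ℂ F *ᵥ (T *ᵥ u0) = ((cK ℂ F * cK ℂ E) * cK ℂ F * T) *ᵥ u0 := by
        rw [hf.fe', Matrix.one_mul, mulVec_mulVec]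
    _ = (cK ℂ F * (cK ℂ E * cK ℂ F * T)) *ᵥ u0 := by simp only [Matrix.mul_assoc]
    _ = 0 := by rw [← h5, Matrix.mul_zero, zero_mulVec]

theorem om_mat {X : Matrix (Fin G ⊕ Fin G) (Fin G ⊕ Fin G) ℂ}
    (hX : ∀ u v, om G (X *ᵥ u) v + om G u (X *ᵥ v) = 0) :
    Om G ℂ * X = X.transpose * -Om G ℂ := by
  have h1 : ∀ v w : Fin G ⊕ Fin G → ℂ,
      w ⬝ᵥ ((Om G ℂ * X - X.transpose * -Om G ℂ) *ᵥ v) = 0 := by
    intro v w
    have h2 := hX w v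
    rw [om_apply, om_apply, ← vecMul_transpose, ← dotProduct_mulVec, mulVec_mulVec,
      mulVec_mulVec] at h2
    rw [sub_mulVec, dotProduct_sub, Matrix.mul_neg, neg_mulVec, dotProduct_neg, sub_neg_eq_add,
      add_comm]
    exact h2
  have h3 : Om G ℂ * X - X.transpose * -Om G ℂ = 0 := by
    refine Matrix.toLin'.injective (LinearMap.ext fun v => ?_)
    rw [map_zero, LinearMap.zero_apply, Matrix.toLin'_apply]
    exact dotProduct_eq_zero_iff.1 fun w => by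
      rw [dotProduct_comm]
      exact h1 v w
  exact sub_eq_zero.1 h3

theorem Om_qm : (Om G ℚ).map (fun x : ℚ => (x : ℂ)) = Om G ℂ := by
  ext i j
  rcases i with i | i <;> rcases j with j | j <;>
    simp [Om, Matrix.fromBlocks, Matrix.one_apply, apply_ite]

/-- Submodules which are isomorphic to a submodule of the factor. -/
theorem kill_iso (h : TD Z S) {a : ℕ} {E : Matrix (Fin G ⊕ Fin G) (Fin a ⊕ Fin a) ℚ}
    {U₂ W : Submodule ℂ (Fin G ⊕ Fin G → ℂ)} (hU₂ : IrE (GG (Y224.TS.LT S)) U₂)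
    (hUV : U₂ ≤ LinearMap.range (ml E)) (hW : IrE (GG (Y224.TS.LT S)) W)
    (hUW : ¬ NoHom (ph (Fin G ⊕ Fin G) '' S) U₂ W)
    {R : Matrix (Fin G ⊕ Fin G) (Fin G ⊕ Fin G) ℚ}
    (hR : ∀ R' : Matrix (Fin G ⊕ Fin G) (Fin G ⊕ Fin G) ℚ, qm R' * DZ Z = DZ Z * qm R' →
      R * (R' * E) = 0) : ∀ w ∈ W, qm R *ᵥ w = 0 := by
  have k := ctx_of h
  unfold NoHom at hUW
  push Not at hUW
  obtain ⟨f, hf, hfW, u0, hu0, hfu0⟩ := hUW
  obtain ⟨π, h1, h2, h3⟩ := exists_pr k.SL k.cr hU₂.2.1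
  have hP : ∀ D ∈ ph (Fin G ⊕ Fin G) '' S, (f.comp π : End ℂ _) * D = D * (f.comp π) := by
    intro D hD
    refine LinearMap.ext fun v => ?_
    rw [End.mul_apply, End.mul_apply, LinearMap.comp_apply, LinearMap.comp_apply, h3 D (k.SL D hD),
      hf D hD _ (h1 _)]
  have hPL := comm_L k.gen hP
  obtain ⟨m, c, C, hC, hPC⟩ := comm_exp h hP
  have hfu : ∀ u ∈ U₂, f u = ∑ j, c j • (qm (C j) *ᵥ u) := by
    intro u hu
    have h4 := LinearMap.congr_fun hPC u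
    rw [LinearMap.comp_apply, h2 u hu] at h4
    rw [h4]
    change (∑ j, c j • qm (C j)) *ᵥ u = _
    rw [sum_mulVec]
    exact Finset.sum_congr rfl fun j _ => smul_mulVec _ _ _
  have hst : Stb (GG (Y224.TS.LT S)) (U₂.map f) := by
    rintro X hX _ ⟨u, hu, rfl⟩
    refine ⟨X u, hU₂.2.1 X hX u hu, ?_⟩
    have h4 := LinearMap.congr_fun (hPL X hX) u
    rw [End.mul_apply, End.mul_apply, LinearMap.comp_apply, LinearMap.comp_apply, h2 u hu,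
      h2 _ (hU₂.2.1 X hX u hu)] at h4
    exact h4
  have hmap : U₂.map f = W := by
    rcases hW.2.2 (U₂.map f) (by rintro _ ⟨u, hu, rfl⟩; exact hfW u hu) hst with h5 | h5
    · exfalso
      apply hfu0
      have h6 : f u0 ∈ U₂.map f := ⟨u0, hu0, rfl⟩
      rwa [h5, Submodule.mem_bot] at h6
    · exact h5
  intro w hw
  rw [← hmap] at hw
  obtain ⟨u, hu, rfl⟩ := hw
  rw [hfu u hu, mulVec_sum]
  refine Finset.sum_eq_zero fun j _ => ?_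
  obtain ⟨u', rfl⟩ := hUV hu
  rw [mulVec_smul, mulVec_mulVec, ml_apply, mulVec_mulVec]
  have h5 : qm R * qm (C j) * cK ℂ E = cK ℂ (R * (C j * E)) := by
    rw [cK_mul, cK_mul, Matrix.mul_assoc]
    rfl
  rw [h5, hR _ (hC j)]
  have h6 : cK ℂ (0 : Matrix (Fin G ⊕ Fin G) (Fin a ⊕ Fin a) ℚ) = 0 := by
    ext i j
    simp [cK]
  rw [h6, zero_mulVec, smul_zero]

/-- **The second part**. -/
theorem part2_m (h : TD Z S) (hZ : PM Z) {a : ℕ} {Z' : Matrix (Fin a) (Fin a) ℂ}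
    {E : Matrix (Fin G ⊕ Fin G) (Fin a ⊕ Fin a) ℚ} {F : Matrix (Fin a ⊕ Fin a) (Fin G ⊕ Fin G) ℚ}
    (hf : Fac Z Z' E F) (h' : PM Z') (ha : 0 < a) (hL : ∀ U, IrS (LZ Z') U → Lm (SF E F S) U)
    (hns : ∀ U, IrS (LZ Z') U → ∀ c : ℂ, ∃ u ∈ U, DZ Z' *ᵥ u ≠ c • u) :
    ∃ T : Matrix (Fin G ⊕ Fin G) (Fin G ⊕ Fin G) ℚ,
      (∀ R : Matrix (Fin G ⊕ Fin G) (Fin G ⊕ Fin G) ℚ, qm R * DZ Z = DZ Z * qm R →
        T * R = R * T) ∧
      (Om G ℚ * T = -(T.transpose * Om G ℚ)) ∧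
      (∀ R : Matrix (Fin G ⊕ Fin G) (Fin G ⊕ Fin G) ℚ, qm R * DZ Z = DZ Z * qm R →
        (T * R).trace = 0) ∧
      (∀ R : Matrix (Fin G ⊕ Fin G) (Fin G ⊕ Fin G) ℚ, qm R * DZ Z = DZ Z * qm R →
        (∀ R' : Matrix (Fin G ⊕ Fin G) (Fin G ⊕ Fin G) ℚ, qm R' * DZ Z = DZ Z * qm R' →
          R * (R' * E) = 0) → T * R = 0) ∧
      qm T * DZ Z ≠ DZ Z * qm T := by
  have k := ctx_of h
  -- an irreducible submodule of the factor
  obtain ⟨U₁, -, hU₁⟩ := exists_irS (L := LZ Z') _ (⊤ : Submodule ℂ (Fin a ⊕ Fin a → ℂ)) rfl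
    (fun h1 => by
      have h2 : (Pi.single (Sum.inl ⟨0, ha⟩) 1 : Fin a ⊕ Fin a → ℂ) ∈
          (⊤ : Submodule ℂ (Fin a ⊕ Fin a → ℂ)) := trivial
      rw [h1, Submodule.mem_bot] at h2
      have h3 := congrFun h2 (Sum.inl ⟨0, ha⟩)
      rw [Pi.single_eq_same] at h3
      exact one_ne_zero h3) stab_top
  have hU := irr_E hf hU₁
  set U := U₁.map (ml E) with hUdef
  have hUE : IrE (GG (Y224.TS.LT S)) U := irE_iff.2 ((h.irS hZ).2 hU)
  have hact : ∀ X ∈ LZ Z, ∀ u, X *ᵥ ml E u = ml E ((cK ℂ F * X * cK ℂ E) *ᵥ u) := by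
    intro X hX u
    rw [ml_apply, ml_apply, mulVec_mulVec, mulVec_mulVec, ← (hf.comp hX).2.1]
  obtain ⟨u1, hu1, hu10⟩ := Submodule.exists_mem_ne_zero_of_ne_bot hU₁.1
  have hF0 : ∃ u ∈ U, ml F u ≠ 0 := ⟨ml E u1, ⟨u1, hu1, rfl⟩, by rwa [ml_fe hf]⟩
  have hUF : U.map (ml F) = U₁ := by
    ext x
    constructor
    · rintro ⟨_, ⟨u, hu, rfl⟩, rfl⟩
      rwa [ml_fe hf]
    · intro hx
      exact ⟨ml E x, ⟨x, hx, rfl⟩, ml_fe hf x⟩
  have hLm : Lm S U := Lm.of_fac h hf hZ hU hF0 (by rw [hUF]; exact hL _ hU₁)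
  -- the factor is nondegenerate
  let V₀ : Submodule ℂ (Fin G ⊕ Fin G → ℂ) := LinearMap.range (ml E)
  have hV₀ : Stb (GG (Y224.TS.LT S)) V₀ := by
    rw [stb_iff, h.stab hZ]
    rintro X hX _ ⟨u, rfl⟩
    rw [hact X hX]
    exact ⟨_, rfl⟩
  obtain ⟨U', hU'V, hU', huu⟩ := k.exists_dual (U := U) hV₀ (by
    have hw0 : ml E u1 ≠ 0 := fun h1 => hu10 (by rw [← ml_fe hf u1, h1, map_zero])
    refine ⟨DZ Z *ᵥ ml E u1, hU.2.1 _ DZ_mem _ ⟨u1, hu1, rfl⟩, cnj (ml E u1), ⟨cnj u1, ?_⟩,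
      fun h1 => ?_⟩
    · rw [ml_apply, ml_apply]
      have h2 := map_mulVec_aut cc (cK ℂ E) u1
      rw [cK_aut] at h2
      exact h2.symm
    · have h2 := hZ.herm_pos hw0
      rw [om_anti, h1, neg_zero, mul_zero] at h2
      exact lt_irrefl _ h2)
  obtain ⟨C, hCL, hCD, hCt, hCW⟩ := k.main_odd leafA leafB leafC leafBsl leafCsl leafF3 hUE hU' huu
    hLm.lc (D := ph _ (DZ Z)) (fun u v => hZ.om_sp DZ_mem u v)
    (dc_of h fun R hR => hR.symm) (by rw [← map_mul, DZ_sq hZ.det, map_one]) (fun c => by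
      obtain ⟨u, hu, hu'⟩ := hns _ hU₁ c
      refine ⟨ml E u, ⟨u, hu, rfl⟩, fun h1 => hu' ?_⟩
      change DZ Z *ᵥ ml E u = c • ml E u at h1
      rw [hact _ DZ_mem, ← map_smul] at h1
      have h2 := congrArg (ml F) h1
      rw [ml_fe hf, ml_fe hf, hf.fd, Matrix.mul_assoc, hf.fe', Matrix.mul_one] at h2
      exact h2)
  obtain ⟨M, hM, rfl⟩ := exists_GG hCL
  obtain ⟨T, hT1, hT2, hT3, hT4⟩ := leafR (Fin G ⊕ Fin G) M (DZ Z) (fun h1 => hCD (by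
    rw [← map_mul, ← map_mul, h1]))
  have hMc : ∀ R : Matrix (Fin G ⊕ Fin G) (Fin G ⊕ Fin G) ℚ, qm R * DZ Z = DZ Z * qm R →
      M * qm R = qm R * M := by
    intro R hR
    have h1 := k.dc hCL (ph _ (qm R)) (by
      rintro _ ⟨D, hD, rfl⟩
      rw [← map_mul, ← map_mul]
      congr 1
      exact (h.comm _).2 (fun X hX => (commL_of hR X hX).symm) D hD)
    rw [← map_mul, ← map_mul] at h1
    exact ((ph _).injective h1).symm
  have hcomm : ∀ R : Matrix (Fin G ⊕ Fin G) (Fin G ⊕ Fin G) ℚ, qm R * DZ Z = DZ Z * qm R →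
      ∀ D ∈ ph (Fin G ⊕ Fin G) '' S, ph _ (qm R) * D = D * ph _ (qm R) := by
    rintro R hR _ ⟨D, hD, rfl⟩
    rw [← map_mul, ← map_mul]
    congr 1
    exact (h.comm _).2 (fun X hX => (commL_of hR X hX).symm) D hD
  refine ⟨T, fun R hR => hT2 R R (hMc R hR), ?_, fun R hR => hT3 R ?_, fun R hR hRE => ?_, hT1⟩
  · have h1 := hT4 (Om G ℚ) (-Om G ℚ) (by
      have h2 : (-Om G ℚ).map (fun x : ℚ => (x : ℂ)) = -Om G ℂ := by
        rw [← Om_qm]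
        ext i j
        simp
      rw [Om_qm, h2]
      exact om_mat fun u v => k.skw _ hCL u v)
    rw [h1, Matrix.mul_neg]
  · have h1 := hCt _ (hcomm R hR)
    rwa [← map_mul, trace_ph] at h1
  · have h1 : ph _ (M * qm R) = (0 : End ℂ (Fin G ⊕ Fin G → ℂ)) := by
      refine zero_of_irr (S := ph (Fin G ⊕ Fin G) '' S) k.SL k.cr fun W hW w hw => ?_
      rw [hMc R hR]
      change (qm R * M) *ᵥ w = 0
      rw [← mulVec_mulVec]
      have hMw : M *ᵥ w ∈ W := hW.2.1 _ hCL w hw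
      rcases hCW W hW with h1 | h1 | h1
      · exact kill_iso h hUE (by rintro _ ⟨u, hu, rfl⟩; exact ⟨u, rfl⟩) hW h1 hRE _ hMw
      · exact kill_iso h hU' hU'V hW h1 hRE _ hMw
      · have h2 : M *ᵥ w = 0 := h1 w hw
        rw [h2, mulVec_zero]
    have h2 : M * qm R = 0 := (ph _).injective (by rw [h1, map_zero])
    have h3 := hT2 R 0 (by
      have h4 : (0 : Matrix (Fin G ⊕ Fin G) (Fin G ⊕ Fin G) ℚ).map (fun x : ℚ => (x : ℂ)) = 0 := by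
        ext i j
        simp
      rw [h4, Matrix.zero_mul]
      exact h2)
    rwa [Matrix.zero_mul] at h3

end

end Pool.Agent.N183.U8
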