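import Mathlib
import Pool.Agent.N183.U8.StmA

/-!
# Project GS (helper183, MP_09799c_ag): the classes are stable under isogenies. Statements.
-/

namespace Pool.Agent.N183.U8

open Module Pool.Agent.Y90 Pool.Agent.R915 TensorProduct
open Pool.Agent.N183.TS (RealOdd)
open Pool.Agent.N183.U5 (MaxField CopMult QuadThree)
open Pool.Agent.N183.U6 (GalMultTwo)

/-- (I1) The classes of simple abelian varieties are stable under isogenies. -/
def S_I1 : Prop := ∀ (X Y : AV) (e : X.H ≃ₗ[ℚ] Y.H), IsHom X Y e.toLinearMap →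
  IsHom Y X e.symm.toLinearMap →
    (RealOdd Y → RealOdd X) ∧ ((∃ a, RealMax Y a) → ∃ a, RealMax X a) ∧ (Wide Y → Wide X) ∧
      (QuadThree Y → QuadThree X) ∧ (CopMult Y → CopMult X)

/-- (I2) The class `GalMultTwo` is stable under isogenies. -/
def S_I2 : Prop := ∀ (K : Type) [Field K] [CharZero K] [Algebra K ℂ] (Γ : Type) [Group Γ]
  (X : AV) (ρ : Representation K Γ (K ⊗[ℚ] X.H)) (Y Y' : AV) (e : Y.H ≃ₗ[ℚ] Y'.H),
  IsHom Y Y' e.toLinearMap → IsHom Y' Y e.symm.toLinearMap →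
    GalMultTwo X ρ Y' → GalMultTwo X ρ Y

end Pool.Agent.N183.U8
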