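import Mathlib
import Pool.Agent.H204R3.SP.Lie
import Pool.Agent.N183.U8.StmA

/-!
# The Lie algebra `𝔫` attached to a simple factor, and families of abelian varieties

`Pool.Agent.H204R3.SP.IsTate ρ χ m φ` says that the multilinear form `φ` in `2 m` variables is a Tate
tensor: a subgroup of finite index acts on it through the `m`-th power of the character `χ`;
`Pool.Agent.H204R3.SP.Kills t φ` says that the endomorphism `t`, acting as a derivation, kills `φ`.
-/

namespace Pool.Agent.N183.U8

open Module Pool.Agent.Y90 TensorProduct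
open Pool.Agent.H204R3.SP (IsTate Kills)

/-- The Lie algebra `𝔫 = 𝔫(X, E, Y)` attached to the abelian subvarieties of `X` which are isogenous
to `Y`, for the Riemann form `E` on `H_1(X, ℚ)`. The endomorphism `t` of `H_1(X, ℚ)` belongs to `𝔫`
if
* it commutes with the endomorphisms `f` of `X`,
* it is skew for `E`,
* the traces of the `t f` are zero (this follows from the other conditions if `Y` is not of Albert
  type IV),
* it is zero on the other isotypic parts of `X`, that is, `t f = 0` for the endomorphisms `f` of `X`
  which are zero on the images of all homomorphisms `Y → X`. -/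
structure InN (X : AV) (E : X.H → X.H → ℚ) (Y : AV) (t : Module.End ℚ X.H) : Prop where
  comm : ∀ f : Module.End ℚ X.H, IsHom X X f → t * f = f * t
  skew : ∀ u v, E (t u) v + E u (t v) = 0
  trace : ∀ f : Module.End ℚ X.H, IsHom X X f → LinearMap.trace ℚ X.H (t * f) = 0
  supp : ∀ f : Module.End ℚ X.H, IsHom X X f →
    (∀ i : Y.H →ₗ[ℚ] X.H, IsHom Y X i → f ∘ₗ i = 0) → t * f = 0

/-- A family of abelian varieties over a base `S`, and a point `x` of `S`, with the representations
`ρ'` of `Γ' = π_1(S)` and `ρ = ρ' ∘ s` of the Galois group `Γ` of `x` on the same Tate module `V`;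
`s : Γ → Γ'` is the section given by `x`, `P` is the geometric fundamental group, and `χ'`, `χ` are
the cyclotomic characters. The last condition says that the connected monodromy group of the family
is contained in the connected group with Lie algebra `N`: a form killed by `N` is fixed by a subgroup
of finite index of `P`. -/
structure IsFamily {K : Type} [Field K] {V : Type} [AddCommGroup V] [Module K V]
    {Γ : Type} [Group Γ] (ρ : Representation K Γ V) (χ : Γ →* K) (N : Set (Module.End K V))
    {Γ' : Type} [Group Γ'] (ρ' : Representation K Γ' V) (χ' : Γ' →* K) (s : Γ →* Γ')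
    (P : Subgroup Γ') : Prop where
  normal : P.Normal
  gen : ∀ g : Γ', ∃ γ : Γ, g * (s γ)⁻¹ ∈ P
  rep : ∀ γ, ρ' (s γ) = ρ γ
  cyc : ∀ γ, χ' (s γ) = χ γ
  geo : ∀ g ∈ P, χ' g = 1
  mono : ∀ (m : ℕ) (φ : MultilinearMap K (fun _ : Fin m × Fin 2 => V) K),
    (∀ t ∈ N, Kills t φ) → ∃ P₁ : Subgroup P, P₁.FiniteIndex ∧
      ∀ g ∈ P₁, ∀ v, φ (fun k => ρ' (g : Γ') (v k)) = φ v

end Pool.Agent.N183.U8
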