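import Mathlib
import Pool.Agent.N183.U8.E3
import Pool.Agent.N183.U8.StmN
import Pool.Agent.N183.U8.StmI

/-!
# The Lie algebra of deformations
-/

set_option linter.unusedSectionVars false
set_option linter.unusedVariables false

namespace Pool.Agent.N183.U8

open Matrix Module Pool.Agent.W437.HC Pool.Agent.W437.HD Pool.Agent.W548.Odd
open Pool.Agent.H204R3.SP Pool.Agent.H204R3.GP Pool.Agent.Y90 Pool.Agent.Y224.TS TensorProduct
open Pool.Agent.Y224.TS.St (IsHodgeTate IsTateModule)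
open Pool.Agent.W437.HP (cK cK_mul cK_one)
open Pool.Agent.R915 (VE mem_VE descent_gen commL_of IsFactor RealMax)
open Pool.Agent.N183.TS Pool.Agent.N183.U5 Pool.Agent.N183.U6

noncomputable section

/-! ### Families -/

section family

variable {K : Type} [Field K] {V : Type} [AddCommGroup V] [Module K V]
  {Γ : Type} [Group Γ] {ρ : Representation K Γ V} {χ : Γ →* K} {N : Set (Module.End K V)}
  {Γ' : Type} [Group Γ'] {ρ' : Representation K Γ' V} {χ' : Γ' →* K} {s : Γ →* Γ'}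
  {P : Subgroup Γ'}

/-- The stabilizer of a form, up to the character. -/
def stabF (ρ' : Representation K Γ' V) (χ' : Γ' →* K) (m : ℕ)
    (φ : MultilinearMap K (fun _ : Fin m × Fin 2 => V) K) : Subgroup Γ' where
  carrier := {g | ∀ v, φ (fun k => ρ' g (v k)) = χ' g ^ m * φ v}
  mul_mem' := by
    intro a b ha hb v
    have h1 : (fun k => ρ' (a * b) (v k)) = fun k => ρ' a (ρ' b (v k)) := by
      funext k
      rw [map_mul]
      rfl
    rw [h1, ha fun k => ρ' b (v k), hb v, map_mul, mul_pow, mul_assoc]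
  one_mem' := by
    intro v
    have h1 : (fun k => ρ' 1 (v k)) = v := by
      funext k
      rw [map_one]
      rfl
    rw [h1, map_one, one_pow, one_mul]
  inv_mem' := by
    intro a ha v
    have h1 := ha fun k => ρ' a⁻¹ (v k)
    have h2 : (fun k => ρ' a (ρ' a⁻¹ (v k))) = v := by
      funext k
      have h3 : (ρ' a * ρ' a⁻¹) (v k) = v k := by
        rw [← map_mul, mul_inv_cancel, map_one]
        rfl
      exact h3
    rw [h2] at h1
    have h4 : χ' a⁻¹ ^ m * χ' a ^ m = 1 := by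
      rw [← mul_pow, ← map_mul, inv_mul_cancel, map_one, one_pow]
    rw [h1, ← mul_assoc, h4, one_mul]

/-- Tate tensors extend to the family. -/
theorem IsFamily.tate (k : IsFamily ρ χ N ρ' χ' s P) {m : ℕ}
    {φ : MultilinearMap K (fun _ : Fin m × Fin 2 => V) K} (hφ : IsTate ρ χ m φ)
    (hN : ∀ t ∈ N, Kills t φ) : IsTate ρ' χ' m φ := by
  classical
  obtain ⟨Δ, hΔ, hΔφ⟩ := hφ
  obtain ⟨P₁, hP₁, hP₁φ⟩ := k.mono m φ hN
  have h1 : ∀ δ ∈ Δ, s δ ∈ stabF ρ' χ' m φ := by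
    intro δ hδ v
    have h2 := hΔφ δ hδ v
    rw [k.cyc, k.rep]
    exact h2
  have h2 : ∀ q ∈ P₁, (q : Γ') ∈ stabF ρ' χ' m φ := by
    intro q hq v
    rw [hP₁φ q hq v, k.geo q q.2, one_pow, one_mul]
  have hsur : Function.Surjective fun x : (Γ ⧸ Δ) × (P ⧸ P₁) =>
      (QuotientGroup.mk (s x.1.out * (x.2.out : P)) : Γ' ⧸ stabF ρ' χ' m φ) := by
    intro c
    obtain ⟨g, rfl⟩ := QuotientGroup.mk_surjective c
    obtain ⟨γ, hγ⟩ := k.gen g
    let γ₁ : Γ := (QuotientGroup.mk γ : Γ ⧸ Δ).out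
    have hδ : γ₁⁻¹ * γ ∈ Δ := QuotientGroup.eq.1 (QuotientGroup.out_eq' _)
    have hp : s γ₁⁻¹ * (g * (s γ)⁻¹) * (s γ₁⁻¹)⁻¹ ∈ P := k.normal.conj_mem _ hγ _
    let p' : P := ⟨_, hp⟩
    let p₁ : P := (QuotientGroup.mk p' : P ⧸ P₁).out
    have hq : p₁⁻¹ * p' ∈ P₁ := QuotientGroup.eq.1 (QuotientGroup.out_eq' _)
    refine ⟨(QuotientGroup.mk γ, QuotientGroup.mk p'), ?_⟩
    refine QuotientGroup.eq.2 ?_
    change (s γ₁ * (p₁ : Γ'))⁻¹ * g ∈ _
    have h3 : (s γ₁ * (p₁ : Γ'))⁻¹ * g = ((p₁⁻¹ * p' : P) : Γ') * s (γ₁⁻¹ * γ) := by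
      have h4 : (p' : Γ') = s γ₁⁻¹ * (g * (s γ)⁻¹) * (s γ₁⁻¹)⁻¹ := rfl
      rw [Subgroup.coe_mul, Subgroup.coe_inv, h4, map_mul, map_inv]
      group
    rw [h3]
    exact mul_mem (h2 _ hq) (h1 _ hδ)
  have hfin : Finite (Γ' ⧸ stabF ρ' χ' m φ) := Finite.of_surjective _ hsur
  exact ⟨stabF ρ' χ' m φ, Subgroup.finiteIndex_of_finite_quotient, fun g hg v => hg v⟩

end family

end

end Pool.Agent.N183.U8
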