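import Mathlib
import Pool.Agent.N183.U8.E4

/-!
# Points which are not `ℓ`-Galois special
-/

set_option linter.unusedSectionVars false
set_option linter.unusedVariables false

namespace Pool.Agent.N183.U8

open Matrix Module Pool.Agent.W437.HC Pool.Agent.W437.HD Pool.Agent.W548.Odd
open Pool.Agent.H204R3.SP Pool.Agent.H204R3.GP Pool.Agent.Y90 Pool.Agent.Y224.TS TensorProduct
open Pool.Agent.Y224.TS.St (IsHodgeTate IsTateModule)
open Pool.Agent.W437.HP (cK cK_mul cK_one)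
open Pool.Agent.R915 (VE mem_VE descent_gen commL_of IsFactor RealMax)
open Pool.Agent.N183.TS Pool.Agent.N183.U5 Pool.Agent.N183.U6

noncomputable section

variable {K : Type} [Field K] [CharZero K] [Algebra K ℂ] {Γ : Type} [Group Γ]

/-- The Riemann form is bilinear. -/
theorem exists_BE {H : Type} [AddCommGroup H] [Module ℚ H] {E : H → H → ℚ}
    (hω : ∃ ω : (K ⊗[ℚ] H) →ₗ[K] (K ⊗[ℚ] H) →ₗ[K] K,
      ∀ u v : H, ω (1 ⊗ₜ u) (1 ⊗ₜ v) = ((E u v : ℚ) : K)) :
    ∃ B : H →ₗ[ℚ] H →ₗ[ℚ] ℚ, ∀ u v, B u v = E u v := by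
  obtain ⟨ω, hω⟩ := hω
  have hinj : Function.Injective (fun q : ℚ => (q : K)) := Rat.cast_injective
  refine ⟨LinearMap.mk₂ ℚ E (fun u u' v => ?_) (fun c u v => ?_) (fun u v v' => ?_)
    (fun c u v => ?_), fun u v => rfl⟩
  · apply hinj
    beta_reduce
    rw [Rat.cast_add, ← hω, ← hω, ← hω, tmul_add, map_add, LinearMap.add_apply]
  · apply hinj
    beta_reduce
    rw [smul_eq_mul, Rat.cast_mul, ← hω, ← hω, tmul_smul, ← algebraMap_smul K c, map_smul,
      LinearMap.smul_apply, smul_eq_mul]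
    rfl
  · apply hinj
    beta_reduce
    rw [Rat.cast_add, ← hω, ← hω, ← hω, tmul_add, map_add]
  · apply hinj
    beta_reduce
    rw [smul_eq_mul, Rat.cast_mul, ← hω, ← hω, tmul_smul, ← algebraMap_smul K c, map_smul,
      smul_eq_mul]
    rfl

section mat

variable {G : ℕ} {H : Type} [AddCommGroup H] [Module ℚ H] (b : Basis (Fin G ⊕ Fin G) ℚ H)
  {E : H → H → ℚ}

/-- Skew endomorphisms in coordinates. -/
theorem skew_iff {B : H →ₗ[ℚ] H →ₗ[ℚ] ℚ} (hB : ∀ u v, B u v = E u v)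
    (hb : ∀ p q, E (b q) (b p) = Om G ℚ p q) (t : Module.End ℚ H) :
    (∀ u v, E (t u) v + E u (t v) = 0) ↔
      Om G ℚ * LinearMap.toMatrix b b t = -((LinearMap.toMatrix b b t).transpose * Om G ℚ) := by
  have h1 : ∀ p q, (Om G ℚ * LinearMap.toMatrix b b t) p q = B (t (b q)) (b p) := by
    intro p q
    have h2 : t (b q) = ∑ r, LinearMap.toMatrix b b t r q • b r := by
      conv_lhs => rw [← b.sum_repr (t (b q))]
      exact Finset.sum_congr rfl fun r _ => by rw [LinearMap.toMatrix_apply]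
    rw [h2, map_sum, LinearMap.sum_apply, Matrix.mul_apply]
    refine Finset.sum_congr rfl fun r _ => ?_
    rw [map_smul, LinearMap.smul_apply, smul_eq_mul, hB, hb, mul_comm]
  have h2 : ∀ p q, ((LinearMap.toMatrix b b t).transpose * Om G ℚ) p q = B (b q) (t (b p)) := by
    intro p q
    have h2 : t (b p) = ∑ r, LinearMap.toMatrix b b t r p • b r := by
      conv_lhs => rw [← b.sum_repr (t (b p))]
      exact Finset.sum_congr rfl fun r _ => by rw [LinearMap.toMatrix_apply]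
    rw [h2, map_sum, Matrix.mul_apply]
    refine Finset.sum_congr rfl fun r _ => ?_
    rw [map_smul, smul_eq_mul, hB, hb, Matrix.transpose_apply]
  constructor
  · intro h
    ext p q
    rw [Matrix.neg_apply, h1, h2, hB, hB]
    linear_combination h (b q) (b p)
  · intro h
    have h3 : B.comp t + (B.compr₂ (LinearMap.id)).compl₂ t = 0 := by
      refine b.ext fun q => b.ext fun p => ?_
      have h4 := congrFun (congrFun h p) q
      rw [Matrix.neg_apply, h1, h2] at h4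
      change B (t (b q)) (b p) + B (b q) (t (b p)) = 0
      rw [h4, neg_add_cancel]
    intro u v
    have h4 := LinearMap.congr_fun (LinearMap.congr_fun h3 u) v
    change B (t u) v + B u (t v) = 0 at h4
    rw [hB, hB] at h4
    exact h4

theorem qm_mul' (A C : Matrix (Fin G ⊕ Fin G) (Fin G ⊕ Fin G) ℚ) :
    qm (A * C) = qm A * qm C := by
  have h1 : cK ℂ (A * C) = cK ℂ A * cK ℂ C := by rw [cK_mul]
  exact h1

theorem trace_qm (A : Matrix (Fin G ⊕ Fin G) (Fin G ⊕ Fin G) ℚ) :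
    (qm A).trace = ((A.trace : ℚ) : ℂ) := by
  simp [Matrix.trace, qm]

/-- Symplectic matrices. -/
theorem om_of_mat {T : Matrix (Fin G ⊕ Fin G) (Fin G ⊕ Fin G) ℚ}
    (hT : Om G ℚ * T = -(T.transpose * Om G ℚ)) (u v : Fin G ⊕ Fin G → ℂ) :
    om G (qm T *ᵥ u) v + om G u (qm T *ᵥ v) = 0 := by
  have h1 : Om G ℂ * qm T = -((qm T).transpose * Om G ℂ) := by
    have h2 := congrArg qm hT
    rw [qm_mul'] at h2
    have h3 : qm (-(T.transpose * Om G ℚ)) = -(qm T.transpose * qm (Om G ℚ)) := by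
      rw [← qm_mul']
      ext i j
      simp [qm]
    rw [h3] at h2
    have h4 : qm (Om G ℚ) = Om G ℂ := Om_qm
    rw [h4] at h2
    exact h2
  rw [om_apply, om_apply, mulVec_mulVec, h1, ← vecMul_transpose, ← dotProduct_mulVec,
    mulVec_mulVec, neg_mulVec, dotProduct_neg, add_neg_cancel]

end mat

section part1

variable [Algebra.IsAlgebraic K ℂ] {X : AV} {E : X.H → X.H → ℚ}
  {ρ : Representation K Γ (K ⊗[ℚ] X.H)} {χ : Γ →* K}

/-- Homomorphisms in coordinates. -/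
theorem hom_DZ {G : ℕ} {Z : Matrix (Fin G) (Fin G) ℂ} (b : Basis (Fin G ⊕ Fin G) ℚ X.H)
    (hC : Cht (X.per.comp b.equivFun.symm.toLinearMap.toAddMonoidHom) (JR Z))
    (f : Module.End ℚ X.H) : IsHom X X f ↔
      qm (LinearMap.toMatrix b b f) * DZ Z = DZ Z * qm (LinearMap.toMatrix b b f) := by
  have h1 := Y224.TS.hom_iff b hC f
  constructor
  · intro h
    exact (h1.1 h) _ DZ_mem
  · intro h
    exact h1.2 fun X hX => (commL_of h X hX).symm

/-- The classes of the factors. -/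
def GoodFor (X : AV) (ρ : Representation K Γ (K ⊗[ℚ] X.H)) (Y : AV) : Prop :=
  ∀ Y', IsFactor Y' X → (∃ f : Y.H →ₗ[ℚ] Y'.H, IsHom Y Y' f ∧ f ≠ 0) → GoodNC X ρ Y'

/-- The simple factors of the period matrix. -/
theorem fac_hom {G a : ℕ} {Z : Matrix (Fin G) (Fin G) ℂ} {Z' : Matrix (Fin a) (Fin a) ℂ}
    (b : Basis (Fin G ⊕ Fin G) ℚ X.H)
    (hC : Cht (X.per.comp b.equivFun.symm.toLinearMap.toAddMonoidHom) (JR Z)) (h' : PM Z')
    {E' : Matrix (Fin G ⊕ Fin G) (Fin a ⊕ Fin a) ℚ} {F' : Matrix (Fin a ⊕ Fin a) (Fin G ⊕ Fin G) ℚ}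
    (hf : Fac Z Z' E' F') (hs : IsSimpleAV Z') (ha : 0 < a) :
    IsHom (AVZ h') X (inc h' b E') ∧ IsFactor (AVZ h') X ∧
      ∃ p : X.H →ₗ[ℚ] (AVZ h').H, IsHom X (AVZ h') p ∧ ∀ v, p v = F' *ᵥ b.equivFun v := by
  obtain ⟨Ψ₁, h₁⟩ := h'.cht.hom hC (R := E') (by
    rw [DJ_JR, DJ_JR]
    exact hf.de.symm)
  have hi : IsHom (AVZ h') X (inc h' b E') := ⟨Ψ₁, fun v => h₁ v⟩
  obtain ⟨Ψ₂, h₂⟩ := hC.hom h'.cht (R := F') (by
    rw [DJ_JR, DJ_JR]
    exact hf.fd)
  refine ⟨hi, ⟨R915.simple_of a h' hs ha, inc h' b E', hi, fun x y hxy => ?_⟩,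
    (mulVecLin F').comp b.equivFun.toLinearMap, ⟨Ψ₂, fun v => ?_⟩, fun v => rfl⟩
  · have h2 : E' *ᵥ x = E' *ᵥ y := b.equivFun.symm.injective hxy
    have h3 := congrArg (fun v => F' *ᵥ v) h2
    beta_reduce at h3
    rw [mulVec_mulVec, mulVec_mulVec, hf.fe, one_mulVec, one_mulVec] at h3
    exact h3
  · have h3 := h₂ (b.equivFun v)
    have h4 : (X.per.comp b.equivFun.symm.toLinearMap.toAddMonoidHom) (b.equivFun v) =
        X.per v := by
      change X.per (b.equivFun.symm (b.equivFun v)) = X.per v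
      rw [LinearEquiv.symm_apply_apply]
    rw [h4] at h3
    exact h3

/-- **The Lie algebra `𝔫` kills the Tate tensors.** -/
theorem kills_tate (hE : Pool.Agent.Y90.St.IsPolarization X.per E)
    (hρ : IsTateModule X.per E ρ χ) {Y : AV} (hX : GoodFor X ρ Y) {t : Module.End ℚ X.H}
    (ht : InN X E Y t) {m : ℕ} {φ : MultilinearMap K (fun _ : Fin m × Fin 2 => K ⊗[ℚ] X.H) K}
    (hφ : IsTate ρ χ m φ) : Kills (t.baseChange K) φ := by
  classical
  obtain ⟨G, Z, hZ, b, hC, hb⟩ := exists_ppav' (AV.isAV X) hE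
  have hTD : TD Z (SH X.per ρ χ b) := td_of b hb hC hρ
  obtain ⟨B, hB⟩ := exists_BE (K := K) (by
    obtain ⟨ω, hω, -⟩ := hρ.weil
    exact ⟨ω, hω⟩)
  set T := LinearMap.toMatrix b b t with hT
  have hmat : ∀ R : Matrix (Fin G ⊕ Fin G) (Fin G ⊕ Fin G) ℚ,
      LinearMap.toMatrix b b (Matrix.toLin b b R) = R := fun R => LinearMap.toMatrix_toLin _ _ _
  have hhom : ∀ R : Matrix (Fin G ⊕ Fin G) (Fin G ⊕ Fin G) ℚ, qm R * DZ Z = DZ Z * qm R →
      IsHom X X (Matrix.toLin b b R) := fun R hR => (hom_DZ b hC _).2 (by rw [hmat]; exact hR)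
  have hLT : qm T ∈ Y224.TS.LT (SH X.per ρ χ b) := by
    refine part1_m hTD hZ (fun R hR => ?_) (om_of_mat ((skew_iff b hB hb t).1 ht.skew))
      (fun R hR => ?_) ?_
    · have h1 := congrArg (LinearMap.toMatrix b b) (ht.comm _ (hhom R hR))
      rw [LinearMap.toMatrix_mul, LinearMap.toMatrix_mul, hmat, ← hT] at h1
      rw [← qm_mul', h1, qm_mul']
    · have h1 := ht.trace _ (hhom R hR)
      rw [LinearMap.trace_eq_matrix_trace ℚ b, LinearMap.toMatrix_mul, hmat, ← hT] at h1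
      rw [← qm_mul', trace_qm, h1, Rat.cast_zero]
    · intro a Z' E' F' hf h' hs ha hne U hU
      obtain ⟨hi, hfa, p, hp, hpv⟩ := fac_hom b hC h' hf hs ha
      refine GoodNC.lm leafF4 h' hZ hC hTD hf (R915.simple_of a h' hs ha) ha hi (hX _ hfa ?_) hU
      by_contra hcon
      push Not at hcon
      apply hne
      have hc : qm (E' * F') * DZ Z = DZ Z * qm (E' * F') := by
        have h1 : qm (E' * F') = cK ℂ E' * cK ℂ F' := by
          rw [← cK_mul]
          rfl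
        rw [h1, Matrix.mul_assoc, hf.fd, ← Matrix.mul_assoc, ← hf.de, Matrix.mul_assoc]
      have h1 := ht.supp _ (hhom _ hc) (fun i hi' => by
        have h2 : p ∘ₗ i = 0 := hcon _ (R915.IsHom.comp' hp hi')
        refine LinearMap.ext fun y => ?_
        rw [LinearMap.comp_apply, LinearMap.zero_apply]
        have h3 : F' *ᵥ b.equivFun (i y) = 0 := by
          rw [← hpv]
          exact LinearMap.congr_fun h2 y
        have h4 : b.equivFun (Matrix.toLin b b (E' * F') (i y)) = 0 := by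
          have h5 := LinearMap.toMatrix_mulVec_repr b b (Matrix.toLin b b (E' * F')) (i y)
          rw [hmat] at h5
          change _ = b.equivFun _ at h5
          rw [← h5]
          change (E' * F') *ᵥ b.equivFun (i y) = 0
          rw [← mulVec_mulVec, h3, mulVec_zero]
        exact (LinearEquiv.map_eq_zero_iff _).1 h4)
      have h2 := congrArg (LinearMap.toMatrix b b) h1
      rw [LinearMap.toMatrix_mul, hmat, ← hT, map_zero] at h2
      have h3 : qm T * qm (E' * F') = 0 := by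
        rw [← qm_mul', h2]
        ext i j
        simp [qm]
      have h4 : qm (E' * F') = cK ℂ E' * cK ℂ F' := by
        rw [← cK_mul]
        rfl
      rwa [h4] at h3
  have hk := kills_LT (FC_kills b φ hφ) hLT
  intro v
  have hinj : Function.Injective (algebraMap K ℂ) := (algebraMap K ℂ).injective
  apply hinj
  rw [map_zero, map_sum]
  have h1 := hk fun k => eY K b ((1 : ℂ) ⊗ₜ[K] v k)
  rw [← h1]
  refine Finset.sum_congr rfl fun k _ => ?_
  rw [← bcm_one (Ω := ℂ) (bV K b) φ, ← FC_e b φ]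
  congr 1
  funext l
  by_cases hl : l = k
  · subst hl
    rw [Function.update_self, Function.update_self]
    change _ = qm T *ᵥ _
    rw [hT, ← mt_bc2 (K := K) b t, mt_mulVec, LinearMap.baseChange_tmul]
  · rw [Function.update_of_ne hl, Function.update_of_ne hl]

omit [Algebra.IsAlgebraic K ℂ] in
/-- The complex structure does not act by scalars if the involutions do not. -/
theorem ns_DZ {g : ℕ} {Z : Matrix (Fin g) (Fin g) ℂ}
    {S : Set (Matrix (Fin g ⊕ Fin g) (Fin g ⊕ Fin g) ℂ)} (h : TD Z S) (hZ : PM Z)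
    {U : Submodule ℂ (Fin g ⊕ Fin g → ℂ)} (hU : IrS (LZ Z) U)
    (hns : ∀ D ∈ S, ∀ c : ℂ, ∃ u ∈ U, D *ᵥ u ≠ c • u) (c : ℂ) :
    ∃ u ∈ U, DZ Z *ᵥ u ≠ c • u := by
  obtain ⟨D, hD, hσ⟩ := h.ex (RingEquiv.refl ℂ)
  obtain ⟨d1, d2⟩ := h.dims hZ hD hσ hU.2.1
  have hDD : ∀ v, D *ᵥ (D *ᵥ v) = v := fun v => by rw [mulVec_mulVec, h.sq D hD, one_mulVec]
  have hDU : ∀ u ∈ U, D *ᵥ u ∈ U := fun u hu => (h.stab hZ).2 hU.2.1 D (LT_gen hD) u hu
  have h1 := ns_conj (Z := Z) (W := U) (RingEquiv.refl ℂ) (by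
    rw [← d1, Nat.pos_iff_ne_zero, ne_eq, Submodule.finrank_eq_zero]
    intro h0
    obtain ⟨u, hu, hu'⟩ := hns D hD (-1)
    have h2 : u + D *ᵥ u ∈ es (ph (Fin g ⊕ Fin g) D) U 1 := by
      refine mem_es.2 ⟨U.add_mem hu (hDU u hu), ?_⟩
      change D *ᵥ (u + D *ᵥ u) = _
      rw [mulVec_add, hDD, one_smul, add_comm]
    rw [h0, Submodule.mem_bot] at h2
    apply hu'
    rw [neg_one_smul]
    exact eq_neg_of_add_eq_zero_right h2) (by
    rw [← d2, Nat.pos_iff_ne_zero, ne_eq, Submodule.finrank_eq_zero]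
    intro h0
    obtain ⟨u, hu, hu'⟩ := hns D hD 1
    have h2 : u - D *ᵥ u ∈ es (ph (Fin g ⊕ Fin g) D) U (-1) := by
      refine mem_es.2 ⟨U.sub_mem hu (hDU u hu), ?_⟩
      change D *ᵥ (u - D *ᵥ u) = _
      rw [mulVec_sub, hDD]
      module
    rw [h0, Submodule.mem_bot] at h2
    apply hu'
    rw [one_smul]
    exact (sub_eq_zero.1 h2).symm) c
  rwa [DS_refl'] at h1

/-- **The Lie algebra `𝔫` contains an element which does not commute with the complex structure.** -/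
theorem exists_def (hE : Pool.Agent.Y90.St.IsPolarization X.per E)
    (hρ : IsTateModule X.per E ρ χ) {Y : AV} (hY : IsFactor Y X) (hX : GoodFor X ρ Y) :
    ∃ t, InN X E Y t ∧ ¬ IsHom X X t := by
  classical
  obtain ⟨G, Z, hZ, b, hC, hb⟩ := exists_ppav' (AV.isAV X) hE
  have hTD : TD Z (SH X.per ρ χ b) := td_of b hb hC hρ
  obtain ⟨B, hB⟩ := exists_BE (K := K) (by
    obtain ⟨ω, hω, -⟩ := hρ.weil
    exact ⟨ω, hω⟩)
  have hmat : ∀ R : Matrix (Fin G ⊕ Fin G) (Fin G ⊕ Fin G) ℚ,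
      LinearMap.toMatrix b b (Matrix.toLin b b R) = R := fun R => LinearMap.toMatrix_toLin _ _ _
  have hmatv : ∀ (R : Matrix (Fin G ⊕ Fin G) (Fin G ⊕ Fin G) ℚ) (v : X.H),
      b.equivFun (Matrix.toLin b b R v) = R *ᵥ b.equivFun v := by
    intro R v
    have h5 := LinearMap.toMatrix_mulVec_repr b b (Matrix.toLin b b R) v
    rw [hmat] at h5
    exact h5.symm
  obtain ⟨hYs, i₀, hi₀, hi₀'⟩ := hY
  obtain ⟨y₀, hy₀⟩ := hYs.1
  -- a simple factor
  obtain ⟨a, Z', E', F', hf, h', hs, ha, u, hu, hu0⟩ := exists_fac hZ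
    (U := Submodule.span ℂ {w | ∃ y, w = Pool.Agent.Y90.cv (b.equivFun (i₀ y))}) (fun h1 => by
      have h2 : Pool.Agent.Y90.cv (b.equivFun (i₀ y₀)) ∈
          (⊥ : Submodule ℂ (Fin G ⊕ Fin G → ℂ)) := by
        rw [← h1]
        exact Submodule.subset_span ⟨y₀, rfl⟩
      rw [Submodule.mem_bot] at h2
      apply hy₀
      apply hi₀'
      rw [map_zero]
      apply b.equivFun.injective
      rw [map_zero]
      funext i
      have h3 := congrFun h2 i
      change ((b.equivFun (i₀ y₀) i : ℚ) : ℂ) = 0 at h3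
      exact_mod_cast h3)
  obtain ⟨hi, hfa, p, hp, hpv⟩ := fac_hom b hC h' hf hs ha
  obtain ⟨y₁, hy₁⟩ : ∃ y, p (i₀ y) ≠ 0 := by
    by_contra hcon
    push Not at hcon
    apply hu0
    have h1 : Submodule.span ℂ {w | ∃ y, w = Pool.Agent.Y90.cv (b.equivFun (i₀ y))} ≤
        LinearMap.ker (ml F') := by
      rw [Submodule.span_le]
      rintro _ ⟨y, rfl⟩
      change ml F' (Pool.Agent.Y90.cv (b.equivFun (i₀ y))) = 0
      have h2 := hcon y
      rw [hpv] at h2
      rw [ml_apply]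
      have h3 : cK ℂ F' *ᵥ Pool.Agent.Y90.cv (b.equivFun (i₀ y)) =
          Pool.Agent.Y90.cv (F' *ᵥ b.equivFun (i₀ y)) := by
        funext i
        simp [Pool.Agent.Y90.cv, cK, Matrix.mulVec, dotProduct]
      rw [h3, h2]
      funext i
      change (((0 : Fin a ⊕ Fin a → ℚ) i : ℚ) : ℂ) = 0
      rw [Pi.zero_apply, Rat.cast_zero]
    exact LinearMap.mem_ker.1 (h1 hu)
  have hf₀ : IsHom Y (AVZ h') (p ∘ₗ i₀) := R915.IsHom.comp' hp hi₀
  have hf₀0 : p ∘ₗ i₀ ≠ 0 := fun h1 => hy₁ (LinearMap.congr_fun h1 y₁)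
  have hsurj : Function.Surjective (p ∘ₗ i₀) := by
    rw [← LinearMap.range_eq_top]
    rcases hfa.1.2 _ (R915.isSub_range hf₀) with h1 | h1
    · exact absurd (LinearMap.range_eq_bot.1 h1) hf₀0
    · exact h1
  have hL : ∀ U, IrS (LZ Z') U → Lm (SF E' F' (SH X.per ρ χ b)) U := fun U hU =>
    GoodNC.lm leafF4 h' hZ hC hTD hf hfa.1 ha hi (hX _ hfa ⟨_, hf₀, hf₀0⟩) hU
  obtain ⟨T, hT1, hT2, hT3, hT4, hT5⟩ := part2_m hTD hZ hf h' ha hL fun U hU c =>
    ns_DZ (tdF hf hTD hZ h') h' hU (hL U hU).ns c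
  have hinj := (LinearMap.toMatrix b b).injective
  refine ⟨Matrix.toLin b b T, ⟨fun f hf' => ?_, ?_, fun f hf' => ?_, fun f hf' hfi => ?_⟩,
    fun h1 => ?_⟩
  · apply hinj
    rw [LinearMap.toMatrix_mul, LinearMap.toMatrix_mul, hmat]
    exact hT1 _ ((hom_DZ b hC f).1 hf')
  · rw [skew_iff b hB hb, hmat]
    exact hT2
  · rw [LinearMap.trace_eq_matrix_trace ℚ b, LinearMap.toMatrix_mul, hmat]
    exact hT3 _ ((hom_DZ b hC f).1 hf')
  · apply hinj
    rw [LinearMap.toMatrix_mul, hmat, map_zero]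
    refine hT4 _ ((hom_DZ b hC f).1 hf') fun R' hR' => ?_
    have hR'h : IsHom X X (Matrix.toLin b b R') := (hom_DZ b hC _).2 (by rw [hmat]; exact hR')
    have h1 := hfi _ (R915.IsHom.comp' hR'h (R915.IsHom.comp' hi hf₀))
    refine Matrix.toLin'.injective (LinearMap.ext fun x => ?_)
    obtain ⟨y, hy⟩ := hsurj x
    have h2 := LinearMap.congr_fun h1 y
    have h3 : f (Matrix.toLin b b R' (inc h' b E' ((p ∘ₗ i₀) y))) = 0 := h2
    rw [hy] at h3
    have h4 := congrArg b.equivFun h3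
    have h5 : b.equivFun (f (Matrix.toLin b b R' (inc h' b E' x))) =
        LinearMap.toMatrix b b f *ᵥ (R' *ᵥ (E' *ᵥ x)) := by
      have h6 := LinearMap.toMatrix_mulVec_repr b b f (Matrix.toLin b b R' (inc h' b E' x))
      change _ = b.equivFun _ at h6
      rw [← h6]
      change LinearMap.toMatrix b b f *ᵥ b.equivFun _ = _
      rw [hmatv]
      congr 2
      exact b.equivFun.apply_symm_apply _
    rw [h5, map_zero, mulVec_mulVec, mulVec_mulVec] at h4
    rw [Matrix.toLin'_apply, map_zero, LinearMap.zero_apply, ← Matrix.mul_assoc]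
    exact h4
  · rw [hom_DZ b hC, hmat] at h1
    exact hT5 h1

end part1

end

end Pool.Agent.N183.U8
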