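import Mathlib
import Pool.Agent.N183.U8.E5
import Pool.Agent.N615.GSI1
import Pool.Agent.N615.GSI2

/-!
# One good simple factor is enough
-/

namespace Pool.Agent.N183.U8

open Module Pool.Agent.Y90 Pool.Agent.R915 TensorProduct
open Pool.Agent.Y224.TS.St (IsTateModule)
open Pool.Agent.H204R3.SP (IsTate Kills)

variable {K : Type} [Field K] [CharZero K] [Algebra K ℂ] {Γ : Type} [Group Γ]

/-- The class `GoodNC` is stable under isogenies. -/
theorem GoodNC.iso {X : AV} {ρ : Representation K Γ (K ⊗[ℚ] X.H)} {Y Y' : AV}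
    (e : Y.H ≃ₗ[ℚ] Y'.H) (he : IsHom Y Y' e.toLinearMap) (hes : IsHom Y' Y e.symm.toLinearMap)
    (h : GoodNC X ρ Y') : GoodNC X ρ Y := by
  obtain ⟨h1, h2, h3, h4, h5⟩ := Pool.Agent.N615.GSI1.I1 Y Y' e he hes
  have h6 := Pool.Agent.N615.GSI2.I2 K Γ X ρ Y Y' e he hes
  rcases h with ⟨ha, hb⟩ | h | ⟨ha, hb⟩ | ⟨ha, hb⟩
  · refine Or.inl ⟨by rw [e.finrank_eq]; exact ha, fun hc => hb ?_⟩
    exact HasCMult.iso e.symm hes he hc
  · exact Or.inr (Or.inl (h1 h))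
  · exact Or.inr (Or.inr (Or.inl ⟨h2 ha, h6 hb⟩))
  · refine Or.inr (Or.inr (Or.inr ⟨h3 ha, ?_⟩))
    rcases hb with hb | hb | hb
    · exact Or.inl (h4 hb)
    · exact Or.inr (Or.inl (h5 hb))
    · exact Or.inr (Or.inr (h6 hb))

theorem goodFor {X : AV} {ρ : Representation K Γ (K ⊗[ℚ] X.H)} {Y : AV} (hY : IsFactor Y X)
    (h : GoodNC X ρ Y) : GoodFor X ρ Y := by
  rintro Y' hY' ⟨f, hf, h0⟩
  obtain ⟨e, he, hes⟩ := iso_of_simple hY.1 hY'.1 hf h0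
  exact GoodNC.iso e.symm hes he h

end Pool.Agent.N183.U8
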